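import Pool.Agent.H949.VW.Defs

set_option autoImplicit false

open MeasureTheory ProbabilityTheory Set Metric
open scoped RealInnerProductSpace ENNReal

namespace H949.VW

theorem kap_pos (d : ℕ) : 0 < kap d := by
  unfold kap
  apply ENNReal.toReal_pos
  · exact (measure_ball_pos volume _ one_pos).ne'
  · exact measure_ball_lt_top.ne

theorem vol_closedBall {d : ℕ} (x : E d) (r : ℝ) (hr : 0 < r) :
    (volume (closedBall x r)).toReal = kap d * r ^ d := by
  have h := Measure.addHaar_closedBall (volume : Measure (E d)) x hr.le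
  rw [finrank_euclideanSpace_fin] at h
  rw [h, ENNReal.toReal_mul, ENNReal.toReal_ofReal (by positivity)]
  unfold kap
  ring

theorem exists_cells (d : ℕ) (R h : ℝ) (hR : 0 ≤ R) (hh : 0 < h) : Nonempty (Cells d R h) := by
  classical
  have hc : IsCompact (closedBall (0 : E d) R) := isCompact_closedBall _ _
  obtain ⟨t, ht, htf, htc⟩ := hc.finite_cover_balls hh
  obtain ⟨N, c, hcinj, hcr⟩ := htf.fin_param
  refine ⟨{ N := N
            Q := fun i => (closedBall (c i) h ∩ closedBall 0 R) \ ⋃ j : {j : Fin N // j < i}, closedBall (c j) h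
            c := c
            meas := ?_
            disj := ?_
            cover := ?_
            inR := ?_
            sub := ?_
            cR := ?_ }⟩
  · intro i
    exact (measurableSet_closedBall.inter measurableSet_closedBall).diff
      (MeasurableSet.iUnion fun j => measurableSet_closedBall)
  · have key : ∀ i j : Fin N, i < j → ∀ x, x ∈ (closedBall (c i) h ∩ closedBall (0 : E d) R) →
        x ∈ ((closedBall (c j) h ∩ closedBall (0 : E d) R) \
          ⋃ j' : {j' : Fin N // j' < j}, closedBall (c j') h) → False := by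
      intro i j hij x hx hx2
      exact hx2.2 (mem_iUnion.2 ⟨⟨i, hij⟩, hx.1⟩)
    intro i j hij
    rw [Function.onFun, Set.disjoint_left]
    intro x hx hx2
    rcases lt_or_gt_of_ne hij with hlt | hlt
    · exact key i j hlt x hx.1 hx2
    · exact key j i hlt x hx2.1 hx
  · intro x hx
    have hx2 := htc hx
    simp only [mem_iUnion] at hx2
    obtain ⟨y, hy, hxy⟩ := hx2
    rw [← hcr] at hy
    obtain ⟨i0, rfl⟩ := hy
    have hne : (Finset.univ.filter fun i : Fin N => x ∈ closedBall (c i) h).Nonempty :=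
      ⟨i0, by
        rw [Finset.mem_filter]
        exact ⟨Finset.mem_univ _, ball_subset_closedBall hxy⟩⟩
    set m := (Finset.univ.filter fun i : Fin N => x ∈ closedBall (c i) h).min' hne with hm
    have hmem := Finset.min'_mem _ hne
    rw [← hm, Finset.mem_filter] at hmem
    refine mem_iUnion.2 ⟨m, ⟨hmem.2, hx⟩, ?_⟩
    intro hcon
    obtain ⟨⟨j, hj⟩, hxj⟩ := mem_iUnion.1 hcon
    have hle : m ≤ j := Finset.min'_le _ _ (by
      rw [Finset.mem_filter]
      exact ⟨Finset.mem_univ _, hxj⟩)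
    exact absurd hj (not_lt.2 hle)
  · intro i x hx
    exact hx.1.2
  · intro i x hx
    exact hx.1.1
  · intro i
    have h1 : c i ∈ t := by
      rw [← hcr]
      exact mem_range_self i
    have h2 := ht h1
    rwa [mem_closedBall, dist_zero_right] at h2

theorem Cells.v_nonneg {d : ℕ} {R h : ℝ} (C : Cells d R h) (i : Fin C.N) : 0 ≤ C.v i := by
  unfold Cells.v
  exact div_nonneg ENNReal.toReal_nonneg (kap_pos d).le

theorem Cells.v_le {d : ℕ} {R h : ℝ} (C : Cells d R h) (hh : 0 < h) (i : Fin C.N) : C.v i ≤ h ^ d := by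
  unfold Cells.v
  rw [div_le_iff₀ (kap_pos d), mul_comm, ← vol_closedBall (C.c i) h hh]
  exact ENNReal.toReal_mono measure_closedBall_lt_top.ne (measure_mono (C.sub i))

theorem Cells.sum_le {d : ℕ} {R h : ℝ} (C : Cells d R h) (I : Finset (Fin C.N)) (B : Set (E d))
    (hB : volume B ≠ ⊤) (h1 : ∀ i ∈ I, C.Q i ⊆ B) :
    ∑ i ∈ I, C.v i ≤ (volume B).toReal / kap d := by
  unfold Cells.v
  rw [← Finset.sum_div]
  apply div_le_div_of_nonneg_right _ (kap_pos d).le
  have hfin : ∀ i ∈ I, volume (C.Q i) ≠ ⊤ := fun i hi =>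
    ne_top_of_le_ne_top hB (measure_mono (h1 i hi))
  rw [← ENNReal.toReal_sum hfin]
  apply ENNReal.toReal_mono hB
  rw [← measure_biUnion_finset (fun i _ j _ hij => C.disj hij) (fun i _ => C.meas i)]
  exact measure_mono (iUnion₂_subset h1)

theorem Cells.le_sum {d : ℕ} {R h : ℝ} (C : Cells d R h) (I : Finset (Fin C.N)) (G : Set (E d))
    (hG : G ⊆ closedBall 0 R) (h1 : ∀ x ∈ G, ∀ i, x ∈ C.Q i → i ∈ I) :
    (volume G).toReal / kap d ≤ ∑ i ∈ I, C.v i := by
  unfold Cells.v
  rw [← Finset.sum_div]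
  apply div_le_div_of_nonneg_right _ (kap_pos d).le
  have hfin : ∀ i ∈ I, volume (C.Q i) ≠ ⊤ := fun i _ =>
    ne_top_of_le_ne_top measure_closedBall_lt_top.ne (measure_mono (C.inR i))
  rw [← ENNReal.toReal_sum hfin]
  apply ENNReal.toReal_mono (ENNReal.sum_ne_top.2 hfin)
  have hsub : G ⊆ ⋃ i ∈ I, C.Q i := by
    intro x hx
    obtain ⟨i, hi⟩ := mem_iUnion.1 (C.cover (hG hx))
    exact mem_iUnion₂.2 ⟨i, h1 x hx i hi, hi⟩
  exact (measure_mono hsub).trans (measure_biUnion_finset_le I C.Q)

end H949.VW
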