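import Pool.Agent.H949.VW.Defs
import Pool.Agent.H949.VW.Cells

set_option autoImplicit false

open MeasureTheory ProbabilityTheory Set Metric
open scoped RealInnerProductSpace ENNReal

namespace H949.VW

/-! ### Proofs

For each `k ≤ K` the closed ball of radius `R` of `E k` is compact, so it has a finite `τ`-net with `N_k` points; put
`N = ∑_{k ≤ K} N_k` (or the maximum). Let `L` be a subspace of `E d` of dimension `k ≤ K`; `L` is isometric to `E k`
(`stdOrthonormalBasis`), so `L ∩ closedBall 0 R` has a `τ`-net `y_1, …, y_{N_k}` in `L`. If `‖x‖ ≤ R` and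
`infDist x L ≤ r`, then for the projection `p` of `x` onto `L` (`‖p‖ ≤ R`, `‖x - p‖ = infDist x L`) there is `i` with
`‖p - y_i‖ ≤ τ`, and `‖x - y_i‖² = ‖x - p‖² + ‖p - y_i‖² ≤ r² + τ²`. So the set is covered by `N` balls of radius
`√(r² + τ²)`, each of volume `kap d (√(r² + τ²))^d` (`vol_closedBall`).
-/

theorem cover_point {d : ℕ} (L : Submodule ℝ (E d)) (x : E d) (r : ℝ)
    (h : infDist x (L : Set (E d)) ≤ r) :
    ∃ p : L, ‖(p : E d)‖ ≤ ‖x‖ ∧ ∀ w : L, ‖x - w‖ ^ 2 ≤ r ^ 2 + ‖p - w‖ ^ 2 := by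
  have horth : ∀ w : L, ⟪x - L.starProjection x, (w : E d)⟫ = 0 := fun w => by
    have h1 := L.sub_starProjection_mem_orthogonal x
    rw [Submodule.mem_orthogonal'] at h1
    exact h1 w w.2
  have hmem : L.starProjection x ∈ L := L.starProjection_apply_mem x
  have hpyth : ∀ w : L, ‖x - w‖ ^ 2 = ‖x - L.starProjection x‖ ^ 2 +
      ‖L.starProjection x - w‖ ^ 2 := fun w => by
    have h2 : x - (w : E d) = (x - L.starProjection x) + (L.starProjection x - w) := by abel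
    have h3 : ⟪x - L.starProjection x, L.starProjection x - (w : E d)⟫ = 0 :=
      horth ⟨L.starProjection x - w, L.sub_mem hmem w.2⟩
    rw [h2, sq, sq, sq]
    exact norm_add_sq_eq_norm_sq_add_norm_sq_real h3
  have hdist : ‖x - L.starProjection x‖ ≤ r := by
    refine le_trans ?_ h
    rw [le_infDist ⟨0, L.zero_mem⟩]
    intro y hy
    have h4 := hpyth ⟨y, hy⟩
    rw [dist_eq_norm]
    refine le_of_sq_le_sq ?_ (norm_nonneg _)
    have h5 : (0 : ℝ) ≤ ‖L.starProjection x - ((⟨y, hy⟩ : L) : E d)‖ ^ 2 := sq_nonneg _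
    have h6 : ‖x - ((⟨y, hy⟩ : L) : E d)‖ = ‖x - y‖ := rfl
    rw [h6] at h4
    linarith
  refine ⟨⟨L.starProjection x, hmem⟩, ?_, fun w => ?_⟩
  · refine le_of_sq_le_sq ?_ (norm_nonneg _)
    have h4 := hpyth 0
    rw [Submodule.coe_zero, sub_zero, sub_zero] at h4
    have h5 : (0 : ℝ) ≤ ‖x - L.starProjection x‖ ^ 2 := sq_nonneg _
    change ‖L.starProjection x‖ ^ 2 ≤ ‖x‖ ^ 2
    linarith
  · rw [hpyth w]
    have h7 : ‖x - L.starProjection x‖ ^ 2 ≤ r ^ 2 := pow_le_pow_left₀ (norm_nonneg _) hdist 2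
    have h8 : ‖(⟨L.starProjection x, hmem⟩ : L) - w‖ = ‖L.starProjection x - (w : E d)‖ := rfl
    rw [h8]
    linarith

theorem cover_net (k : ℕ) (R τ : ℝ) (hτ : 0 < τ) :
    ∃ t : Finset (E k), ∀ p : E k, ‖p‖ ≤ R → ∃ y ∈ t, ‖p - y‖ < τ := by
  obtain ⟨t, -, ht, hc⟩ := (isCompact_closedBall (0 : E k) R).finite_cover_balls hτ
  refine ⟨ht.toFinset, fun p hp => ?_⟩
  have h1 := hc (mem_closedBall_zero_iff.2 hp)
  rw [mem_iUnion₂] at h1
  obtain ⟨y, hy, h2⟩ := h1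
  exact ⟨y, ht.mem_toFinset.2 hy, by rwa [mem_ball, dist_eq_norm] at h2⟩

theorem slab_cover (K : ℕ) (R τ : ℝ) (hR : 0 < R) (hτ : 0 < τ) :
    ∃ N : ℕ, ∀ (d : ℕ) (L : Submodule ℝ (E d)), Module.finrank ℝ L ≤ K → ∀ r : ℝ, 0 ≤ r →
      (volume {x : E d | ‖x‖ ≤ R ∧ infDist x (L : Set (E d)) ≤ r}).toReal ≤
        N * (kap d * (Real.sqrt (r ^ 2 + τ ^ 2)) ^ d) := by
  classical
  choose t ht using fun k => cover_net k R τ hτ
  refine ⟨∑ k ∈ Finset.range (K + 1), (t k).card, fun d L hL r hr => ?_⟩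
  set ρ := Real.sqrt (r ^ 2 + τ ^ 2) with hρ
  have hρ0 : 0 < ρ := Real.sqrt_pos.2 (by positivity)
  have hρ2 : ρ ^ 2 = r ^ 2 + τ ^ 2 := Real.sq_sqrt (by positivity)
  let φ := (stdOrthonormalBasis ℝ L).repr
  have hsub : {x : E d | ‖x‖ ≤ R ∧ infDist x (L : Set (E d)) ≤ r} ⊆
      ⋃ y ∈ t (Module.finrank ℝ L), closedBall ((φ.symm y : L) : E d) ρ := by
    rintro x ⟨hx, hxr⟩
    obtain ⟨p, hp, hw⟩ := cover_point L x r hxr
    obtain ⟨y, hy, hpy⟩ := ht (Module.finrank ℝ L) (φ p) (by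
      rw [LinearIsometryEquiv.norm_map]
      exact le_trans hp hx)
    rw [mem_iUnion₂]
    refine ⟨y, hy, ?_⟩
    rw [mem_closedBall, dist_eq_norm]
    refine le_of_sq_le_sq ?_ hρ0.le
    rw [hρ2]
    refine (hw (φ.symm y)).trans ?_
    have h1 : ‖p - φ.symm y‖ = ‖φ p - y‖ := by
      rw [← LinearIsometryEquiv.norm_map φ (p - φ.symm y), map_sub, LinearIsometryEquiv.apply_symm_apply]
    rw [h1]
    have h2 : ‖φ p - y‖ ^ 2 ≤ τ ^ 2 := pow_le_pow_left₀ (norm_nonneg _) hpy.le 2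
    linarith
  have hfin : ∀ y : E (Module.finrank ℝ L), volume (closedBall ((φ.symm y : L) : E d) ρ) ≠ ⊤ := fun y =>
    measure_closedBall_lt_top.ne
  have h1 : volume {x : E d | ‖x‖ ≤ R ∧ infDist x (L : Set (E d)) ≤ r} ≤
      ∑ y ∈ t (Module.finrank ℝ L), volume (closedBall ((φ.symm y : L) : E d) ρ) :=
    (measure_mono hsub).trans (measure_biUnion_finset_le _ _)
  have h2 : (volume {x : E d | ‖x‖ ≤ R ∧ infDist x (L : Set (E d)) ≤ r}).toReal ≤
      (∑ y ∈ t (Module.finrank ℝ L), volume (closedBall ((φ.symm y : L) : E d) ρ)).toReal :=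
    ENNReal.toReal_mono (ENNReal.sum_ne_top.2 fun y _ => hfin y) h1
  refine h2.trans ?_
  rw [ENNReal.toReal_sum fun y _ => hfin y, Finset.sum_congr rfl fun y _ => vol_closedBall _ ρ hρ0,
    Finset.sum_const, nsmul_eq_mul]
  refine mul_le_mul_of_nonneg_right ?_ (mul_nonneg (kap_pos d).le (pow_nonneg hρ0.le d))
  have h3 : (t (Module.finrank ℝ L)).card ≤ ∑ k ∈ Finset.range (K + 1), (t k).card :=
    Finset.single_le_sum (f := fun k => (t k).card) (fun _ _ => Nat.zero_le _)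
      (Finset.mem_range.2 (Nat.lt_succ_of_le hL))
  exact_mod_cast h3
end H949.VW

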