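import Pool.Agent.H949.VW.Defs

set_option autoImplicit false

open MeasureTheory ProbabilityTheory Set Metric
open scoped RealInnerProductSpace ENNReal

namespace H949.VW

/-! ### Proofs

Facts on Gram determinants (all nine statements below).
* `norm_comb`: expand both squares: `‖∑ β c‖² = ∑∑ β i β j ⟪c i, c j⟫`.
* `exists_coeff`: orthogonal projection of `x` onto the (finite dimensional) span of `z '' S`, written as a
  linear combination (`Submodule.mem_span_image_iff_...`/`Finsupp` or `Submodule.span_induction`), and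
  `infDist x L = ‖x - P_L x‖`.
* `gramS_insert`: with `exists_coeff` for `x = z j`, subtract from the row and the column `j` the combination
  `∑ α i (row i)`: the determinant does not change and the matrix becomes block diagonal with the entry
  `‖z j - ∑ α i z i‖²` (this also covers linearly dependent families). One may use Schur complements or
  `Matrix.det_fromBlocks...` after reindexing `insert j S ≃ Option S`.
* `gramS_univ`: start with `R` and insert the indices `j ∉ R` in increasing order: for `j : ℕ` the set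
  `R ∪ {i | i < j}`; telescoping product.
* `gramS_comp`, `gramS_smul`, `gramS_empty`: reindexing, `Matrix.det_smul`.
* `gramS_nonneg`: from `gramS_insert` by induction on the finset.
* `gramS_close`: the determinant is uniformly continuous on the compact set of matrices with entries bounded
  by `R² + 1` (or a direct estimate).
-/

/-- the square of the norm of a linear combination -/
theorem gram_sq {F : Type*} [NormedAddCommGroup F] [InnerProductSpace ℝ F] {ι : Type*} [Fintype ι]
    (z : ι → F) (β : ι → ℝ) :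
    ‖∑ i, β i • z i‖ ^ 2 = ∑ i, ∑ j, β i * β j * ⟪z i, z j⟫ := by
  rw [← real_inner_self_eq_norm_sq, sum_inner]
  refine Finset.sum_congr rfl fun i _ => ?_
  rw [inner_sum]
  refine Finset.sum_congr rfl fun j _ => ?_
  rw [real_inner_smul_left, real_inner_smul_right, mul_assoc]

/-- the determinant of a Gram matrix with one more vector -/
theorem gram_block {F : Type*} [NormedAddCommGroup F] [InnerProductSpace ℝ F] {ι : Type*} [Fintype ι]
    [DecidableEq ι] (w : ι → F) (x : F) (α : ι → ℝ)
    (h : ∀ i, ⟪x - ∑ k, α k • w k, w i⟫ = 0) :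
    (Matrix.fromBlocks (Matrix.of fun i j => ⟪w i, w j⟫) (Matrix.of fun i (_ : PUnit.{1}) => ⟪w i, x⟫)
      (Matrix.of fun (_ : PUnit.{1}) j => ⟪x, w j⟫) (Matrix.of fun (_ _ : PUnit.{1}) => ⟪x, x⟫)).det =
      (Matrix.of fun i j => ⟪w i, w j⟫).det * ‖x - ∑ k, α k • w k‖ ^ 2 := by
  have h1 : ∀ i, ⟪x, w i⟫ = ∑ k, α k * ⟪w k, w i⟫ := by
    intro i
    have h2 := h i
    rw [inner_sub_left, sub_eq_zero, sum_inner] at h2
    rw [h2]
    exact Finset.sum_congr rfl fun k _ => real_inner_smul_left _ _ _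
  have h3 : ⟪x, x⟫ = ∑ k, (∑ l, α l * ⟪w l, w k⟫) * α k + ‖x - ∑ k, α k • w k‖ ^ 2 := by
    have h4 : ⟪x - ∑ k, α k • w k, ∑ k, α k • w k⟫ = 0 := by
      rw [inner_sum]
      refine Finset.sum_eq_zero fun k _ => ?_
      rw [real_inner_smul_right, h k, mul_zero]
    have h5 : ‖x - ∑ k, α k • w k‖ ^ 2 = ⟪x, x⟫ - ⟪x, ∑ k, α k • w k⟫ := by
      rw [← real_inner_self_eq_norm_sq]
      have h6 : ⟪x - ∑ k, α k • w k, x - ∑ k, α k • w k⟫ =
          ⟪x - ∑ k, α k • w k, x⟫ - ⟪x - ∑ k, α k • w k, ∑ k, α k • w k⟫ := inner_sub_right _ _ _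
      rw [h6, h4, sub_zero, inner_sub_left, real_inner_comm x (∑ k, α k • w k)]
    have h7 : ⟪x, ∑ k, α k • w k⟫ = ∑ k, (∑ l, α l * ⟪w l, w k⟫) * α k := by
      rw [inner_sum]
      refine Finset.sum_congr rfl fun k _ => ?_
      rw [real_inner_smul_right, h1 k, mul_comm]
    rw [h5, h7]
    ring
  have hM : Matrix.fromBlocks (Matrix.of fun i j => ⟪w i, w j⟫)
      (Matrix.of fun i (_ : PUnit.{1}) => ⟪w i, x⟫) (Matrix.of fun (_ : PUnit.{1}) j => ⟪x, w j⟫)
      (Matrix.of fun (_ _ : PUnit.{1}) => ⟪x, x⟫) =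
      Matrix.fromBlocks (1 : Matrix ι ι ℝ) 0 (Matrix.of fun (_ : PUnit.{1}) j => α j) 1 *
      Matrix.fromBlocks (Matrix.of fun i j => ⟪w i, w j⟫) 0 0
        (Matrix.of fun (_ _ : PUnit.{1}) => ‖x - ∑ k, α k • w k‖ ^ 2) *
      Matrix.fromBlocks (1 : Matrix ι ι ℝ) (Matrix.of fun i (_ : PUnit.{1}) => α i) 0 1 := by
    rw [Matrix.fromBlocks_multiply, Matrix.fromBlocks_multiply]
    simp only [Matrix.one_mul, Matrix.mul_one, Matrix.zero_mul, Matrix.mul_zero, add_zero, zero_add]
    rw [Matrix.fromBlocks_inj]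
    refine ⟨rfl, ?_, ?_, ?_⟩
    · ext i j
      rw [Matrix.mul_apply]
      change ⟪w i, x⟫ = ∑ k, ⟪w i, w k⟫ * α k
      rw [real_inner_comm, h1 i]
      refine Finset.sum_congr rfl fun k _ => ?_
      rw [real_inner_comm (w k) (w i), mul_comm]
    · ext i j
      rw [Matrix.mul_apply]
      exact h1 j
    · ext i j
      rw [Matrix.add_apply, Matrix.mul_apply]
      change ⟪x, x⟫ = ∑ k, _ * α k + _
      rw [h3]
      rfl
  rw [hM, Matrix.det_mul, Matrix.det_mul, Matrix.det_fromBlocks_zero₁₂, Matrix.det_fromBlocks_zero₂₁,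
    Matrix.det_fromBlocks_zero₂₁]
  simp only [Matrix.det_one]
  rw [one_mul, one_mul, mul_one]
  congr 1
  exact Matrix.det_unique _

/-- if the Gram matrices of `c` and `z` are `δ`-close, the squared norms of linear combinations are
`δ (∑ |β i|)²`-close. -/
theorem norm_comb {F F' : Type*} [NormedAddCommGroup F] [InnerProductSpace ℝ F] [NormedAddCommGroup F']
    [InnerProductSpace ℝ F'] {m : ℕ} (z : Fin m → F) (c : Fin m → F') (β : Fin m → ℝ) (δ : ℝ)
    (h : ∀ i j, β i ≠ 0 → β j ≠ 0 → |⟪c i, c j⟫ - ⟪z i, z j⟫| ≤ δ) :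
    |‖∑ i, β i • c i‖ ^ 2 - ‖∑ i, β i • z i‖ ^ 2| ≤ δ * (∑ i, |β i|) ^ 2 := by
  rw [gram_sq, gram_sq, ← Finset.sum_sub_distrib]
  have e : δ * (∑ i, |β i|) ^ 2 = ∑ i, ∑ j, |β i| * |β j| * δ := by
    rw [sq, Finset.sum_mul_sum, Finset.mul_sum]
    refine Finset.sum_congr rfl fun i _ => ?_
    rw [Finset.mul_sum]
    refine Finset.sum_congr rfl fun j _ => ?_
    ring
  rw [e]
  refine (Finset.abs_sum_le_sum_abs _ _).trans (Finset.sum_le_sum fun i _ => ?_)
  rw [← Finset.sum_sub_distrib]
  refine (Finset.abs_sum_le_sum_abs _ _).trans (Finset.sum_le_sum fun j _ => ?_)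
  rw [← mul_sub, abs_mul, abs_mul]
  by_cases hi : β i = 0
  · rw [hi, abs_zero, zero_mul, zero_mul, zero_mul]
  by_cases hj : β j = 0
  · rw [hj, abs_zero, mul_zero, zero_mul, zero_mul]
  exact mul_le_mul_of_nonneg_left (h i j hi hj) (mul_nonneg (abs_nonneg _) (abs_nonneg _))

theorem exists_coeff {F : Type*} [NormedAddCommGroup F] [InnerProductSpace ℝ F] {m : ℕ} (z : Fin m → F)
    (S : Set (Fin m)) (x : F) : ∃ α : Fin m → ℝ, (∀ i, i ∉ S → α i = 0) ∧
      (∀ i ∈ S, ⟪x - ∑ i, α i • z i, z i⟫ = 0) ∧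
      ‖x - ∑ i, α i • z i‖ = infDist x (Submodule.span ℝ (z '' S) : Set F) := by
  classical
  obtain ⟨s, rfl⟩ : ∃ s : Finset (Fin m), (s : Set (Fin m)) = S :=
    ⟨S.toFinite.toFinset, Set.Finite.coe_toFinset _⟩
  have : FiniteDimensional ℝ (Submodule.span ℝ (z '' (s : Set (Fin m)))) :=
    FiniteDimensional.span_of_finite ℝ (s.finite_toSet.image z)
  obtain ⟨L, hL⟩ : ∃ L : Submodule ℝ F, L = Submodule.span ℝ (z '' (s : Set (Fin m))) := ⟨_, rfl⟩
  rw [← hL] at this ⊢
  have hp : L.starProjection x ∈ Submodule.span ℝ (z '' (s : Set (Fin m))) := by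
    rw [← hL]
    exact Submodule.starProjection_apply_mem L x
  obtain ⟨c, hc⟩ := (Submodule.mem_span_image_finset_iff_exists_fun' ℝ).1 hp
  have hsum : ∑ i, (if i ∈ s then c i else 0) • z i = L.starProjection x := by
    rw [← hc]
    simp only [ite_smul, zero_smul]
    rw [Finset.sum_ite_mem, Finset.univ_inter]
  refine ⟨fun i => if i ∈ s then c i else 0, fun i hi => if_neg hi, fun i hi => ?_, ?_⟩
  · rw [hsum]
    refine Submodule.starProjection_inner_eq_zero x (z i) ?_
    rw [hL]
    exact Submodule.subset_span ⟨i, hi, rfl⟩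
  · rw [hsum, Submodule.starProjection_minimal, Metric.infDist_eq_iInf]
    simp only [dist_eq_norm]
    rfl

theorem gramS_empty {F : Type*} [NormedAddCommGroup F] [InnerProductSpace ℝ F] {m : ℕ} (z : Fin m → F) :
    gramS z ∅ = 1 := by
  unfold gramS
  have : IsEmpty ((∅ : Finset (Fin m)) : Type) := Finset.isEmpty_coe_sort.2 rfl
  exact Matrix.det_isEmpty

theorem gramS_insert {F : Type*} [NormedAddCommGroup F] [InnerProductSpace ℝ F] {m : ℕ} (z : Fin m → F)
    (S : Finset (Fin m)) (j : Fin m) (hj : j ∉ S) :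
    gramS z (insert j S) =
      gramS z S * (infDist (z j) (Submodule.span ℝ (z '' (S : Set (Fin m))) : Set F)) ^ 2 := by
  classical
  obtain ⟨α, hα1, hα2, hα3⟩ := exists_coeff z (S : Set (Fin m)) (z j)
  rw [← hα3]
  have hsum : ∑ k : S, α k • z k = ∑ k, α k • z k := by
    rw [Finset.sum_coe_sort S (fun k => α k • z k)]
    refine Finset.sum_subset (Finset.subset_univ S) fun k _ hk => ?_
    rw [hα1 k hk, zero_smul]
  have hb := gram_block (fun i : S => z i) (z j) (fun i : S => α i) (by
    intro i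
    rw [hsum]
    exact hα2 i i.2)
  rw [hsum] at hb
  unfold gramS
  rw [← hb, ← Matrix.det_submatrix_equiv_self
    ((Finset.subtypeInsertEquivOption hj).trans (Equiv.optionEquivSumPUnit.{0} _)).symm]
  congr 1
  ext (i | i) (k | k) <;> rfl

theorem gramS_univ {F : Type*} [NormedAddCommGroup F] [InnerProductSpace ℝ F] {m : ℕ} (z : Fin m → F)
    (R : Finset (Fin m)) :
    gramS z Finset.univ = gramS z R * ∏ j : Fin m, (if j ∈ R then 1 else
      (infDist (z j) (Submodule.span ℝ (z '' {i | i ∈ R ∨ i < j}) : Set F)) ^ 2) := by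
  classical
  have key : ∀ n : ℕ, n ≤ m → gramS z (R ∪ Finset.univ.filter (fun i : Fin m => (i : ℕ) < n)) =
      gramS z R * ∏ j ∈ Finset.univ.filter (fun i : Fin m => (i : ℕ) < n), (if j ∈ R then 1 else
        (infDist (z j) (Submodule.span ℝ (z '' {i | i ∈ R ∨ i < j}) : Set F)) ^ 2) := by
    intro n
    induction n with
    | zero =>
      intro _
      have e : Finset.univ.filter (fun i : Fin m => (i : ℕ) < 0) = ∅ :=
        Finset.filter_eq_empty_iff.2 fun i _ => Nat.not_lt_zero _
      rw [e, Finset.prod_empty, mul_one, Finset.union_empty]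
    | succ n ih =>
      intro hn
      have e : Finset.univ.filter (fun i : Fin m => (i : ℕ) < n + 1) =
          insert ⟨n, hn⟩ (Finset.univ.filter (fun i : Fin m => (i : ℕ) < n)) := by
        ext i
        rw [Finset.mem_insert, Finset.mem_filter, Finset.mem_filter, Fin.ext_iff]
        constructor
        · rintro ⟨_, h⟩
          rcases Nat.lt_succ_iff_lt_or_eq.1 h with h1 | h1
          · exact Or.inr ⟨Finset.mem_univ _, h1⟩
          · exact Or.inl h1
        · rintro (h | ⟨_, h⟩)
          · exact ⟨Finset.mem_univ _, by rw [h]; exact Nat.lt_succ_self n⟩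
          · exact ⟨Finset.mem_univ _, by omega⟩
      have hnot : (⟨n, hn⟩ : Fin m) ∉ Finset.univ.filter (fun i : Fin m => (i : ℕ) < n) := by
        intro h
        exact lt_irrefl n (Finset.mem_filter.1 h).2
      rw [e, Finset.prod_insert hnot, Finset.union_insert]
      by_cases hR : (⟨n, hn⟩ : Fin m) ∈ R
      · rw [if_pos hR, one_mul, Finset.insert_eq_of_mem (Finset.mem_union_left _ hR)]
        exact ih (by omega)
      · rw [if_neg hR, gramS_insert z _ _ (by
          rw [Finset.mem_union]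
          rintro (h | h)
          · exact hR h
          · exact hnot h), ih (by omega)]
        have e2 : (((R ∪ Finset.univ.filter (fun i : Fin m => (i : ℕ) < n) : Finset (Fin m))) :
            Set (Fin m)) = {i | i ∈ R ∨ i < ⟨n, hn⟩} := by
          ext i
          rw [Finset.mem_coe, Finset.mem_union, Finset.mem_filter, Set.mem_ofPred_eq, Fin.lt_def]
          constructor
          · rintro (h | ⟨_, h⟩)
            · exact Or.inl h
            · exact Or.inr h
          · rintro (h | h)
            · exact Or.inl h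
            · exact Or.inr ⟨Finset.mem_univ _, h⟩
        rw [e2]
        ring
  have h1 := key m le_rfl
  have e : Finset.univ.filter (fun i : Fin m => (i : ℕ) < m) = Finset.univ :=
    Finset.filter_true_of_mem fun i _ => i.2
  rw [e, Finset.union_eq_right.2 (Finset.subset_univ R)] at h1
  exact h1

theorem gramS_comp {F : Type*} [NormedAddCommGroup F] [InnerProductSpace ℝ F] {m k : ℕ} (z : Fin m → F)
    (e : Fin k ↪ Fin m) (S : Finset (Fin k)) :
    gramS (fun i => z (e i)) S = gramS z (S.map e) := by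
  classical
  have hbij : Function.Bijective (fun i : S => (⟨e i, Finset.mem_map_of_mem e i.2⟩ : S.map e)) := by
    constructor
    · intro i j hij
      exact Subtype.ext (e.injective (congrArg Subtype.val hij))
    · rintro ⟨y, hy⟩
      obtain ⟨i, hi, rfl⟩ := Finset.mem_map.1 hy
      exact ⟨⟨i, hi⟩, rfl⟩
  unfold gramS
  rw [← Matrix.det_submatrix_equiv_self (Equiv.ofBijective _ hbij)]
  rfl

theorem gramS_smul {F : Type*} [NormedAddCommGroup F] [InnerProductSpace ℝ F] {m : ℕ} (z : Fin m → F)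
    (s : ℝ) (S : Finset (Fin m)) : gramS (fun i => s • z i) S = s ^ (2 * S.card) * gramS z S := by
  unfold gramS
  have e : (Matrix.of fun i j : S => ⟪s • z i, s • z j⟫) =
      (s ^ 2) • (Matrix.of fun i j : S => ⟪z i, z j⟫) := by
    ext i j
    change ⟪s • z i, s • z j⟫ = s ^ 2 * ⟪z i, z j⟫
    rw [real_inner_smul_left, real_inner_smul_right]
    ring
  rw [e, Matrix.det_smul, Fintype.card_coe, ← pow_mul]

theorem gramS_nonneg {F : Type*} [NormedAddCommGroup F] [InnerProductSpace ℝ F] {m : ℕ} (z : Fin m → F)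
    (S : Finset (Fin m)) : 0 ≤ gramS z S := by
  induction S using Finset.induction_on with
  | empty =>
    rw [gramS_empty]
    exact zero_le_one
  | insert j S hj ih =>
    rw [gramS_insert z S j hj]
    exact mul_nonneg ih (sq_nonneg _)

/-- the index type -/
abbrev gram_I (k : ℕ) : Type := {x // x ∈ (Finset.univ : Finset (Fin k))}

theorem gramS_close (k : ℕ) (R ε : ℝ) (hε : 0 < ε) : ∃ δ : ℝ, 0 < δ ∧
    ∀ {F F' : Type*} [NormedAddCommGroup F] [InnerProductSpace ℝ F] [NormedAddCommGroup F']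
      [InnerProductSpace ℝ F'] (z : Fin k → F) (y : Fin k → F'), (∀ i, ‖z i‖ ≤ R) →
      (∀ i j, |⟪z i, z j⟫ - ⟪y i, y j⟫| ≤ δ) →
      |gramS z Finset.univ - gramS y Finset.univ| ≤ ε := by
  classical
  have hcont : Continuous fun M : gram_I k → gram_I k → ℝ =>
      (Matrix.of M).det := by
    refine Continuous.matrix_det ?_
    exact continuous_id
  have hunif := (isCompact_closedBall (0 : gram_I k → gram_I k → ℝ) (R ^ 2 + 1)).uniformContinuousOn_of_continuous
      hcont.continuousOn
  rw [Metric.uniformContinuousOn_iff] at hunif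
  obtain ⟨δ, hδ, hunif⟩ := hunif (ε / 2) (by positivity)
  refine ⟨min 1 (δ / 2), lt_min one_pos (by positivity), ?_⟩
  intro F F' _ _ _ _ z y hz hy
  have hr : (0 : ℝ) ≤ R ^ 2 + 1 := by positivity
  have hzz : ∀ i j, |⟪z i, z j⟫| ≤ R ^ 2 := by
    intro i j
    refine (abs_real_inner_le_norm _ _).trans ?_
    rw [sq]
    exact mul_le_mul (hz i) (hz j) (norm_nonneg _) ((norm_nonneg _).trans (hz i))
  have h1 : (fun i j : gram_I k => ⟪z i, z j⟫) ∈
      closedBall (0 : gram_I k → gram_I k → ℝ)
        (R ^ 2 + 1) := by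
    rw [mem_closedBall_zero_iff, pi_norm_le_iff_of_nonneg hr]
    intro i
    rw [pi_norm_le_iff_of_nonneg hr]
    intro j
    rw [Real.norm_eq_abs]
    linarith [hzz i j]
  have h2 : (fun i j : gram_I k => ⟪y i, y j⟫) ∈
      closedBall (0 : gram_I k → gram_I k → ℝ)
        (R ^ 2 + 1) := by
    rw [mem_closedBall_zero_iff, pi_norm_le_iff_of_nonneg hr]
    intro i
    rw [pi_norm_le_iff_of_nonneg hr]
    intro j
    rw [Real.norm_eq_abs]
    have h3 := hzz i j
    have h4 := (hy i j).trans (min_le_left _ _)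
    rw [abs_le] at h3 h4 ⊢
    constructor
    · linarith [h3.1, h4.2]
    · linarith [h3.2, h4.1]
  have h5 := hunif _ h1 _ h2 (by
    refine lt_of_le_of_lt ?_ (half_lt_self hδ)
    rw [dist_pi_le_iff (by positivity)]
    intro i
    rw [dist_pi_le_iff (by positivity)]
    intro j
    rw [Real.dist_eq]
    exact (hy i j).trans (min_le_right _ _))
  rw [Real.dist_eq] at h5
  exact h5.le.trans (by linarith)


end H949.VW
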