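import Pool.Agent.H949.VW.Defs

set_option autoImplicit false

open MeasureTheory ProbabilityTheory Set Metric
open scoped RealInnerProductSpace ENNReal

namespace H949.VW

/-! ### Proofs

Induction on `m`, peeling off the last coordinate with `Fin.snoc` (`Fin.snocEquiv`/`Fin.consEquiv`/`Fin.initEquiv`...):
`∑_{q : Fin (m+1) → ι} ∏ j f j q = ∑_{q'} ∑_a ∏_{j < m} f j (snoc q' ·) * f (last) (snoc q' a)`, where the first product does
not depend on `a` by `hdep`. In `le_seq_sum` the prefixes with a vanishing factor contribute `≥ 0` and are dropped: by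
induction apply the statement to the truncated family, and for a prefix `q'` with all factors positive the inner sum is
at least `b (last)`; `f j` of the truncated family can be defined with an arbitrary filling of the last coordinate
(`Nonempty ι`).
-/

theorem seq_cons {ι : Type*} [Fintype ι] (m : ℕ) (F : (Fin (m + 1) → ι) → ℝ) :
    ∑ q, F q = ∑ a, ∑ q' : Fin m → ι, F (Fin.cons a q') := by
  rw [← Fintype.sum_prod_type' (fun (a : ι) (q' : Fin m → ι) => F (Fin.cons a q'))]
  exact (Fintype.sum_equiv (Fin.consEquiv fun _ => ι) _ _ fun p => rfl).symm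

theorem seq_zero {ι : Type*} (m : ℕ) (f : Fin (m + 1) → (Fin (m + 1) → ι) → ℝ)
    (hdep : ∀ j q q', (∀ i ≤ j, q i = q' i) → f j q = f j q') (q : Fin (m + 1) → ι) (a : ι)
    (h : q 0 = a) : f 0 q = f 0 (fun _ => a) := by
  refine hdep 0 _ _ fun i hi => ?_
  have : i = 0 := Fin.le_zero_iff.1 hi
  rw [this, h]

theorem seq_dep {ι : Type*} (m : ℕ) (f : Fin (m + 1) → (Fin (m + 1) → ι) → ℝ)
    (hdep : ∀ j q q', (∀ i ≤ j, q i = q' i) → f j q = f j q') (a : ι) (j : Fin m)
    (q q' : Fin m → ι) (h : ∀ i ≤ j, q i = q' i) :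
    f j.succ (Fin.cons a q) = f j.succ (Fin.cons a q') := by
  refine hdep _ _ _ fun i hi => ?_
  induction i using Fin.cases with
  | zero => rw [Fin.cons_zero, Fin.cons_zero]
  | succ i =>
    rw [Fin.cons_succ, Fin.cons_succ]
    exact h i (Fin.succ_le_succ_iff.1 hi)

theorem seq_prod {ι : Type*} [Fintype ι] (m : ℕ) (f : Fin (m + 1) → (Fin (m + 1) → ι) → ℝ)
    (hdep : ∀ j q q', (∀ i ≤ j, q i = q' i) → f j q = f j q') :
    ∑ q, ∏ j, f j q = ∑ a, f 0 (fun _ => a) * ∑ q' : Fin m → ι, ∏ j, f (Fin.succ j) (Fin.cons a q') := by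
  rw [seq_cons]
  refine Finset.sum_congr rfl fun a _ => ?_
  rw [Finset.mul_sum]
  refine Finset.sum_congr rfl fun q' _ => ?_
  rw [Fin.prod_univ_succ, seq_zero m f hdep (Fin.cons a q') a rfl]

theorem seq_sum_le {ι : Type*} [Fintype ι] [DecidableEq ι] (m : ℕ) (f : Fin m → (Fin m → ι) → ℝ)
    (hf0 : ∀ j q, 0 ≤ f j q) (hdep : ∀ j q q', (∀ i ≤ j, q i = q' i) → f j q = f j q')
    (B : Fin m → ℝ) (hB : ∀ j, 0 ≤ B j)
    (h : ∀ j q, ∑ a, f j (Function.update q j a) ≤ B j) : ∑ q, ∏ j, f j q ≤ ∏ j, B j := by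
  induction m with
  | zero => simp
  | succ m ih =>
    rw [seq_prod m f hdep, Fin.prod_univ_succ]
    have h1 : ∀ a, ∑ q' : Fin m → ι, ∏ j, f (Fin.succ j) (Fin.cons a q') ≤
        ∏ j, B (Fin.succ j) := by
      intro a
      refine ih (fun j q' => f (Fin.succ j) (Fin.cons a q')) (fun j q' => hf0 _ _)
        (fun j q q' hq => seq_dep m f hdep a j q q' hq) (fun j => B (Fin.succ j))
        (fun j => hB _) (fun j q => ?_)
      have h2 := h (Fin.succ j) (Fin.cons a q)
      refine le_trans (le_of_eq (Finset.sum_congr rfl fun c _ => ?_)) h2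
      show f (Fin.succ j) (Fin.cons a (Function.update q j c)) = _
      rw [Fin.cons_update]
    have h2 : ∑ a, f 0 (fun _ => a) ≤ B 0 := by
      rcases isEmpty_or_nonempty ι with hi | ⟨⟨c⟩⟩
      · rw [Finset.univ_eq_empty, Finset.sum_empty]
        exact hB 0
      · refine le_trans (le_of_eq (Finset.sum_congr rfl fun a _ => ?_)) (h 0 (fun _ => c))
        exact (seq_zero m f hdep _ a (Function.update_self _ _ _)).symm
    calc ∑ a, f 0 (fun _ => a) * ∑ q' : Fin m → ι, ∏ j, f (Fin.succ j) (Fin.cons a q')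
        ≤ ∑ a, f 0 (fun _ => a) * ∏ j, B (Fin.succ j) :=
          Finset.sum_le_sum fun a _ => mul_le_mul_of_nonneg_left (h1 a) (hf0 _ _)
      _ = (∑ a, f 0 (fun _ => a)) * ∏ j, B (Fin.succ j) := (Finset.sum_mul _ _ _).symm
      _ ≤ B 0 * ∏ j, B (Fin.succ j) :=
          mul_le_mul_of_nonneg_right h2 (Finset.prod_nonneg fun j _ => hB _)

theorem le_seq_sum {ι : Type*} [Fintype ι] [DecidableEq ι] [Nonempty ι] (m : ℕ)
    (f : Fin m → (Fin m → ι) → ℝ)
    (hf0 : ∀ j q, 0 ≤ f j q) (hdep : ∀ j q q', (∀ i ≤ j, q i = q' i) → f j q = f j q')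
    (b : Fin m → ℝ) (hb : ∀ j, 0 ≤ b j)
    (h : ∀ j q, (∀ i < j, 0 < f i q) → b j ≤ ∑ a, f j (Function.update q j a)) :
    ∏ j, b j ≤ ∑ q, ∏ j, f j q := by
  induction m with
  | zero => simp
  | succ m ih =>
    rw [seq_prod m f hdep, Fin.prod_univ_succ]
    have h1 : ∀ a, 0 < f 0 (fun _ => a) → ∏ j, b (Fin.succ j) ≤
        ∑ q' : Fin m → ι, ∏ j, f (Fin.succ j) (Fin.cons a q') := by
      intro a ha
      refine ih (fun j q' => f (Fin.succ j) (Fin.cons a q')) (fun j q' => hf0 _ _)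
        (fun j q q' hq => seq_dep m f hdep a j q q' hq) (fun j => b (Fin.succ j))
        (fun j => hb _) (fun j q hq => ?_)
      have h2 := h (Fin.succ j) (Fin.cons a q) (fun i hi => by
        induction i using Fin.cases with
        | zero =>
          rw [seq_zero m f hdep (Fin.cons a q) a rfl]
          exact ha
        | succ i => exact hq i (Fin.succ_lt_succ_iff.1 hi))
      refine h2.trans (le_of_eq (Finset.sum_congr rfl fun c _ => ?_))
      show _ = f (Fin.succ j) (Fin.cons a (Function.update q j c))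
      rw [Fin.cons_update]
    have h2 : b 0 ≤ ∑ a, f 0 (fun _ => a) := by
      obtain ⟨c⟩ := ‹Nonempty ι›
      refine (h 0 (fun _ => c) (fun i hi => absurd hi (Fin.not_lt_zero i))).trans
        (le_of_eq (Finset.sum_congr rfl fun a _ => ?_))
      exact seq_zero m f hdep _ a (Function.update_self _ _ _)
    calc b 0 * ∏ j, b (Fin.succ j)
        ≤ (∑ a, f 0 (fun _ => a)) * ∏ j, b (Fin.succ j) :=
          mul_le_mul_of_nonneg_right h2 (Finset.prod_nonneg fun j _ => hb _)
      _ = ∑ a, f 0 (fun _ => a) * ∏ j, b (Fin.succ j) := Finset.sum_mul _ _ _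
      _ ≤ _ := by
          refine Finset.sum_le_sum fun a _ => ?_
          rcases (hf0 0 (fun _ => a)).eq_or_lt with h3 | h3
          · rw [← h3, zero_mul, zero_mul]
          · exact mul_le_mul_of_nonneg_left (h1 a h3) (hf0 _ _)

end H949.VW
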