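import Pool.Agent.H949.VW.Defs
import Pool.Agent.H949.VW.Cells
import Pool.Agent.H949.VW.Cover
import Pool.Agent.H949.VW.Gram
import Pool.Agent.H949.VW.Seq

set_option autoImplicit false

open MeasureTheory ProbabilityTheory Set Metric
open scoped RealInnerProductSpace ENNReal

namespace H949.VW

/-! ### Auxiliary lemmas -/

/-- telescoping -/
theorem bad_prod {ι : Type*} (s : Finset ι) (a : ι → ℝ) (δ : ℝ) (hδ : 0 ≤ δ)
    (ha : ∀ i, 0 ≤ a i) (ha6 : ∀ i, a i + δ ≤ 6) :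
    ∏ i ∈ s, (a i + δ) ≤ ∏ i ∈ s, a i + s.card * δ * 6 ^ s.card := by
  classical
  induction s using Finset.induction_on with
  | empty => simp
  | insert i s hi ih =>
    rw [Finset.prod_insert hi, Finset.prod_insert hi, Finset.card_insert_of_notMem hi]
    have h1 : ∏ i ∈ s, (a i + δ) ≤ (6 : ℝ) ^ s.card := by
      calc ∏ i ∈ s, (a i + δ) ≤ ∏ i ∈ s, (6 : ℝ) :=
            Finset.prod_le_prod (fun i _ => add_nonneg (ha i) hδ) (fun i _ => ha6 i)
        _ = 6 ^ s.card := by rw [Finset.prod_const]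
    have h2 : a i ≤ 6 := by linarith [ha6 i]
    have h3 : (0 : ℝ) ≤ s.card * δ * 6 ^ s.card := by positivity
    have h6 : (0 : ℝ) ≤ δ * 6 ^ s.card := by positivity
    push_cast
    calc (a i + δ) * ∏ i ∈ s, (a i + δ)
        = a i * ∏ i ∈ s, (a i + δ) + δ * ∏ i ∈ s, (a i + δ) := by ring
      _ ≤ a i * (∏ i ∈ s, a i + s.card * δ * 6 ^ s.card) + δ * 6 ^ s.card :=
          add_le_add (mul_le_mul_of_nonneg_left ih (ha i)) (mul_le_mul_of_nonneg_left h1 hδ)
      _ = a i * ∏ i ∈ s, a i + a i * (s.card * δ * 6 ^ s.card) + δ * 6 ^ s.card := by ring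
      _ ≤ a i * ∏ i ∈ s, a i + 6 * (s.card * δ * 6 ^ s.card) + 6 * (δ * 6 ^ s.card) := by
          have h4 := mul_le_mul_of_nonneg_right h2 h3
          linarith
      _ = a i * ∏ i ∈ s, a i + ((s.card : ℝ) + 1) * δ * 6 ^ (s.card + 1) := by
          rw [pow_succ]; ring

/-- the distance of `z j` from the span of the previous vectors -/
noncomputable def bad_r {d k : ℕ} (z : Fin k → E d) (j : Fin k) : ℝ :=
  infDist (z j) (Submodule.span ℝ (z '' {i | i < j}) : Set (E d))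

theorem bad_gram {d k : ℕ} (z : Fin k → E d) :
    gramS z Finset.univ = (∏ j, bad_r z j) ^ 2 := by
  rw [gramS_univ z ∅, gramS_empty, one_mul, ← Finset.prod_pow]
  refine Finset.prod_congr rfl fun j _ => ?_
  have h1 : {i : Fin k | i ∈ (∅ : Finset (Fin k)) ∨ i < j} = {i | i < j} := by
    ext i
    simp
  rw [h1, if_neg (Finset.notMem_empty j)]
  rfl

theorem bad_r_nonneg {d k : ℕ} (z : Fin k → E d) (j : Fin k) : 0 ≤ bad_r z j := infDist_nonneg

theorem bad_r_le {d k : ℕ} (z : Fin k → E d) (j : Fin k) (hz : ‖z j‖ ≤ 2) : bad_r z j ≤ 2 := by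
  refine (infDist_le_dist_of_mem (Submodule.zero_mem _)).trans ?_
  rw [dist_zero_right]
  exact hz

theorem bad_r_congr {d k : ℕ} (z z' : Fin k → E d) (j : Fin k) (h : ∀ i ≤ j, z i = z' i) :
    bad_r z j = bad_r z' j := by
  unfold bad_r
  have h1 : z '' {i | i < j} = z' '' {i | i < j} :=
    Set.image_congr fun i hi => h i (le_of_lt hi)
  rw [h1, h j le_rfl]

open Classical in
/-- one factor -/
noncomputable def bad_f {d k : ℕ} {h : ℝ} (C : Cells d 2 h) (τ : ℝ) (g : Fin k → ℕ) (j : Fin k)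
    (q : Fin k → Fin C.N) : ℝ :=
  if (g j : ℝ) * τ ≤ bad_r (fun i => C.c (q i)) j ∧
      bad_r (fun i => C.c (q i)) j ≤ ((g j : ℝ) + 1) * τ then C.v (q j) else 0

theorem bad_f_nonneg {d k : ℕ} {h : ℝ} (C : Cells d 2 h) (τ : ℝ) (g : Fin k → ℕ) (j : Fin k)
    (q : Fin k → Fin C.N) : 0 ≤ bad_f C τ g j q := by
  unfold bad_f
  split_ifs
  · exact C.v_nonneg _
  · exact le_refl _

theorem bad_f_dep {d k : ℕ} {h : ℝ} (C : Cells d 2 h) (τ : ℝ) (g : Fin k → ℕ) (j : Fin k)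
    (q q' : Fin k → Fin C.N) (hq : ∀ i ≤ j, q i = q' i) : bad_f C τ g j q = bad_f C τ g j q' := by
  unfold bad_f
  rw [bad_r_congr (fun i => C.c (q i)) (fun i => C.c (q' i)) j
    (fun i hi => by rw [hq i hi]), hq j le_rfl]

theorem bad_step {k : ℕ} {τ : ℝ} (hτ : 0 < τ) {N : ℕ}
    (hN : ∀ (d : ℕ) (L : Submodule ℝ (E d)), Module.finrank ℝ L ≤ k → ∀ r : ℝ, 0 ≤ r →
      (volume {x : E d | ‖x‖ ≤ 2 ∧ infDist x (L : Set (E d)) ≤ r}).toReal ≤
        N * (kap d * (Real.sqrt (r ^ 2 + τ ^ 2)) ^ d))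
    {d : ℕ} {h : ℝ} (hh : h ≤ τ) (C : Cells d 2 h) (g : Fin k → ℕ) (j : Fin k)
    (q : Fin k → Fin C.N) :
    ∑ a, bad_f C τ g j (Function.update q j a) ≤ N * ((g j : ℝ) * τ + 3 * τ) ^ d := by
  classical
  set L : Submodule ℝ (E d) :=
    Submodule.span ℝ ((fun i => C.c (q i)) '' {i | i < j}) with hL
  have hfin : Module.finrank ℝ L ≤ k := by
    have h1 : L ≤ Submodule.span ℝ (Set.range fun i => C.c (q i)) :=
      Submodule.span_mono (Set.image_subset_range _ _)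
    have h2 : Module.finrank ℝ (Submodule.span ℝ (Set.range fun i => C.c (q i))) ≤
        Fintype.card (Fin k) := finrank_range_le_card _
    rw [Fintype.card_fin] at h2
    exact (Submodule.finrank_mono h1).trans h2
  have hr : ∀ a, bad_r (fun i => C.c (Function.update q j a i)) j =
      infDist (C.c a) (L : Set (E d)) := by
    intro a
    unfold bad_r
    have h1 : (fun i => C.c (Function.update q j a i)) '' {i | i < j} =
        (fun i => C.c (q i)) '' {i | i < j} := by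
      refine Set.image_congr fun i hi => ?_
      have hij : i ≠ j := ne_of_lt hi
      rw [Function.update_of_ne hij]
    rw [h1]
    show infDist (C.c (Function.update q j a j)) _ = _
    rw [Function.update_self]
  set I : Finset (Fin C.N) := Finset.univ.filter
    (fun a => infDist (C.c a) (L : Set (E d)) ≤ ((g j : ℝ) + 1) * τ) with hI
  set r : ℝ := ((g j : ℝ) + 2) * τ with hrdef
  have hr0 : 0 ≤ r := by positivity
  set B : Set (E d) := {x : E d | ‖x‖ ≤ 2 ∧ infDist x (L : Set (E d)) ≤ r} with hB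
  have hBt : volume B ≠ ⊤ := by
    have h1 : B ⊆ closedBall (0 : E d) 2 := by
      intro x hx
      rw [mem_closedBall, dist_zero_right]
      exact hx.1
    exact ne_of_lt (lt_of_le_of_lt (measure_mono h1) measure_closedBall_lt_top)
  have hsub : ∀ a ∈ I, C.Q a ⊆ B := by
    intro a ha x hx
    have h1 : infDist (C.c a) (L : Set (E d)) ≤ ((g j : ℝ) + 1) * τ := (Finset.mem_filter.1 ha).2
    have h2 := C.inR a hx
    rw [mem_closedBall, dist_zero_right] at h2
    have h3 := C.sub a hx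
    rw [mem_closedBall] at h3
    refine ⟨h2, ?_⟩
    have h4 : infDist x (L : Set (E d)) ≤ infDist (C.c a) (L : Set (E d)) + dist x (C.c a) :=
      infDist_le_infDist_add_dist
    calc infDist x (L : Set (E d)) ≤ infDist (C.c a) (L : Set (E d)) + dist x (C.c a) := h4
      _ ≤ ((g j : ℝ) + 1) * τ + τ := by linarith
      _ = r := by rw [hrdef]; ring
  have hsum : ∑ a, bad_f C τ g j (Function.update q j a) ≤ ∑ a ∈ I, C.v a := by
    rw [hI, Finset.sum_filter]
    refine Finset.sum_le_sum fun a _ => ?_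
    unfold bad_f
    rw [hr a, Function.update_self]
    by_cases h1 : infDist (C.c a) (L : Set (E d)) ≤ ((g j : ℝ) + 1) * τ
    · rw [if_pos h1]
      split_ifs
      · exact le_refl _
      · exact C.v_nonneg _
    · rw [if_neg h1, if_neg (fun h2 => h1 h2.2)]
  have hk : 0 < kap d := kap_pos d
  have h5 := C.sum_le I B hBt hsub
  have h6 := hN d L hfin r hr0
  have h7 : (volume B).toReal / kap d ≤ N * (Real.sqrt (r ^ 2 + τ ^ 2)) ^ d := by
    rw [div_le_iff₀ hk]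
    calc (volume B).toReal ≤ N * (kap d * (Real.sqrt (r ^ 2 + τ ^ 2)) ^ d) := h6
      _ = N * (Real.sqrt (r ^ 2 + τ ^ 2)) ^ d * kap d := by ring
  have h8 : Real.sqrt (r ^ 2 + τ ^ 2) ≤ (g j : ℝ) * τ + 3 * τ := by
    rw [show (g j : ℝ) * τ + 3 * τ = r + τ by rw [hrdef]; ring]
    rw [Real.sqrt_le_left (by positivity)]
    nlinarith [mul_nonneg hr0 hτ.le]
  have h9 : (N : ℝ) * (Real.sqrt (r ^ 2 + τ ^ 2)) ^ d ≤ N * ((g j : ℝ) * τ + 3 * τ) ^ d :=
    mul_le_mul_of_nonneg_left (pow_le_pow_left₀ (Real.sqrt_nonneg _) h8 d) (Nat.cast_nonneg N)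
  exact hsum.trans (h5.trans (h7.trans h9))

/-! ### Proofs

Assume `k ≥ 1` (for `k = 0` the Gram determinant is `1 > θ`). Write `r_j (q) = infDist (c (q j)) (span {c (q i) | i < j}) ∈
[0, 2]`. By `gramS_univ` with `R = ∅`, `gramS (c ∘ q) univ = ∏_j r_j (q)²`, so `gramS ≤ θ` gives `∏ r_j ≤ √θ < 1`. Fix a
mesh `τ > 0` (and `h0 = τ`), `G = ⌈2/τ⌉`. For `g : Fin k → Fin (G + 1)` let `T_g` be the set of `q` with
`g_j τ ≤ r_j (q) ≤ (g_j + 1) τ`. If `gramS ≤ θ`, then `q ∈ T_g` for some `g` with `∏ g_j τ ≤ √θ`. By `seq_sum_le` with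
`f j q = 1[g_j τ ≤ r_j (q) ≤ (g_j + 1) τ] C.v (q j)` (which depends only on `q i`, `i ≤ j`):
`∑_{q ∈ T_g} ∏ C.v (q j) ≤ ∏ B_j`, `B_j = N (√(((g_j + 2) τ)² + τ²))^d ≤ N ((g_j + 3) τ)^d`, because for a fixed prefix with
span `L` (`finrank L ≤ k`) the cells `a` with `infDist (c a) L ≤ (g_j + 1) τ` satisfy
`Q a ⊆ {x | ‖x‖ ≤ 2, infDist x L ≤ (g_j + 1) τ + h}`, and `sum_le`, `slab_cover` (with `K = k`, `R = 2`, `τ`) apply. Now
`∏ (g_j + 3) τ ≤ ∏ g_j τ + C_k τ ≤ √θ + C_k τ ≤ θ' < 1` when `τ` is small (all factors are at most `2 + 4 τ ≤ 6`, telescoping).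
So the whole sum is at most `(G + 1)^k N^k θ'^d ≤ ε` for large `d`.
-/

open Classical in
theorem bad_sum (k : ℕ) (θ : ℝ) (h0 : 0 < θ) (h1 : θ < 1) :
    ∃ h0 : ℝ, 0 < h0 ∧ ∀ h : ℝ, 0 < h → h ≤ h0 → ∀ ε : ℝ, 0 < ε → ∃ d0 : ℕ, ∀ d ≥ d0,
      ∀ C : Cells d 2 h,
        ∑ q : Fin k → Fin C.N, (if gramS (fun j => C.c (q j)) Finset.univ ≤ θ then
          ∏ j, C.v (q j) else 0) ≤ ε := by
  classical
  set t : ℝ := Real.sqrt θ with ht
  have ht1 : t < 1 := by
    rw [ht]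
    exact (Real.sqrt_lt_sqrt h0.le h1).trans_eq Real.sqrt_one
  have ht0 : 0 ≤ t := Real.sqrt_nonneg θ
  set M : ℝ := 3 * k * 6 ^ k + 1 with hM
  have hM0 : 0 < M := by positivity
  set τ : ℝ := min 1 ((1 - t) / (2 * M)) with hτdef
  have hτ0 : 0 < τ := by
    rw [hτdef]
    refine lt_min one_pos ?_
    have : 0 < 1 - t := by linarith
    positivity
  have hτ1 : τ ≤ 1 := min_le_left _ _
  have hτM : M * τ ≤ (1 - t) / 2 := by
    calc M * τ ≤ M * ((1 - t) / (2 * M)) := mul_le_mul_of_nonneg_left (min_le_right _ _) hM0.le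
      _ = (1 - t) / 2 := by field_simp
  obtain ⟨N, hN⟩ := slab_cover k 2 τ two_pos hτ0
  set G : ℕ := ⌊2 / τ⌋₊ with hG
  have hGτ : (G : ℝ) * τ ≤ 2 := by
    have h2 : (G : ℝ) ≤ 2 / τ := Nat.floor_le (by positivity)
    calc (G : ℝ) * τ ≤ 2 / τ * τ := mul_le_mul_of_nonneg_right h2 hτ0.le
      _ = 2 := by field_simp
  set θ' : ℝ := (1 + t) / 2 with hθ'
  have hθ'1 : θ' < 1 := by rw [hθ']; linarith
  have hθ'0 : 0 ≤ θ' := by rw [hθ']; linarith
  refine ⟨τ, hτ0, fun h hh hhτ ε hε => ?_⟩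
  set A : ℝ := ((G : ℝ) + 1) ^ k * (N : ℝ) ^ k with hA
  have hA0 : 0 ≤ A := by positivity
  obtain ⟨d0, hd0⟩ : ∃ d0 : ℕ, ∀ d ≥ d0, A * θ' ^ d ≤ ε := by
    have h2 : Filter.Tendsto (fun d : ℕ => A * θ' ^ d) Filter.atTop (nhds (A * 0)) :=
      (tendsto_pow_atTop_nhds_zero_of_lt_one hθ'0 hθ'1).const_mul A
    rw [mul_zero] at h2
    obtain ⟨d0, h3⟩ := Filter.eventually_atTop.1 (h2.eventually (gt_mem_nhds hε))
    exact ⟨d0, fun d hd => (h3 d hd).le⟩
  refine ⟨d0, fun d hd C => ?_⟩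
  -- the good indices
  set S : Finset (Fin k → Fin (G + 1)) := Finset.univ.filter
    (fun g => ∏ j, ((g j : ℕ) : ℝ) * τ ≤ t) with hS
  have hg : ∀ g ∈ S, ∑ q : Fin k → Fin C.N, ∏ j, bad_f C τ (fun i => (g i : ℕ)) j q ≤
      (N : ℝ) ^ k * θ' ^ d := by
    intro g hgS
    have hgt : ∏ j, ((g j : ℕ) : ℝ) * τ ≤ t := (Finset.mem_filter.1 hgS).2
    have h2 := seq_sum_le k (fun j q => bad_f C τ (fun i => (g i : ℕ)) j q)
      (fun j q => bad_f_nonneg C τ _ j q) (fun j q q' hq => bad_f_dep C τ _ j q q' hq)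
      (fun j => (N : ℝ) * (((g j : ℕ) : ℝ) * τ + 3 * τ) ^ d) (fun j => by positivity)
      (fun j q => bad_step hτ0 hN hhτ C (fun i => (g i : ℕ)) j q)
    refine h2.trans ?_
    rw [Finset.prod_mul_distrib, Finset.prod_const, Finset.card_univ, Fintype.card_fin,
      Finset.prod_pow]
    refine mul_le_mul_of_nonneg_left (pow_le_pow_left₀ ?_ ?_ d) (by positivity)
    · exact Finset.prod_nonneg fun j _ => by positivity
    · have h3 := bad_prod (Finset.univ : Finset (Fin k)) (fun j => ((g j : ℕ) : ℝ) * τ) (3 * τ)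
        (by positivity) (fun j => by positivity) (fun j => by
          have h4 : ((g j : ℕ) : ℝ) ≤ G := by exact_mod_cast Nat.lt_succ_iff.1 (g j).isLt
          have h5 : ((g j : ℕ) : ℝ) * τ ≤ 2 := (mul_le_mul_of_nonneg_right h4 hτ0.le).trans hGτ
          linarith)
      rw [Finset.card_univ, Fintype.card_fin] at h3
      have h4 : (k : ℝ) * (3 * τ) * 6 ^ k ≤ M * τ := by
        rw [hM]
        nlinarith
      refine h3.trans ?_
      rw [hθ']
      linarith
  -- every bad tuple has a good index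
  have hq : ∀ q : Fin k → Fin C.N, (if gramS (fun j => C.c (q j)) Finset.univ ≤ θ then
      ∏ j, C.v (q j) else 0) ≤ ∑ g ∈ S, ∏ j, bad_f C τ (fun i => (g i : ℕ)) j q := by
    intro q
    split_ifs with hgr
    · set z : Fin k → E d := fun j => C.c (q j) with hz
      rw [bad_gram] at hgr
      have hP0 : 0 ≤ ∏ j, bad_r z j := Finset.prod_nonneg fun j _ => bad_r_nonneg z j
      have hPt : ∏ j, bad_r z j ≤ t := Real.le_sqrt_of_sq_le hgr
      have hlt : ∀ j, ⌊bad_r z j / τ⌋₊ < G + 1 := by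
        intro j
        refine Nat.lt_succ_of_le (Nat.floor_le_floor ?_)
        exact div_le_div_of_nonneg_right (bad_r_le z j (C.cR _)) hτ0.le
      set g : Fin k → Fin (G + 1) := fun j => ⟨⌊bad_r z j / τ⌋₊, hlt j⟩ with hgdef
      have hg1 : ∀ j, ((g j : ℕ) : ℝ) * τ ≤ bad_r z j := by
        intro j
        have h2 : ((⌊bad_r z j / τ⌋₊ : ℕ) : ℝ) ≤ bad_r z j / τ :=
          Nat.floor_le (div_nonneg (bad_r_nonneg z j) hτ0.le)
        calc ((g j : ℕ) : ℝ) * τ ≤ bad_r z j / τ * τ := mul_le_mul_of_nonneg_right h2 hτ0.le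
          _ = bad_r z j := by field_simp
      have hg2 : ∀ j, bad_r z j ≤ (((g j : ℕ) : ℝ) + 1) * τ := by
        intro j
        have h2 : bad_r z j / τ < ((⌊bad_r z j / τ⌋₊ : ℕ) : ℝ) + 1 := Nat.lt_floor_add_one _
        calc bad_r z j = bad_r z j / τ * τ := by field_simp
          _ ≤ (((g j : ℕ) : ℝ) + 1) * τ := mul_le_mul_of_nonneg_right h2.le hτ0.le
      have hgS : g ∈ S := by
        refine Finset.mem_filter.2 ⟨Finset.mem_univ _, ?_⟩
        refine (Finset.prod_le_prod (fun j _ => by positivity) fun j _ => hg1 j).trans hPt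
      have h3 : ∏ j, C.v (q j) = ∏ j, bad_f C τ (fun i => (g i : ℕ)) j q := by
        refine Finset.prod_congr rfl fun j _ => ?_
        unfold bad_f
        rw [if_pos ⟨hg1 j, hg2 j⟩]
      rw [h3]
      exact Finset.single_le_sum (f := fun g : Fin k → Fin (G + 1) =>
        ∏ j, bad_f C τ (fun i => (g i : ℕ)) j q)
        (fun g _ => Finset.prod_nonneg fun j _ => bad_f_nonneg C τ _ j q) hgS
    · exact Finset.sum_nonneg fun g _ => Finset.prod_nonneg fun j _ => bad_f_nonneg C τ _ j q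
  calc ∑ q : Fin k → Fin C.N, (if gramS (fun j => C.c (q j)) Finset.univ ≤ θ then
        ∏ j, C.v (q j) else 0)
      ≤ ∑ q : Fin k → Fin C.N, ∑ g ∈ S, ∏ j, bad_f C τ (fun i => (g i : ℕ)) j q :=
        Finset.sum_le_sum fun q _ => hq q
    _ = ∑ g ∈ S, ∑ q : Fin k → Fin C.N, ∏ j, bad_f C τ (fun i => (g i : ℕ)) j q :=
        Finset.sum_comm
    _ ≤ ∑ g ∈ S, (N : ℝ) ^ k * θ' ^ d := Finset.sum_le_sum hg
    _ = (S.card : ℝ) * ((N : ℝ) ^ k * θ' ^ d) := by rw [Finset.sum_const, nsmul_eq_mul]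
    _ ≤ ((G : ℝ) + 1) ^ k * ((N : ℝ) ^ k * θ' ^ d) := by
        refine mul_le_mul_of_nonneg_right ?_ (by positivity)
        have h2 : S.card ≤ (G + 1) ^ k := by
          refine (Finset.card_le_univ S).trans ?_
          rw [Fintype.card_fun, Fintype.card_fin, Fintype.card_fin]
        exact_mod_cast h2
    _ = A * θ' ^ d := by rw [hA]; ring
    _ ≤ ε := hd0 d hd



end H949.VW
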