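import Pool.Agent.H949.VW.Defs
import Pool.Agent.H949.VW.Cells

set_option autoImplicit false

open MeasureTheory ProbabilityTheory Set Metric
open scoped RealInnerProductSpace ENNReal

namespace H949.VW

/-! ### Proofs

A maximal `τ`-separated subset `S` of `closedBall 0 R` (exists by compactness, or because the volume bound below bounds the
cardinality): the balls `ball y (τ/2)`, `y ∈ S`, are disjoint and contained in `closedBall 0 (R + τ/2)`, so
`|S| (τ/2)^d ≤ (R + τ/2)^d`. Maximality gives the covering property. (`d = 0` is fine: one point.)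
-/

theorem net_card {d : ℕ} (R τ : ℝ) (hR : 0 < R) (hτ : 0 < τ) (S : Finset (E d))
    (h1 : ∀ x ∈ S, x ∈ closedBall (0 : E d) R)
    (h2 : ∀ x ∈ S, ∀ y ∈ S, x ≠ y → τ < dist x y) :
    (S.card : ℝ) ≤ (1 + 2 * R / τ) ^ d := by
  have hsub : (⋃ y ∈ S, closedBall y (τ / 2)) ⊆ closedBall (0 : E d) (R + τ / 2) := by
    intro z hz
    simp only [mem_iUnion] at hz
    obtain ⟨y, hy, hz⟩ := hz
    rw [mem_closedBall] at hz ⊢
    have := h1 y hy
    rw [mem_closedBall] at this
    linarith [dist_triangle z y 0]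
  have hdis : (S : Set (E d)).PairwiseDisjoint (fun y => closedBall y (τ / 2)) := by
    intro x hx y hy hxy
    apply closedBall_disjoint_closedBall
    have := h2 x hx y hy hxy
    linarith
  have hvol : ∑ y ∈ S, (volume (closedBall y (τ / 2))).toReal ≤
      (volume (closedBall (0 : E d) (R + τ / 2))).toReal := by
    rw [← ENNReal.toReal_sum (fun y _ => measure_closedBall_lt_top.ne),
      ← measure_biUnion_finset hdis (fun y _ => measurableSet_closedBall)]
    exact ENNReal.toReal_mono measure_closedBall_lt_top.ne (measure_mono hsub)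
  rw [Finset.sum_congr rfl (fun y _ => vol_closedBall y (τ / 2) (half_pos hτ)),
    Finset.sum_const, nsmul_eq_mul, vol_closedBall _ _ (by linarith)] at hvol
  have hk := kap_pos d
  have e : R + τ / 2 = τ / 2 * (1 + 2 * R / τ) := by
    field_simp
    ring
  rw [e, mul_pow] at hvol
  have hp : 0 < kap d * (τ / 2) ^ d := by positivity
  refine le_of_mul_le_mul_right ?_ hp
  calc (S.card : ℝ) * (kap d * (τ / 2) ^ d) ≤ kap d * ((τ / 2) ^ d * (1 + 2 * R / τ) ^ d) := hvol
    _ = (1 + 2 * R / τ) ^ d * (kap d * (τ / 2) ^ d) := by ring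

theorem exists_net {d : ℕ} (R τ : ℝ) (hR : 0 < R) (hτ : 0 < τ) : ∃ S : Finset (E d),
    (∀ x ∈ closedBall (0 : E d) R, ∃ y ∈ S, dist x y ≤ τ) ∧ (S.card : ℝ) ≤ (1 + 2 * R / τ) ^ d := by
  classical
  set B : ℝ := (1 + 2 * R / τ) ^ d with hB
  have hB0 : 0 ≤ B := by positivity
  let p : ℕ → Prop := fun n => ∃ S : Finset (E d), S.card = n ∧
    (∀ x ∈ S, x ∈ closedBall (0 : E d) R) ∧ ∀ x ∈ S, ∀ y ∈ S, x ≠ y → τ < dist x y
  have hp0 : p 0 := ⟨∅, Finset.card_empty, by simp, by simp⟩
  have hple : ∀ n, p n → n ≤ ⌊B⌋₊ := by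
    rintro n ⟨S, rfl, h1, h2⟩
    exact Nat.le_floor (net_card R τ hR hτ S h1 h2)
  obtain ⟨S, hc, h1, h2⟩ : p (Nat.findGreatest p ⌊B⌋₊) :=
    Nat.findGreatest_spec (P := p) (Nat.zero_le _) hp0
  refine ⟨S, ?_, net_card R τ hR hτ S h1 h2⟩
  intro x hx
  by_contra hcon
  push Not at hcon
  have hxS : x ∉ S := by
    intro hxS
    have := hcon x hxS
    rw [dist_self] at this
    linarith
  have hp1 : p (S.card + 1) := by
    refine ⟨insert x S, Finset.card_insert_of_notMem hxS, ?_, ?_⟩
    · intro y hy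
      rcases Finset.mem_insert.1 hy with rfl | hy
      · exact hx
      · exact h1 y hy
    · intro y hy z hz hyz
      rcases Finset.mem_insert.1 hy with hyx | hyS
      · rcases Finset.mem_insert.1 hz with hzx | hzS
        · exact absurd (hyx.trans hzx.symm) hyz
        · rw [hyx]
          exact hcon z hzS
      · rcases Finset.mem_insert.1 hz with hzx | hzS
        · rw [hzx, dist_comm]
          exact hcon y hyS
        · exact h2 y hyS z hzS hyz
  have h3 := Nat.le_findGreatest (P := p) (hple _ hp1) hp1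
  omega

end H949.VW
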