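import Pool.Agent.H949.VW.Defs
import Pool.Agent.H949.VW.Cells

set_option autoImplicit false

open MeasureTheory ProbabilityTheory Set Metric
open scoped RealInnerProductSpace ENNReal

namespace H949.VW

/-! ### Proofs

`{(Z ω ∩ A).Nonempty}` is the preimage of `{0}ᶜ` under `ω ↦ (Z ω ∩ A).encard`.
* `occ_prob`: `P (encard = 0) = exp (-lam vol A)` (`law` with `k = 0`).
* `cells_indep`: from `indep` (`iIndepFun` → preimages), `Set.encard_ne_zero`.
* `cells_occ`: `lam vol (Q i) = C.v i =: x`, `0 ≤ x ≤ h ^ d ≤ 1`, `x / 2 ≤ 1 - exp (-x) ≤ x`.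
* `cells_two`: union bound over `i`; `{two points in Q i} ⊆ {encard ≠ 0, encard ≠ 1}`, of probability
  `1 - exp (-x) (1 + x) ≤ x²`, `x = C.v i`. `∑ x_i² ≤ h ^ d ∑ x_i ≤ h ^ d * R ^ d` by `v_le` and `sum_le` (with
  `B = closedBall 0 R`, `vol_closedBall`).
-/

theorem pois_fin {d : ℕ} {R h : ℝ} (C : Cells d R h) (i : Fin C.N) : volume (C.Q i) ≠ ⊤ :=
  ((measure_mono (C.inR i)).trans_lt measure_closedBall_lt_top).ne

theorem pois_lam {d : ℕ} {R h : ℝ} (C : Cells d R h) (i : Fin C.N) :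
    1 / kap d * (volume (C.Q i)).toReal = C.v i := by
  unfold Cells.v
  ring

theorem occ_meas {Ω : Type*} [MeasurableSpace Ω] (P : Measure Ω) {d : ℕ} (Z : Ω → Set (E d)) {lam : ℝ}
    (hZ : IsPoisson P Z lam) (A : Set (E d)) (hA : MeasurableSet A) :
    MeasurableSet {ω | (Z ω ∩ A).Nonempty} := by
  have e : {ω | (Z ω ∩ A).Nonempty} = (fun ω => (Z ω ∩ A).encard) ⁻¹' {0}ᶜ := by
    ext ω
    simp only [mem_setOf_eq, mem_preimage, mem_compl_iff, mem_singleton_iff, encard_eq_zero]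
    exact nonempty_iff_ne_empty
  rw [e]
  exact hZ.meas A hA (measurableSet_singleton 0).compl

theorem occ_prob {Ω : Type*} [MeasurableSpace Ω] (P : Measure Ω) [IsProbabilityMeasure P] {d : ℕ}
    (Z : Ω → Set (E d)) {lam : ℝ} (hZ : IsPoisson P Z lam) (A : Set (E d)) (hA : MeasurableSet A)
    (hA' : volume A ≠ ⊤) :
    (P {ω | (Z ω ∩ A).Nonempty}).toReal = 1 - Real.exp (-(lam * (volume A).toReal)) := by
  have e : {ω | (Z ω ∩ A).Nonempty} = {ω | (Z ω ∩ A).encard = ((0 : ℕ) : ℕ∞)}ᶜ := by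
    ext ω
    simp only [mem_setOf_eq, mem_compl_iff, Nat.cast_zero, encard_eq_zero]
    exact nonempty_iff_ne_empty
  have hm : MeasurableSet {ω | (Z ω ∩ A).encard = ((0 : ℕ) : ℕ∞)} :=
    hZ.meas A hA (measurableSet_singleton _)
  have h1 := hZ.law A hA hA' 0
  rw [e, prob_compl_eq_one_sub hm, h1, ENNReal.toReal_sub_of_le ?_ ENNReal.one_ne_top]
  · rw [ENNReal.toReal_one, ENNReal.toReal_ofReal (by positivity)]
    simp
  · rw [← h1]; exact prob_le_one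

theorem cells_indep {Ω : Type*} [MeasurableSpace Ω] (P : Measure Ω) {d : ℕ} (Z : Ω → Set (E d)) {lam : ℝ}
    (hZ : IsPoisson P Z lam) {R h : ℝ} (C : Cells d R h) :
    iIndepSet (fun i => {ω | (Z ω ∩ C.Q i).Nonempty}) P := by
  rw [iIndepSet_iff_meas_biInter (fun i => occ_meas P Z hZ (C.Q i) (C.meas i))]
  intro s
  have h1 := (hZ.indep C.N C.Q C.meas C.disj).measure_inter_preimage_eq_mul s
    (sets := fun _ => {0}ᶜ) (fun i _ => (measurableSet_singleton (0 : ℕ∞)).compl)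
  have e : ∀ i, {ω | (Z ω ∩ C.Q i).Nonempty} = (fun ω => (Z ω ∩ C.Q i).encard) ⁻¹' {0}ᶜ := by
    intro i
    ext ω
    simp only [mem_setOf_eq, mem_preimage, mem_compl_iff, mem_singleton_iff, encard_eq_zero]
    exact nonempty_iff_ne_empty
  simp only [e]
  exact h1

theorem cells_occ {Ω : Type*} [MeasurableSpace Ω] (P : Measure Ω) [IsProbabilityMeasure P] {d : ℕ}
    (Z : Ω → Set (E d)) (hZ : IsPoisson P Z (1 / kap d)) {R h : ℝ} (hh : 0 < h) (hh1 : h ≤ 1)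
    (C : Cells d R h) (i : Fin C.N) :
    C.v i / 2 ≤ (P {ω | (Z ω ∩ C.Q i).Nonempty}).toReal ∧
      (P {ω | (Z ω ∩ C.Q i).Nonempty}).toReal ≤ C.v i := by
  have hx0 := C.v_nonneg i
  have hx1 : C.v i ≤ 1 := (C.v_le hh i).trans (pow_le_one₀ hh.le hh1)
  rw [occ_prob P Z hZ (C.Q i) (C.meas i) (pois_fin C i), pois_lam C i]
  have h1 := Real.add_one_le_exp (-(C.v i))
  have h2 := Real.add_one_le_exp (C.v i)
  have h3 : Real.exp (-(C.v i)) * Real.exp (C.v i) = 1 := by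
    rw [← Real.exp_add]; simp
  have h4 := Real.exp_pos (-(C.v i))
  refine ⟨?_, by linarith⟩
  have h5 : Real.exp (-(C.v i)) * (1 + C.v i) ≤ 1 := by
    rw [← h3]
    exact mul_le_mul_of_nonneg_left (by linarith) h4.le
  nlinarith

theorem cells_two {Ω : Type*} [MeasurableSpace Ω] (P : Measure Ω) [IsProbabilityMeasure P] {d : ℕ}
    (Z : Ω → Set (E d)) (hZ : IsPoisson P Z (1 / kap d)) {R h : ℝ} (hR : 0 < R) (hh : 0 < h)
    (C : Cells d R h) :
    P {ω | ∃ i, ∃ x ∈ Z ω ∩ C.Q i, ∃ y ∈ Z ω ∩ C.Q i, x ≠ y} ≤ ENNReal.ofReal ((h * R) ^ d) := by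
  have hkey : ∀ i, P {ω | ∃ x ∈ Z ω ∩ C.Q i, ∃ y ∈ Z ω ∩ C.Q i, x ≠ y} ≤
      ENNReal.ofReal (C.v i ^ 2) := by
    intro i
    obtain ⟨E0, hE0⟩ : ∃ E0, E0 = {ω | (Z ω ∩ C.Q i).encard = ((0 : ℕ) : ℕ∞)} := ⟨_, rfl⟩
    obtain ⟨E1, hE1⟩ : ∃ E1, E1 = {ω | (Z ω ∩ C.Q i).encard = ((1 : ℕ) : ℕ∞)} := ⟨_, rfl⟩
    have m0 : MeasurableSet E0 := by
      rw [hE0]; exact hZ.meas (C.Q i) (C.meas i) (measurableSet_singleton _)
    have m1 : MeasurableSet E1 := by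
      rw [hE1]; exact hZ.meas (C.Q i) (C.meas i) (measurableSet_singleton _)
    have l0 := hZ.law (C.Q i) (C.meas i) (pois_fin C i) 0
    have l1 := hZ.law (C.Q i) (C.meas i) (pois_fin C i) 1
    rw [← hE0, pois_lam C i] at l0
    rw [← hE1, pois_lam C i] at l1
    have hx0 := C.v_nonneg i
    have r0 : P.real E0 = Real.exp (-(C.v i)) := by
      rw [Measure.real, l0, ENNReal.toReal_ofReal (by positivity)]; simp
    have r1 : P.real E1 = Real.exp (-(C.v i)) * C.v i := by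
      rw [Measure.real, l1, ENNReal.toReal_ofReal (by positivity)]; simp
    have hd : Disjoint E0 E1 := by
      rw [hE0, hE1, Set.disjoint_left]
      intro ω h0 h1
      rw [mem_setOf_eq] at h0 h1
      rw [h0] at h1
      exact absurd h1 (by norm_num)
    have hsub : {ω | ∃ x ∈ Z ω ∩ C.Q i, ∃ y ∈ Z ω ∩ C.Q i, x ≠ y} ⊆ (E0 ∪ E1)ᶜ := by
      rintro ω ⟨x, hx, y, hy, hxy⟩ (h | h)
      · rw [hE0, mem_setOf_eq, Nat.cast_zero, encard_eq_zero] at h
        rw [h] at hx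
        exact hx
      · rw [hE1, mem_setOf_eq, Nat.cast_one, encard_eq_one] at h
        obtain ⟨z, hz⟩ := h
        rw [hz, mem_singleton_iff] at hx hy
        exact hxy (hx.trans hy.symm)
    have r2 : P.real (E0 ∪ E1)ᶜ = 1 - (Real.exp (-(C.v i)) + Real.exp (-(C.v i)) * C.v i) := by
      rw [probReal_compl_eq_one_sub (m0.union m1), measureReal_union hd m1, r0, r1]
    calc P {ω | ∃ x ∈ Z ω ∩ C.Q i, ∃ y ∈ Z ω ∩ C.Q i, x ≠ y} ≤ P (E0 ∪ E1)ᶜ := measure_mono hsub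
      _ = ENNReal.ofReal (P.real (E0 ∪ E1)ᶜ) := (ofReal_measureReal (measure_ne_top _ _)).symm
      _ ≤ ENNReal.ofReal (C.v i ^ 2) := by
        refine ENNReal.ofReal_le_ofReal ?_
        rw [r2]
        have h1 := Real.add_one_le_exp (-(C.v i))
        nlinarith
  have hun : {ω | ∃ i, ∃ x ∈ Z ω ∩ C.Q i, ∃ y ∈ Z ω ∩ C.Q i, x ≠ y} =
      ⋃ i, {ω | ∃ x ∈ Z ω ∩ C.Q i, ∃ y ∈ Z ω ∩ C.Q i, x ≠ y} := by
    ext ω; simp only [mem_setOf_eq, mem_iUnion]
  rw [hun]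
  calc P (⋃ i, {ω | ∃ x ∈ Z ω ∩ C.Q i, ∃ y ∈ Z ω ∩ C.Q i, x ≠ y})
      ≤ ∑ i, P {ω | ∃ x ∈ Z ω ∩ C.Q i, ∃ y ∈ Z ω ∩ C.Q i, x ≠ y} := by
        exact measure_iUnion_fintype_le _ _
    _ ≤ ∑ i, ENNReal.ofReal (C.v i ^ 2) := Finset.sum_le_sum fun i _ => hkey i
    _ = ENNReal.ofReal (∑ i, C.v i ^ 2) :=
        (ENNReal.ofReal_sum_of_nonneg fun i _ => sq_nonneg _).symm
    _ ≤ ENNReal.ofReal ((h * R) ^ d) := by
        refine ENNReal.ofReal_le_ofReal ?_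
        have h1 : ∑ i, C.v i ≤ R ^ d := by
          have h2 := C.sum_le Finset.univ (closedBall (0 : E d) R)
            (measure_closedBall_lt_top).ne (fun i _ => C.inR i)
          rw [vol_closedBall 0 R hR, mul_div_cancel_left₀ _ (kap_pos d).ne'] at h2
          exact h2
        calc ∑ i, C.v i ^ 2 ≤ ∑ i, h ^ d * C.v i := by
              refine Finset.sum_le_sum fun i _ => ?_
              rw [sq]
              exact mul_le_mul_of_nonneg_right (C.v_le hh i) (C.v_nonneg i)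
          _ = h ^ d * ∑ i, C.v i := by rw [Finset.mul_sum]
          _ ≤ h ^ d * R ^ d := mul_le_mul_of_nonneg_left h1 (by positivity)
          _ = (h * R) ^ d := (mul_pow _ _ _).symm


end H949.VW
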