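import Pool.Agent.H949.VW.Defs
import Pool.Agent.H949.VW.Cells
import Pool.Agent.H949.VW.Net
import Pool.Agent.H949.VW.Pois

set_option autoImplicit false

open MeasureTheory ProbabilityTheory Set Metric
open scoped RealInnerProductSpace ENNReal

namespace H949.VW

/-! ### Proofs

`V = cell Z` is star shaped about `0` (`x ∈ V`, `0 ≤ t ≤ 1` gives `t x ∈ V`: `x ∈ V` iff `2 ⟪x, z⟫ ≤ ‖z‖²` for all `z ∈ Z`),
so if `V ⊄ closedBall 0 (1 + δ)` it contains a point `x` with `‖x‖ = 1 + δ`, and then `Z` has no point in `ball x (1 + δ)`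
(`‖x‖ ≤ ‖x - z‖`). Let `S` be a net of `closedBall 0 (1 + δ)` with `τ = δ / 2` (`exists_net`); for `y ∈ S` with `dist x y ≤ δ / 2`
we get `ball y (1 + δ / 2) ⊆ ball x (1 + δ)`, so `Z ω ∩ closedBall y (1 + δ / 4) = ∅`. By `occ_prob` and `vol_closedBall` this has
probability `exp (-(1 + δ / 4)^d)`. Union bound: `(1 + 4 (1 + δ) / δ)^d exp (-(1 + δ / 4)^d) → 0` as `d → ∞`.
-/

theorem ball_star {d : ℕ} {Z : Set (E d)} {x : E d} (hx : x ∈ cell Z) {t : ℝ} (h0 : 0 ≤ t)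
    (h1 : t ≤ 1) : t • x ∈ cell Z := by
  intro z hz
  have h := hx z hz
  have h2 : ‖x - z‖ ≤ ‖x - t • x‖ + ‖t • x - z‖ := norm_sub_le_norm_sub_add_norm_sub _ _ _
  have h3 : ‖x - t • x‖ = (1 - t) * ‖x‖ := by
    have : x - t • x = (1 - t) • x := by rw [sub_smul, one_smul]
    rw [this, norm_smul, Real.norm_of_nonneg (by linarith)]
  have h4 : ‖t • x‖ = t * ‖x‖ := by rw [norm_smul, Real.norm_of_nonneg h0]
  rw [h4]
  linarith

theorem ball_lim (B c ε : ℝ) (hB : 0 ≤ B) (hc : 1 < c) (hε : 0 < ε) :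
    ∃ d0 : ℕ, ∀ d ≥ d0, B ^ d * Real.exp (-(c ^ d)) ≤ ε := by
  obtain ⟨k, hk⟩ := pow_unbounded_of_one_lt B hc
  have h1 : Filter.Tendsto (fun d : ℕ => (c ^ d) ^ k * Real.exp (-(c ^ d))) Filter.atTop
      (nhds 0) :=
    (Real.tendsto_pow_mul_exp_neg_atTop_nhds_zero k).comp (tendsto_pow_atTop_atTop_of_one_lt hc)
  obtain ⟨d0, hd0⟩ := Filter.eventually_atTop.1 (h1.eventually (gt_mem_nhds hε))
  refine ⟨d0, fun d hd => ?_⟩
  have h2 : B ^ d ≤ (c ^ d) ^ k := by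
    rw [← pow_mul, mul_comm, pow_mul]
    exact pow_le_pow_left₀ hB hk.le d
  exact (mul_le_mul_of_nonneg_right h2 (Real.exp_pos _).le).trans (hd0 d hd).le

theorem ball_empty {Ω : Type*} [MeasurableSpace Ω] (P : Measure Ω) [IsProbabilityMeasure P] {d : ℕ}
    (Z : Ω → Set (E d)) (hZ : IsPoisson P Z (1 / kap d)) (y : E d) (r : ℝ) (hr : 0 < r) :
    P {ω | (Z ω ∩ closedBall y r).Nonempty}ᶜ = ENNReal.ofReal (Real.exp (-(r ^ d))) := by
  have hm := occ_meas P Z hZ (closedBall y r) measurableSet_closedBall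
  have hf : volume (closedBall y r) ≠ ⊤ := measure_closedBall_lt_top.ne
  have h1 := occ_prob P Z hZ (closedBall y r) measurableSet_closedBall hf
  rw [vol_closedBall y r hr, ← mul_assoc, one_div, inv_mul_cancel₀ (kap_pos d).ne', one_mul] at h1
  have h2 : (P {ω | (Z ω ∩ closedBall y r).Nonempty}ᶜ).toReal = Real.exp (-(r ^ d)) := by
    rw [prob_compl_eq_one_sub hm, ENNReal.toReal_sub_of_le prob_le_one ENNReal.one_ne_top,
      ENNReal.toReal_one, h1]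
    ring
  rw [← h2, ENNReal.ofReal_toReal (measure_ne_top _ _)]

theorem cell_in_ball (δ ε : ℝ) (hδ : 0 < δ) (hε : 0 < ε) :
    ∃ d0 : ℕ, ∀ d ≥ d0, ∀ {Ω : Type*} [MeasurableSpace Ω] (P : Measure Ω) [IsProbabilityMeasure P]
      (Z : Ω → Set (E d)), IsPoisson P Z (1 / kap d) →
      P {ω | ¬ cell (Z ω) ⊆ closedBall 0 (1 + δ)} ≤ ENNReal.ofReal ε := by
  obtain ⟨d0, hd0⟩ := ball_lim (1 + 2 * (1 + δ) / (δ / 2)) (1 + δ / 4) ε (by positivity)
    (by linarith) hε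
  refine ⟨d0, fun d hd Ω _ P _ Z hZ => ?_⟩
  obtain ⟨S, hS, hSc⟩ := exists_net (d := d) (1 + δ) (δ / 2) (by linarith) (by linarith)
  have hsub : {ω | ¬ cell (Z ω) ⊆ closedBall 0 (1 + δ)} ⊆
      ⋃ y ∈ S, {ω | (Z ω ∩ closedBall y (1 + δ / 4)).Nonempty}ᶜ := by
    intro ω hω
    obtain ⟨x, hx, hxn⟩ := Set.not_subset.1 hω
    rw [mem_closedBall_zero_iff, not_le] at hxn
    have hxp : 0 < ‖x‖ := by linarith
    have ht0 : 0 ≤ (1 + δ) / ‖x‖ := by positivity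
    have ht1 : (1 + δ) / ‖x‖ ≤ 1 := by
      rw [div_le_one hxp]
      exact hxn.le
    have hx' := ball_star hx ht0 ht1
    have hn : ‖((1 + δ) / ‖x‖) • x‖ = 1 + δ := by
      rw [norm_smul, Real.norm_of_nonneg ht0, div_mul_cancel₀ _ hxp.ne']
    obtain ⟨y, hy, hxy⟩ := hS (((1 + δ) / ‖x‖) • x) (by rw [mem_closedBall_zero_iff, hn])
    refine Set.mem_iUnion₂.2 ⟨y, hy, ?_⟩
    rintro ⟨z, hz, hzy⟩
    have h1 := hx' z hz
    rw [hn] at h1
    have h2 := norm_sub_le_norm_sub_add_norm_sub (((1 + δ) / ‖x‖) • x) y z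
    rw [dist_eq_norm] at hxy
    rw [mem_closedBall, dist_eq_norm, norm_sub_rev] at hzy
    linarith
  calc P {ω | ¬ cell (Z ω) ⊆ closedBall 0 (1 + δ)} ≤
        P (⋃ y ∈ S, {ω | (Z ω ∩ closedBall y (1 + δ / 4)).Nonempty}ᶜ) := measure_mono hsub
    _ ≤ ∑ y ∈ S, P {ω | (Z ω ∩ closedBall y (1 + δ / 4)).Nonempty}ᶜ :=
        measure_biUnion_finset_le _ _
    _ = ∑ _y ∈ S, ENNReal.ofReal (Real.exp (-((1 + δ / 4) ^ d))) :=
        Finset.sum_congr rfl fun y _ => ball_empty P Z hZ y _ (by linarith)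
    _ = ENNReal.ofReal ((S.card : ℝ) * Real.exp (-((1 + δ / 4) ^ d))) := by
        rw [Finset.sum_const, nsmul_eq_mul, ENNReal.ofReal_mul (Nat.cast_nonneg _),
          ENNReal.ofReal_natCast]
    _ ≤ ENNReal.ofReal ε := by
        refine ENNReal.ofReal_le_ofReal ?_
        exact (mul_le_mul_of_nonneg_right hSc (Real.exp_pos _).le).trans (hd0 d hd)


end H949.VW
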