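import Pool.Agent.H949.VW.Defs

set_option autoImplicit false

open MeasureTheory ProbabilityTheory Set Metric
open scoped RealInnerProductSpace ENNReal

namespace H949.VW

/-! Elementary facts on suprema and infima of linear functionals on bounded sets (by helper703). -/

theorem wid_abs_le {F : Type*} [NormedAddCommGroup F] [InnerProductSpace ℝ F] (u : F) (K : Set F)
    (R : ℝ) (hb : K ⊆ closedBall 0 R) (x : F) (hx : x ∈ K) : |⟪u, x⟫| ≤ ‖u‖ * R := by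
  have h1 : ‖x‖ ≤ R := by
    have h := hb hx
    rwa [mem_closedBall_zero_iff] at h
  exact (abs_real_inner_le_norm u x).trans (mul_le_mul_of_nonneg_left h1 (norm_nonneg u))

theorem wid_bddAbove {F : Type*} [NormedAddCommGroup F] [InnerProductSpace ℝ F] (u : F) (K : Set F)
    (R : ℝ) (hb : K ⊆ closedBall 0 R) : BddAbove ((fun x => ⟪u, x⟫) '' K) := by
  refine ⟨‖u‖ * R, ?_⟩
  rintro _ ⟨x, hx, rfl⟩
  exact (abs_le.mp (wid_abs_le u K R hb x hx)).2

theorem wid_bddBelow {F : Type*} [NormedAddCommGroup F] [InnerProductSpace ℝ F] (u : F) (K : Set F)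
    (R : ℝ) (hb : K ⊆ closedBall 0 R) : BddBelow ((fun x => ⟪u, x⟫) '' K) := by
  refine ⟨-(‖u‖ * R), ?_⟩
  rintro _ ⟨x, hx, rfl⟩
  exact (abs_le.mp (wid_abs_le u K R hb x hx)).1

theorem wid_le_sSup {F : Type*} [NormedAddCommGroup F] [InnerProductSpace ℝ F] (u : F) (K : Set F)
    (R : ℝ) (hb : K ⊆ closedBall 0 R) (x : F) (hx : x ∈ K) :
    ⟪u, x⟫ ≤ sSup ((fun x => ⟪u, x⟫) '' K) :=
  le_csSup (wid_bddAbove u K R hb) ⟨x, hx, rfl⟩

theorem wid_sInf_le {F : Type*} [NormedAddCommGroup F] [InnerProductSpace ℝ F] (u : F) (K : Set F)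
    (R : ℝ) (hb : K ⊆ closedBall 0 R) (x : F) (hx : x ∈ K) :
    sInf ((fun x => ⟪u, x⟫) '' K) ≤ ⟪u, x⟫ :=
  csInf_le (wid_bddBelow u K R hb) ⟨x, hx, rfl⟩

theorem wid_le_of_map_smul {F F' : Type*} [NormedAddCommGroup F] [InnerProductSpace ℝ F]
    [NormedAddCommGroup F'] [InnerProductSpace ℝ F'] (u : F)
    (v : F') (K : Set F) (K' : Set F') (hne : K.Nonempty) (R s : ℝ) (hs : 0 ≤ s)
    (hb : K' ⊆ closedBall 0 R)
    (h : ∀ x ∈ K, ∃ y ∈ K', ⟪u, x⟫ = s * ⟪v, y⟫) : wid u K ≤ s * wid v K' := by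
  have h1 : sSup ((fun x => ⟪u, x⟫) '' K) ≤ s * sSup ((fun x => ⟪v, x⟫) '' K') := by
    refine csSup_le (hne.image _) ?_
    rintro _ ⟨x, hx, rfl⟩
    obtain ⟨y, hy, e⟩ := h x hx
    show ⟪u, x⟫ ≤ _
    rw [e]
    exact mul_le_mul_of_nonneg_left (wid_le_sSup v K' R hb y hy) hs
  have h2 : s * sInf ((fun x => ⟪v, x⟫) '' K') ≤ sInf ((fun x => ⟪u, x⟫) '' K) := by
    refine le_csInf (hne.image _) ?_
    rintro _ ⟨x, hx, rfl⟩
    obtain ⟨y, hy, e⟩ := h x hx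
    show _ ≤ ⟪u, x⟫
    rw [e]
    exact mul_le_mul_of_nonneg_left (wid_sInf_le v K' R hb y hy) hs
  unfold wid
  rw [mul_sub]
  linarith

theorem wid_nonneg {F : Type*} [NormedAddCommGroup F] [InnerProductSpace ℝ F] (u : F) (K : Set F)
    (hne : K.Nonempty) (R : ℝ) (hb : K ⊆ closedBall 0 R) : 0 ≤ wid u K := by
  obtain ⟨x, hx⟩ := hne
  have h1 := wid_le_sSup u K R hb x hx
  have h2 := wid_sInf_le u K R hb x hx
  unfold wid
  linarith

theorem wid_lip {F : Type*} [NormedAddCommGroup F] [InnerProductSpace ℝ F] (u v : F) (K : Set F)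
    (hne : K.Nonempty) (R : ℝ) (hb : K ⊆ closedBall 0 R) :
    wid u K ≤ wid v K + 2 * R * ‖u - v‖ := by
  have key : ∀ x ∈ K, |⟪u, x⟫ - ⟪v, x⟫| ≤ ‖u - v‖ * R := by
    intro x hx
    rw [← inner_sub_left]
    exact wid_abs_le (u - v) K R hb x hx
  have h1 : sSup ((fun x => ⟪u, x⟫) '' K) ≤ sSup ((fun x => ⟪v, x⟫) '' K) + ‖u - v‖ * R := by
    refine csSup_le (hne.image _) ?_
    rintro _ ⟨x, hx, rfl⟩
    have h3 := (abs_le.mp (key x hx)).2
    have h4 := wid_le_sSup v K R hb x hx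
    show ⟪u, x⟫ ≤ _
    linarith
  have h2 : sInf ((fun x => ⟪v, x⟫) '' K) - ‖u - v‖ * R ≤ sInf ((fun x => ⟪u, x⟫) '' K) := by
    refine le_csInf (hne.image _) ?_
    rintro _ ⟨x, hx, rfl⟩
    have h3 := (abs_le.mp (key x hx)).1
    have h4 := wid_sInf_le v K R hb x hx
    show _ ≤ ⟪u, x⟫
    linarith
  unfold wid
  linarith

theorem wid_le_two_mul {F : Type*} [NormedAddCommGroup F] [InnerProductSpace ℝ F] (u : F) (hu : ‖u‖ = 1)
    (K : Set F) (hne : K.Nonempty) (R : ℝ) (hb : K ⊆ closedBall 0 R) : wid u K ≤ 2 * R := by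
  have h1 : sSup ((fun x => ⟪u, x⟫) '' K) ≤ R := by
    refine csSup_le (hne.image _) ?_
    rintro _ ⟨x, hx, rfl⟩
    have h3 := (abs_le.mp (wid_abs_le u K R hb x hx)).2
    rw [hu, one_mul] at h3
    exact h3
  have h2 : -R ≤ sInf ((fun x => ⟪u, x⟫) '' K) := by
    refine le_csInf (hne.image _) ?_
    rintro _ ⟨x, hx, rfl⟩
    have h3 := (abs_le.mp (wid_abs_le u K R hb x hx)).1
    rw [hu, one_mul] at h3
    exact h3
  unfold wid
  linarith

theorem width_le {F : Type*} [NormedAddCommGroup F] [InnerProductSpace ℝ F] (u : F) (hu : ‖u‖ = 1)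
    (K : Set F) (hne : K.Nonempty) (R : ℝ) (hb : K ⊆ closedBall 0 R) : width K ≤ wid u K := by
  unfold width
  refine ciInf_le (f := fun u : sphere (0 : F) 1 => wid (u : F) K) ?_
    (⟨u, mem_sphere_zero_iff_norm.mpr hu⟩ : sphere (0 : F) 1)
  refine ⟨0, ?_⟩
  rintro _ ⟨w, rfl⟩
  exact wid_nonneg (w : F) K hne R hb

end H949.VW
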