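import Pool.Agent.H949.VW.Defs
import Pool.Agent.H949.VW.Gram
import Pool.Agent.H949.VW.Wid

set_option autoImplicit false

open MeasureTheory ProbabilityTheory Set Metric
open scoped RealInnerProductSpace ENNReal

namespace H949.VW

/-! ### Proofs

* `cst_nonneg`: all elements of the set are `≥ 0` (`wid_nonneg`; `0 ∈ KZ z ⊆ closedBall 0 1`), `Real.sInf_nonneg`.
* `cst_le_two`: the empty configuration (`m = 0`, `n = 1`) is in the set, `wid_le_two_mul`.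
* scaling: for `s ≥ 1` every `x ∈ KZ (s • z)` has `s⁻¹ • x ∈ KZ z`, hence `wid u (KZ (s • z)) ≤ s * wid u (KZ z)`.
* `cst_le`: put `s = (1 - η) ^ (-1/2) ≥ 1`. By `gramS_smul` the family `s • z` has all Gram determinants
  `s ^ (2 |S|) gramS z S ≥ s² (1 - η) = 1` for nonempty `S`, and `1` for `S = ∅`. So `cst ≤ s wid u (KZ z)`, and
  `1 / s = √(1 - η) ≥ 1 - η`.
* `exists_adm`: pick an element `r = wid u (KZ z) < cst + ε / 2` of the set (`exists_lt_of_csInf_lt`), and replace `z`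
  by `(1 + t) • z`: Gram determinants `≥ (1 + t)² > 1` for nonempty `S`, and the width is at most
  `(1 + t) r ≤ r + 2 t` (as `r ≤ 2`).
-/

lemma cst_KZ_sub {F : Type*} [NormedAddCommGroup F] [InnerProductSpace ℝ F] {m : ℕ} (z : Fin m → F) :
    KZ z ⊆ closedBall 0 1 := fun x hx => by
  rw [mem_closedBall, dist_zero_right]
  exact hx.1

lemma cst_KZ_ne {F : Type*} [NormedAddCommGroup F] [InnerProductSpace ℝ F] {m : ℕ} (z : Fin m → F) :
    (KZ z).Nonempty := by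
  refine ⟨0, by simp, fun i => ?_⟩
  rw [inner_zero_left]
  positivity

lemma cst_bdd : BddBelow {r | ∃ (n m : ℕ) (z : Fin m → E n) (u : E n), ‖u‖ = 1 ∧ Adm z ∧ r = wid u (KZ z)} := by
  refine ⟨0, ?_⟩
  rintro r ⟨n, m, z, u, -, -, rfl⟩
  exact wid_nonneg u _ (cst_KZ_ne z) 1 (cst_KZ_sub z)

lemma cst_mem_two : wid (EuclideanSpace.single (0 : Fin 1) (1 : ℝ)) (KZ (fun i : Fin 0 => (i.elim0 : E 1))) ∈
    {r | ∃ (n m : ℕ) (z : Fin m → E n) (u : E n), ‖u‖ = 1 ∧ Adm z ∧ r = wid u (KZ z)} := by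
  refine ⟨1, 0, fun i : Fin 0 => i.elim0, EuclideanSpace.single 0 1, ?_, ?_, rfl⟩
  · simp
  · intro S
    have : S = ∅ := Finset.eq_empty_of_isEmpty S
    rw [this, gramS_empty]

lemma cst_le_of_adm {n m : ℕ} (z : Fin m → E n) (u : E n) (hu : ‖u‖ = 1) (h : Adm z) : cst ≤ wid u (KZ z) :=
  csInf_le cst_bdd ⟨n, m, z, u, hu, h, rfl⟩

lemma cst_scale {F : Type*} [NormedAddCommGroup F] [InnerProductSpace ℝ F] {m : ℕ} (z : Fin m → F) (u : F) (s : ℝ)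
    (hs : 1 ≤ s) : wid u (KZ fun i => s • z i) ≤ s * wid u (KZ z) := by
  have hs0 : 0 < s := by linarith
  refine wid_le_of_map_smul u u (KZ fun i => s • z i) (KZ z) (cst_KZ_ne _) 1 s hs0.le (cst_KZ_sub z) ?_
  intro x hx
  refine ⟨s⁻¹ • x, ⟨?_, fun i => ?_⟩, ?_⟩
  · rw [norm_smul, norm_inv, Real.norm_of_nonneg hs0.le]
    calc s⁻¹ * ‖x‖ ≤ 1 * 1 := mul_le_mul (inv_le_one_of_one_le₀ hs) hx.1 (norm_nonneg _) zero_le_one
      _ = 1 := one_mul 1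
  · have h := hx.2 i
    simp only [inner_smul_right, norm_smul, Real.norm_of_nonneg hs0.le] at h
    rw [real_inner_smul_left]
    have h2 : s * ⟪x, z i⟫ ≤ s * (s * (‖z i‖ ^ 2 / 2)) := by
      calc s * ⟪x, z i⟫ ≤ (s * ‖z i‖) ^ 2 / 2 := h
        _ = s * (s * (‖z i‖ ^ 2 / 2)) := by ring
    have h3 : ⟪x, z i⟫ ≤ s * (‖z i‖ ^ 2 / 2) := le_of_mul_le_mul_left h2 hs0
    calc s⁻¹ * ⟪x, z i⟫ ≤ s⁻¹ * (s * (‖z i‖ ^ 2 / 2)) :=
          mul_le_mul_of_nonneg_left h3 (inv_nonneg.2 hs0.le)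
      _ = ‖z i‖ ^ 2 / 2 := by rw [← mul_assoc, inv_mul_cancel₀ hs0.ne', one_mul]
  · rw [real_inner_smul_right, ← mul_assoc, mul_inv_cancel₀ hs0.ne', one_mul]

theorem cst_nonneg : 0 ≤ cst := by
  refine Real.sInf_nonneg ?_
  rintro r ⟨n, m, z, u, -, -, rfl⟩
  exact wid_nonneg u _ (cst_KZ_ne z) 1 (cst_KZ_sub z)

theorem cst_le_two : cst ≤ 2 := by
  refine le_trans (csInf_le cst_bdd cst_mem_two) ?_
  refine le_trans (wid_le_two_mul _ (by simp) _ (cst_KZ_ne _) 1 (cst_KZ_sub _)) ?_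
  norm_num

theorem cst_le {n m : ℕ} (z : Fin m → E n) (u : E n) (hu : ‖u‖ = 1) (η : ℝ) (h0 : 0 < η) (h1 : η < 1)
    (hg : ∀ S : Finset (Fin m), 1 - η ≤ gramS z S) : (1 - η) * cst ≤ wid u (KZ z) := by
  have hη : 0 < 1 - η := by linarith
  have hq0 : 0 < √(1 - η) := Real.sqrt_pos.2 hη
  have hq1 : √(1 - η) ≤ 1 := by
    rw [Real.sqrt_le_one]
    linarith
  have hq2 : √(1 - η) ^ 2 = 1 - η := Real.sq_sqrt hη.le
  set q := √(1 - η) with hq
  have hs1 : 1 ≤ q⁻¹ := (one_le_inv₀ hq0).2 hq1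
  have hadm : Adm fun i => q⁻¹ • z i := by
    intro S
    rw [gramS_smul]
    rcases S.eq_empty_or_nonempty with rfl | hS
    · simp [gramS_empty]
    · have hc : 1 ≤ S.card := hS.card_pos
      calc (1 : ℝ) = q⁻¹ ^ 2 * (1 - η) := by
            rw [← hq2, inv_pow, inv_mul_cancel₀ (pow_pos hq0 2).ne']
        _ ≤ q⁻¹ ^ (2 * S.card) * gramS z S :=
            mul_le_mul (pow_le_pow_right₀ hs1 (by omega)) (hg S) hη.le (by positivity)
  have h2 := cst_le_of_adm (fun i => q⁻¹ • z i) u hu hadm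
  have h3 := cst_scale z u q⁻¹ hs1
  have hw : 0 ≤ wid u (KZ z) := wid_nonneg u _ (cst_KZ_ne z) 1 (cst_KZ_sub z)
  calc (1 - η) * cst ≤ (1 - η) * (q⁻¹ * wid u (KZ z)) := mul_le_mul_of_nonneg_left (h2.trans h3) hη.le
    _ = q * wid u (KZ z) := by
        rw [← hq2, ← mul_assoc]
        congr 1
        field_simp
    _ ≤ 1 * wid u (KZ z) := mul_le_mul_of_nonneg_right hq1 hw
    _ = wid u (KZ z) := one_mul _

theorem exists_adm (ε : ℝ) (hε : 0 < ε) : ∃ (n m : ℕ) (z : Fin m → E n) (u : E n),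
    ‖u‖ = 1 ∧ (∀ S : Finset (Fin m), S.Nonempty → 1 < gramS z S) ∧ wid u (KZ z) ≤ cst + ε := by
  have hlt : sInf {r | ∃ (n m : ℕ) (z : Fin m → E n) (u : E n), ‖u‖ = 1 ∧ Adm z ∧ r = wid u (KZ z)} <
      cst + ε / 2 := by
    have : sInf {r | ∃ (n m : ℕ) (z : Fin m → E n) (u : E n), ‖u‖ = 1 ∧ Adm z ∧ r = wid u (KZ z)} = cst := rfl
    rw [this]
    linarith
  obtain ⟨r, ⟨n, m, z, u, hu, hadm, rfl⟩, hr⟩ := exists_lt_of_csInf_lt ⟨_, cst_mem_two⟩ hlt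
  have hr2 : wid u (KZ z) ≤ 2 := by
    have := wid_le_two_mul u hu _ (cst_KZ_ne z) 1 (cst_KZ_sub z)
    linarith
  refine ⟨n, m, fun i => (1 + ε / 4) • z i, u, hu, fun S hS => ?_, ?_⟩
  · rw [gramS_smul]
    have hc : 1 ≤ S.card := hS.card_pos
    have hs : 1 < 1 + ε / 4 := by linarith
    have h1 : 1 < (1 + ε / 4) ^ (2 * S.card) := one_lt_pow₀ hs (by omega)
    have h2 : 1 ≤ gramS z S := hadm S
    calc (1 : ℝ) < (1 + ε / 4) ^ (2 * S.card) * 1 := by rwa [mul_one]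
      _ ≤ (1 + ε / 4) ^ (2 * S.card) * gramS z S := mul_le_mul_of_nonneg_left h2 (by positivity)
  · have h3 := cst_scale z u (1 + ε / 4) (by linarith)
    have h4 : (1 + ε / 4) * wid u (KZ z) = wid u (KZ z) + ε / 4 * wid u (KZ z) := by ring
    have h5 : ε / 4 * wid u (KZ z) ≤ ε / 4 * 2 := mul_le_mul_of_nonneg_left hr2 (by positivity)
    linarith

end H949.VW
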