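import Mathlib

/-!
# Width of the typical Poisson-Voronoi cell in high dimension: definitions
-/

set_option autoImplicit false

open MeasureTheory ProbabilityTheory Set Metric
open scoped RealInnerProductSpace ENNReal

namespace H949.VW

/-- Euclidean space of dimension `d`. -/
abbrev E (d : ℕ) := EuclideanSpace ℝ (Fin d)

/-- The volume `κ_d` of the unit ball of `ℝ^d`. -/
noncomputable def kap (d : ℕ) : ℝ := (volume (ball (0 : E d) 1)).toReal

/-- `Z` is (the point set of) a homogeneous Poisson point process on `ℝ^d` of intensity `lam`. -/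
structure IsPoisson {Ω : Type*} [MeasurableSpace Ω] (P : Measure Ω) {d : ℕ} (Z : Ω → Set (E d))
    (lam : ℝ) : Prop where
  meas : ∀ A : Set (E d), MeasurableSet A → Measurable fun ω => (Z ω ∩ A).encard
  law : ∀ A : Set (E d), MeasurableSet A → volume A ≠ ⊤ → ∀ k : ℕ,
    P {ω | (Z ω ∩ A).encard = k} = ENNReal.ofReal (Real.exp (-(lam * (volume A).toReal)) *
      (lam * (volume A).toReal) ^ k / k.factorial)
  indep : ∀ (n : ℕ) (A : Fin n → Set (E d)), (∀ i, MeasurableSet (A i)) →
    Pairwise (Function.onFun Disjoint A) → iIndepFun (fun i ω => (Z ω ∩ A i).encard) P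

/-- The Voronoi cell of the origin in the tessellation generated by `Z ∪ {0}`. -/
def cell {d : ℕ} (Z : Set (E d)) : Set (E d) := {x | ∀ z ∈ Z, ‖x‖ ≤ ‖x - z‖}

section inner

variable {F : Type*} [NormedAddCommGroup F] [InnerProductSpace ℝ F]

/-- The width of `K` in direction `u`. -/
noncomputable def wid (u : F) (K : Set F) : ℝ :=
  sSup ((fun x => ⟪u, x⟫) '' K) - sInf ((fun x => ⟪u, x⟫) '' K)

/-- The width of `K`. -/
noncomputable def width (K : Set F) : ℝ := ⨅ u : sphere (0 : F) 1, wid (u : F) K

/-- The points of the closed unit ball which are at least as close to `0` as to each `z i`. -/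
def KZ {m : ℕ} (z : Fin m → F) : Set F := {x | ‖x‖ ≤ 1 ∧ ∀ i, ⟪x, z i⟫ ≤ ‖z i‖ ^ 2 / 2}

/-- The Gram determinant of the vectors `z i`, `i ∈ S`. -/
noncomputable def gramS {m : ℕ} (z : Fin m → F) (S : Finset (Fin m)) : ℝ :=
  (Matrix.of fun i j : S => ⟪z i, z j⟫).det

/-- All Gram determinants of subfamilies are at least `1`. -/
def Adm {m : ℕ} (z : Fin m → F) : Prop := ∀ S : Finset (Fin m), 1 ≤ gramS z S

end inner

/-- The limit constant: the infimum of the widths of the bodies `KZ z`, in all directions `u`, over all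
finite configurations `z` in Euclidean spaces all of whose Gram determinants are at least `1`. -/
noncomputable def cst : ℝ :=
  sInf {r | ∃ (n m : ℕ) (z : Fin m → E n) (u : E n), ‖u‖ = 1 ∧ Adm z ∧ r = wid u (KZ z)}

/-- A partition of the ball of radius `R` into finitely many measurable sets of radius `≤ h`. -/
structure Cells (d : ℕ) (R h : ℝ) where
  N : ℕ
  Q : Fin N → Set (E d)
  c : Fin N → E d
  meas : ∀ i, MeasurableSet (Q i)
  disj : Pairwise (Function.onFun Disjoint Q)
  cover : closedBall (0 : E d) R ⊆ ⋃ i, Q i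
  inR : ∀ i, Q i ⊆ closedBall (0 : E d) R
  sub : ∀ i, Q i ⊆ closedBall (c i) h
  cR : ∀ i, ‖c i‖ ≤ R

/-- The expected number of points in the cell `i` for the intensity `1 / κ_d`. -/
noncomputable def Cells.v {d : ℕ} {R h : ℝ} (C : Cells d R h) (i : Fin C.N) : ℝ :=
  (volume (C.Q i)).toReal / kap d

end H949.VW
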