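import Pool.Agent.H949.VW.Defs
import Pool.Agent.H949.VW.Cells

set_option autoImplicit false

open MeasureTheory ProbabilityTheory Set Metric
open scoped RealInnerProductSpace ENNReal

namespace H949.VW

/-! ### Auxiliary lemmas -/

/-- the second moment is invariant under linear isometries -/
theorem slab_inv {d : ℕ} (ρ : ℝ) (T : E d ≃ₗᵢ[ℝ] E d) (w : E d) :
    ∫ y in closedBall (0 : E d) ρ, ⟪T w, y⟫ ^ 2 = ∫ y in closedBall (0 : E d) ρ, ⟪w, y⟫ ^ 2 := by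
  have h := T.measurePreserving.setIntegral_preimage_emb T.toHomeomorph.measurableEmbedding
    (fun y => ⟪T w, y⟫ ^ 2) (closedBall (0 : E d) ρ)
  have e : T ⁻¹' closedBall (0 : E d) ρ = closedBall (0 : E d) ρ := by
    ext y
    simp
  rw [e] at h
  rw [← h]
  simp only [T.inner_map_map]

theorem slab_eq {d : ℕ} (ρ : ℝ) (w w' : E d) (h : ‖w‖ = ‖w'‖) :
    ∫ y in closedBall (0 : E d) ρ, ⟪w, y⟫ ^ 2 = ∫ y in closedBall (0 : E d) ρ, ⟪w', y⟫ ^ 2 := by
  have h1 := slab_inv ρ ((ℝ ∙ (w - w'))ᗮ).reflection w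
  rw [Submodule.reflection_sub h] at h1
  exact h1.symm

theorem slab_int {d : ℕ} (ρ : ℝ) (w : E d) :
    IntegrableOn (fun y : E d => ⟪w, y⟫ ^ 2) (closedBall (0 : E d) ρ) := by
  refine ContinuousOn.integrableOn_compact (isCompact_closedBall _ _) ?_
  fun_prop

theorem slab_moment {d : ℕ} (v : E d) (ρ : ℝ) (hρ : 0 < ρ) :
    (d : ℝ) * ∫ y in closedBall (0 : E d) ρ, ⟪v, y⟫ ^ 2 ≤
      ‖v‖ ^ 2 * ρ ^ 2 * (kap d * ρ ^ d) := by
  have h1 : ∀ i : Fin d, ∫ y in closedBall (0 : E d) ρ, ⟪v, y⟫ ^ 2 =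
      ∫ y in closedBall (0 : E d) ρ, ⟪(EuclideanSpace.single i ‖v‖ : E d), y⟫ ^ 2 := by
    intro i
    exact slab_eq ρ v _ (by simp)
  have h2 : (d : ℝ) * ∫ y in closedBall (0 : E d) ρ, ⟪v, y⟫ ^ 2 =
      ∑ i : Fin d, ∫ y in closedBall (0 : E d) ρ, ⟪(EuclideanSpace.single i ‖v‖ : E d), y⟫ ^ 2 := by
    rw [Finset.sum_congr rfl fun i _ => (h1 i).symm]
    simp
  rw [h2, ← integral_finsetSum _ (fun i _ => slab_int ρ _)]
  have h3 : ∀ y : E d, ∑ i : Fin d, ⟪(EuclideanSpace.single i ‖v‖ : E d), y⟫ ^ 2 =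
      ‖v‖ ^ 2 * ‖y‖ ^ 2 := by
    intro y
    rw [EuclideanSpace.norm_sq_eq y, Finset.mul_sum]
    refine Finset.sum_congr rfl fun i _ => ?_
    rw [EuclideanSpace.inner_single_left]
    simp
    ring
  simp only [h3]
  have h4 : ∫ y in closedBall (0 : E d) ρ, ‖v‖ ^ 2 * ‖y‖ ^ 2 ≤
      ∫ _y in closedBall (0 : E d) ρ, ‖v‖ ^ 2 * ρ ^ 2 := by
    refine setIntegral_mono_on ?_ ?_ measurableSet_closedBall ?_
    · refine ContinuousOn.integrableOn_compact (isCompact_closedBall _ _) ?_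
      fun_prop
    · refine ContinuousOn.integrableOn_compact (isCompact_closedBall _ _) ?_
      fun_prop
    · intro y hy
      rw [mem_closedBall_zero_iff] at hy
      have := norm_nonneg y
      gcongr
  refine h4.trans (le_of_eq ?_)
  rw [setIntegral_const, smul_eq_mul, ← vol_closedBall (0 : E d) ρ hρ]
  simp only [Measure.real]
  ring

theorem ball_slab {d : ℕ} (hd : 0 < d) (v : E d) (ρ τ : ℝ) (hρ : 0 < ρ) (hτ : 0 < τ) :
    (volume {y ∈ closedBall (0 : E d) ρ | τ ≤ |⟪v, y⟫|}).toReal ≤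
      ‖v‖ ^ 2 * ρ ^ 2 / (d * τ ^ 2) * (kap d * ρ ^ d) := by
  have h1 := mul_meas_ge_le_integral_of_nonneg (μ := volume.restrict (closedBall (0 : E d) ρ))
    (f := fun y : E d => ⟪v, y⟫ ^ 2) (Filter.Eventually.of_forall fun y => sq_nonneg _)
    (slab_int ρ v) (τ ^ 2)
  have h2 : (volume.restrict (closedBall (0 : E d) ρ)).real {y : E d | τ ^ 2 ≤ ⟪v, y⟫ ^ 2} =
      (volume {y ∈ closedBall (0 : E d) ρ | τ ≤ |⟪v, y⟫|}).toReal := by
    rw [Measure.real, Measure.restrict_apply' measurableSet_closedBall]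
    congr 2
    ext y
    simp only [mem_inter_iff, mem_ofPred_eq]
    rw [and_comm]
    refine and_congr_right fun _ => ?_
    rw [← sq_abs ⟪v, y⟫]
    exact pow_le_pow_iff_left₀ hτ.le (abs_nonneg _) two_ne_zero
  rw [h2] at h1
  have h3 := slab_moment v ρ hρ
  have hd' : (0 : ℝ) < d := by exact_mod_cast hd
  rw [div_mul_eq_mul_div, le_div_iff₀ (by positivity)]
  calc (volume {y ∈ closedBall (0 : E d) ρ | τ ≤ |⟪v, y⟫|}).toReal * (d * τ ^ 2)
      = d * (τ ^ 2 * (volume {y ∈ closedBall (0 : E d) ρ | τ ≤ |⟪v, y⟫|}).toReal) := by ring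
    _ ≤ d * ∫ y in closedBall (0 : E d) ρ, ⟪v, y⟫ ^ 2 := mul_le_mul_of_nonneg_left h1 hd'.le
    _ ≤ _ := h3

end H949.VW
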