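import Pool.Agent.H949.VW.Defs
import Pool.Agent.H949.VW.Cells
import Pool.Agent.H949.VW.Slab

set_option autoImplicit false

open MeasureTheory ProbabilityTheory Set Metric
open scoped RealInnerProductSpace ENNReal

namespace H949.VW

/-! ### Auxiliary lemmas -/

theorem good_vol_ne_top {d : ℕ} (v : E d) (ρ τ : ℝ) :
    volume {y ∈ closedBall (0 : E d) ρ | τ ≤ |⟪v, y⟫|} ≠ ⊤ :=
  measure_ne_top_of_subset (fun _ hy => hy.1) (measure_closedBall_lt_top (μ := volume)).ne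

theorem good_translate {d k : ℕ} (ρ τ : ℝ) (v : Fin k → E d) (a : E d) :
    volume {x : E d | (∀ i, |⟪v i, x - a⟫| ≤ τ) ∧ |‖x - a‖ - ρ| ≤ τ} =
      volume {y : E d | (∀ i, |⟪v i, y⟫| ≤ τ) ∧ |‖y‖ - ρ| ≤ τ} := by
  have h := measure_preimage_add_right (volume : Measure (E d)) (-a)
    {y : E d | (∀ i, |⟪v i, y⟫| ≤ τ) ∧ |‖y‖ - ρ| ≤ τ}
  rw [← h]
  simp only [preimage_ofPred_eq, ← sub_eq_add_neg]

theorem good_cover {d k : ℕ} (ρ τ τ' : ℝ) (hττ : τ' ≤ τ) (hτ : 0 < τ) (v : Fin k → E d) :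
    closedBall (0 : E d) ρ ⊆ {y : E d | (∀ i, |⟪v i, y⟫| ≤ τ) ∧ |‖y‖ - ρ| ≤ τ} ∪
      ((⋃ i, {y ∈ closedBall (0 : E d) ρ | τ ≤ |⟪v i, y⟫|}) ∪ closedBall (0 : E d) (ρ - τ')) := by
  intro y hy
  have hy' : ‖y‖ ≤ ρ := by simpa using hy
  by_cases h1 : ∀ i, |⟪v i, y⟫| ≤ τ
  · by_cases h2 : |‖y‖ - ρ| ≤ τ
    · exact Or.inl ⟨h1, h2⟩
    · right; right
      rw [mem_closedBall, dist_zero_right]
      rw [abs_le] at h2
      by_contra h3
      push Not at h3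
      exact h2 ⟨by linarith, by linarith⟩
  · push Not at h1
    obtain ⟨i, hi⟩ := h1
    right; left
    exact mem_iUnion.mpr ⟨i, hy, hi.le⟩

theorem good_finite {d k : ℕ} (ρ τ : ℝ) (v : Fin k → E d) :
    volume {y : E d | (∀ i, |⟪v i, y⟫| ≤ τ) ∧ |‖y‖ - ρ| ≤ τ} ≠ ⊤ := by
  suffices hsub : {y : E d | (∀ i, |⟪v i, y⟫| ≤ τ) ∧ |‖y‖ - ρ| ≤ τ} ⊆ closedBall (0 : E d) (ρ + τ) from
    measure_ne_top_of_subset hsub (measure_closedBall_lt_top (μ := volume)).ne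
  intro y hy
  rw [mem_closedBall, dist_zero_right]
  have := (abs_le.mp hy.2).2
  linarith

/-! ### Proofs

By translation take `a = 0`. The set contains `closedBall 0 ρ` minus the slabs `{y ∈ closedBall 0 ρ | τ ≤ |⟪v i, y⟫|}`
(`i < k`) minus the ball `closedBall 0 (ρ - τ')` with `τ' = min τ (ρ / 2)`. By `ball_slab` its volume is at least
`kap d ρ^d (1 - K R² ρ² / (d τ²) - (1 - τ' / ρ)^d) ≥ kap d ρ^d / 2` for `d` large (uniformly in `k ≤ K`, `v`). The set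
itself has finite volume, it lies in `closedBall a (ρ + τ)`.
-/

theorem ball_good (K : ℕ) (R ρ τ : ℝ) (hR : 0 < R) (hρ : 0 < ρ) (hτ : 0 < τ) :
    ∃ d0 : ℕ, ∀ d ≥ d0, ∀ k ≤ K, ∀ v : Fin k → E d, (∀ i, ‖v i‖ ≤ R) → ∀ a : E d,
      kap d * ρ ^ d / 2 ≤ (volume {x : E d | (∀ i, |⟪v i, x - a⟫| ≤ τ) ∧ |‖x - a‖ - ρ| ≤ τ}).toReal := by
  set τ' : ℝ := min τ (ρ / 2) with hτ'
  have hτ'0 : 0 < τ' := lt_min hτ (by positivity)
  have hτ'1 : τ' ≤ ρ / 2 := min_le_right _ _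
  have hq0 : 0 ≤ 1 - τ' / ρ := by
    have : τ' / ρ ≤ 1 := by rw [div_le_one hρ]; linarith
    linarith
  have hq1 : 1 - τ' / ρ < 1 := by
    have : 0 < τ' / ρ := by positivity
    linarith
  obtain ⟨n, hn⟩ := exists_pow_lt_of_lt_one (by norm_num : (0 : ℝ) < 1 / 4) hq1
  obtain ⟨m, hm⟩ := exists_nat_gt (4 * (K * (R ^ 2 * ρ ^ 2 / τ ^ 2)))
  refine ⟨max (max n m) 1, ?_⟩
  intro d hd k hk v hv a
  have hd1 : 0 < d := by have := le_trans (le_max_right _ _) hd; omega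
  have hdn : n ≤ d := le_trans (le_trans (le_max_left _ _) (le_max_left _ _)) hd
  have hdm : m ≤ d := le_trans (le_trans (le_max_right _ _) (le_max_left _ _)) hd
  have hd1' : (0 : ℝ) < d := by exact_mod_cast hd1
  rw [good_translate]
  set S : Set (E d) := {y : E d | (∀ i, |⟪v i, y⟫| ≤ τ) ∧ |‖y‖ - ρ| ≤ τ} with hS
  set T : Fin k → Set (E d) := fun i => {y ∈ closedBall (0 : E d) ρ | τ ≤ |⟪v i, y⟫|} with hT
  have hcov : closedBall (0 : E d) ρ ⊆ S ∪ ((⋃ i, T i) ∪ closedBall (0 : E d) (ρ - τ')) :=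
    good_cover ρ τ τ' (min_le_left _ _) hτ v
  have hSf : volume S ≠ ⊤ := good_finite ρ τ v
  have hTf : ∀ i, volume (T i) ≠ ⊤ := fun i => good_vol_ne_top (v i) ρ τ
  have hBf : volume (closedBall (0 : E d) (ρ - τ')) ≠ ⊤ :=
    (measure_closedBall_lt_top (μ := volume)).ne
  have hle : volume (closedBall (0 : E d) ρ) ≤
      volume S + ((∑ i, volume (T i)) + volume (closedBall (0 : E d) (ρ - τ'))) := by
    refine (measure_mono hcov).trans ((measure_union_le _ _).trans ?_)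
    gcongr
    refine (measure_union_le _ _).trans ?_
    gcongr
    exact measure_iUnion_fintype_le _ _
  have hsumf : (∑ i, volume (T i)) ≠ ⊤ := ENNReal.sum_ne_top.mpr fun i _ => hTf i
  have hle' : (volume (closedBall (0 : E d) ρ)).toReal ≤
      (volume S).toReal + ((∑ i, (volume (T i)).toReal) +
        (volume (closedBall (0 : E d) (ρ - τ'))).toReal) := by
    have h1 := ENNReal.toReal_mono (ENNReal.add_ne_top.mpr
      ⟨hSf, ENNReal.add_ne_top.mpr ⟨hsumf, hBf⟩⟩) hle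
    rwa [ENNReal.toReal_add hSf (ENNReal.add_ne_top.mpr ⟨hsumf, hBf⟩),
      ENNReal.toReal_add hsumf hBf, ENNReal.toReal_sum fun i _ => hTf i] at h1
  rw [vol_closedBall 0 ρ hρ, vol_closedBall 0 (ρ - τ') (by linarith)] at hle'
  have hkap := kap_pos d
  have hρd : 0 < ρ ^ d := by positivity
  have hX : 0 < kap d * ρ ^ d := by positivity
  have hTi : ∀ i, (volume (T i)).toReal ≤ R ^ 2 * ρ ^ 2 / (d * τ ^ 2) * (kap d * ρ ^ d) := by
    intro i
    refine (ball_slab hd1 (v i) ρ τ hρ hτ).trans ?_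
    have := hv i
    gcongr
  have hsum : (∑ i, (volume (T i)).toReal) ≤ 1 / 4 * (kap d * ρ ^ d) := by
    calc (∑ i, (volume (T i)).toReal)
        ≤ ∑ _i : Fin k, R ^ 2 * ρ ^ 2 / (d * τ ^ 2) * (kap d * ρ ^ d) :=
          Finset.sum_le_sum fun i _ => hTi i
      _ = k * (R ^ 2 * ρ ^ 2 / (d * τ ^ 2) * (kap d * ρ ^ d)) := by simp
      _ ≤ K * (R ^ 2 * ρ ^ 2 / (d * τ ^ 2) * (kap d * ρ ^ d)) := by
          gcongr
      _ = (K * (R ^ 2 * ρ ^ 2 / τ ^ 2)) / d * (kap d * ρ ^ d) := by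
          field_simp
      _ ≤ 1 / 4 * (kap d * ρ ^ d) := by
          have h2 : (m : ℝ) ≤ d := by exact_mod_cast hdm
          have h3 : (K * (R ^ 2 * ρ ^ 2 / τ ^ 2)) / d ≤ 1 / 4 := by
            rw [div_le_iff₀ hd1']
            linarith
          exact mul_le_mul_of_nonneg_right h3 hX.le
  have hball : kap d * (ρ - τ') ^ d ≤ 1 / 4 * (kap d * ρ ^ d) := by
    have h1 : ρ - τ' = (1 - τ' / ρ) * ρ := by field_simp
    have h2 : (1 - τ' / ρ) ^ d ≤ 1 / 4 :=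
      (pow_le_pow_of_le_one hq0 hq1.le hdn).trans hn.le
    rw [h1, mul_pow]
    calc kap d * ((1 - τ' / ρ) ^ d * ρ ^ d) = (1 - τ' / ρ) ^ d * (kap d * ρ ^ d) := by ring
      _ ≤ 1 / 4 * (kap d * ρ ^ d) := mul_le_mul_of_nonneg_right h2 hX.le
  linarith



end H949.VW
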