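import Pool.Agent.H949.VW.Defs
import Pool.Agent.H949.VW.Cells
import Pool.Agent.H949.VW.Good
import Pool.Agent.H949.VW.Gram
import Pool.Agent.H949.VW.Seq

set_option autoImplicit false

open MeasureTheory ProbabilityTheory Set Metric
open scoped RealInnerProductSpace ENNReal

namespace H949.VW

/-! ### Proofs

Let `S_j = {i | i < j}`, `ρ_j = infDist (z j) (span (z '' S_j)) > 0`; `∏ ρ_j = √(gramS z univ)` (`gramS_univ` with
`R = ∅`). `exists_coeff`: `α^j` supported in `S_j`, `w_j = z j - ∑ α^j_i z i ⊥ z i (i < j)`, `‖w_j‖ = ρ_j`.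
Tolerances: with `A ≥ 1` a constant (depending on `z` only) choose `0 < δ_0 ≤ δ_1 ≤ … ≤ δ_m ≤ min δ 1` and `τ > 0` with
`A (δ_j + τ) ≤ δ_{j+1}` (e.g. `δ_j = (2A)^j τ`, `τ` small). Let `f j q = 1[conditions_j] C.v (q j)`, where conditions_j says
`|⟪c (q i), c (q j)⟫ - ⟪z i, z j⟫| ≤ δ_{j+1}` for all `i ≤ j`. If `f i q > 0` for all `i < j`, the Gram matrix of
`c (q i)`, `i < j`, is `δ_j`-close to that of `z`. Put `a = ∑_{i<j} α^j_i c (q i)` and let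
`G = {x | ∀ i < j, |⟪c (q i), x - a⟫| ≤ τ, |‖x - a‖ - ρ_j| ≤ τ}`. For `x ∈ G`: `⟪x, c (q i)⟫ = ⟪a, c (q i)⟫ + O(τ) =
∑ α^j_k ⟪z k, z i⟫ + O(A' δ_j + τ) = ⟪z j, z i⟫ + O(A' δ_j + τ)` (as `w_j ⊥ z i`), and `‖x‖² = ‖a‖² + 2 ⟪a, x - a⟫ + ‖x - a‖² =
‖∑ α z‖² + ρ_j² + O(…) = ‖z j‖² + O(A'' (δ_j + τ))`. In particular `‖x‖ ≤ ‖z j‖ + 1 ≤ rad`, so `G ⊆ closedBall 0 rad`. If
`x ∈ G ∩ Q b` then `‖x - c b‖ ≤ h` with `h ≤ τ / (rad + 1)` small, so `c b` satisfies conditions_j. By `le_sum`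
and `ball_good` (`K = m`, `R = rad`), `∑_b f j (update q j b) ≥ vol G / kap d ≥ ρ_j^d / 2` for `d ≥ d0`. `le_seq_sum` gives
`∏ ρ_j^d / 2 = (√(gramS z univ))^d / 2^m`, and all `q` with `∏ f j q > 0` satisfy the Gram condition with `δ`
(symmetry for `i > j`). `Fin C.N` is nonempty since `0 ∈ closedBall 0 rad` is covered.
-/


theorem en_norm_sq {d : ℕ} (x a : E d) : ‖x‖ ^ 2 = ‖a‖ ^ 2 + 2 * ⟪a, x - a⟫ + ‖x - a‖ ^ 2 := by
  have h := norm_add_sq_real a (x - a)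
  rw [add_sub_cancel] at h
  linarith

theorem en_comb_inner {F : Type*} [NormedAddCommGroup F] [InnerProductSpace ℝ F] {m : ℕ}
    (c : Fin m → F) (α : Fin m → ℝ) (y : F) :
    ⟪∑ i, α i • c i, y⟫ = ∑ i, α i * ⟪c i, y⟫ := by
  rw [sum_inner]
  exact Finset.sum_congr rfl fun i _ => real_inner_smul_left _ _ _

theorem en_sum_abs {m : ℕ} (α r : Fin m → ℝ) (ε B : ℝ) (hB : ∑ i, |α i| ≤ B) (hε : 0 ≤ ε)
    (hr : ∀ i, α i ≠ 0 → |r i| ≤ ε) : |∑ i, α i * r i| ≤ B * ε := by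
  refine (Finset.abs_sum_le_sum_abs _ _).trans ?_
  have h1 : ∑ i, |α i * r i| ≤ ∑ i, |α i| * ε := by
    refine Finset.sum_le_sum fun i _ => ?_
    rw [abs_mul]
    by_cases h : α i = 0
    · simp [h]
    · exact mul_le_mul_of_nonneg_left (hr i h) (abs_nonneg _)
  rw [← Finset.sum_mul] at h1
  exact h1.trans (mul_le_mul_of_nonneg_right hB hε)

/-- The geometric step: a point of `G` lies in the ball, and the centre of its cell satisfies the next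
Gram conditions. -/
theorem en_geom {n m d : ℕ} (z : Fin m → E n) (rad : ℝ) (hrad : ∀ i, ‖z i‖ + 1 ≤ rad)
    (j : Fin m) (α : Fin m → ℝ) (hα : ∀ i, ¬ i < j → α i = 0)
    (hw : ∀ i < j, ⟪z j - ∑ i, α i • z i, z i⟫ = 0) (ρ : ℝ) (hρ : ‖z j - ∑ i, α i • z i‖ = ρ)
    (B : ℝ) (hB1 : 1 ≤ B) (hBr : rad ≤ B) (hBρ : ρ ≤ B) (hBα : ∑ i, |α i| ≤ B)
    (e τ : ℝ) (he : 0 < e) (hτ : 0 < τ) (hτ1 : τ ≤ 1) (hsm : 7 * B ^ 2 * (e + τ) ≤ 1)
    (c : Fin m → E d) (hc : ∀ i < j, ‖c i‖ ≤ rad)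
    (hG : ∀ i < j, ∀ k < j, |⟪c i, c k⟫ - ⟪z i, z k⟫| ≤ e)
    (x : E d) (hx1 : ∀ i < j, |⟪c i, x - ∑ i, α i • c i⟫| ≤ τ)
    (hx2 : |‖x - ∑ i, α i • c i‖ - ρ| ≤ τ) :
    ‖x‖ ≤ rad ∧ ∀ y : E d, ‖y‖ ≤ rad → ‖x - y‖ ≤ τ →
      (∀ i < j, |⟪c i, y⟫ - ⟪z i, z j⟫| ≤ 7 * B ^ 2 * (e + τ)) ∧
      |⟪y, y⟫ - ⟪z j, z j⟫| ≤ 7 * B ^ 2 * (e + τ) := by
  have hρ0 : 0 ≤ ρ := hρ ▸ norm_nonneg _
  have hsupp : ∀ i, α i ≠ 0 → i < j := fun i hi => by
    by_contra h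
    exact hi (hα i h)
  obtain ⟨a, ha⟩ : ∃ a, a = ∑ i, α i • c i := ⟨_, rfl⟩
  obtain ⟨p, hp⟩ : ∃ p, p = ∑ i, α i • z i := ⟨_, rfl⟩
  rw [← ha] at hx1 hx2
  rw [← hp] at hw hρ
  have hBB : B ≤ B ^ 2 := by nlinarith
  have hB0 : 0 < B := by linarith
  -- inner products with the old vectors
  have h1 : ∀ i < j, |⟪c i, x⟫ - ⟪z i, z j⟫| ≤ B * e + τ := by
    intro i hi
    have e1 : ⟪c i, a⟫ = ∑ k, α k * ⟪c k, c i⟫ := by
      rw [real_inner_comm, ha, en_comb_inner]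
    have e2 : ⟪z i, z j⟫ = ∑ k, α k * ⟪z k, z i⟫ := by
      have h := hw i hi
      rw [inner_sub_left, sub_eq_zero] at h
      rw [real_inner_comm, h, hp, en_comb_inner]
    have e3 : ⟪c i, x⟫ - ⟪z i, z j⟫ = ∑ k, α k * (⟪c k, c i⟫ - ⟪z k, z i⟫) + ⟪c i, x - a⟫ := by
      rw [inner_sub_right, e1, e2]
      simp only [mul_sub, Finset.sum_sub_distrib]
      ring
    rw [e3]
    refine (abs_add_le _ _).trans (add_le_add ?_ (hx1 i hi))
    exact en_sum_abs α _ e B hBα he.le fun k hk => hG k (hsupp k hk) i hi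
  -- the norm
  have h2 : |‖x‖ ^ 2 - ‖z j‖ ^ 2| ≤ B ^ 2 * e + 5 * B * τ := by
    have e1 := en_norm_sq x a
    have e2 := en_norm_sq (z j) p
    have e3 : ⟪p, z j - p⟫ = 0 := by
      rw [hp, en_comb_inner]
      refine Finset.sum_eq_zero fun i _ => ?_
      by_cases h : α i = 0
      · simp [h]
      · rw [← hp, real_inner_comm, hw i (hsupp i h), mul_zero]
    rw [e3, hρ] at e2
    have e4 : |‖a‖ ^ 2 - ‖p‖ ^ 2| ≤ B ^ 2 * e := by
      have h := norm_comb z c α e fun i k hi hk => hG i (hsupp i hi) k (hsupp k hk)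
      rw [← ha, ← hp] at h
      refine h.trans ?_
      have h0 : 0 ≤ ∑ i, |α i| := Finset.sum_nonneg fun i _ => abs_nonneg _
      have h3 : (∑ i, |α i|) ^ 2 ≤ B ^ 2 := pow_le_pow_left₀ h0 hBα 2
      rw [mul_comm]
      exact mul_le_mul_of_nonneg_right h3 he.le
    have e5 : |⟪a, x - a⟫| ≤ B * τ := by
      rw [ha, en_comb_inner, ← ha]
      exact en_sum_abs α _ τ B hBα hτ.le fun k hk => hx1 k (hsupp k hk)
    have e6 : |‖x - a‖ ^ 2 - ρ ^ 2| ≤ 3 * B * τ := by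
      have h3 : ‖x - a‖ ^ 2 - ρ ^ 2 = (‖x - a‖ - ρ) * (‖x - a‖ + ρ) := by ring
      rw [h3, abs_mul]
      have h4 : |‖x - a‖ + ρ| ≤ 3 * B := by
        rw [abs_of_nonneg (by positivity)]
        have := (abs_le.mp hx2).2
        linarith
      calc |‖x - a‖ - ρ| * |‖x - a‖ + ρ| ≤ τ * (3 * B) :=
            mul_le_mul hx2 h4 (abs_nonneg _) hτ.le
        _ = 3 * B * τ := by ring
    rw [e1, e2]
    rw [abs_le] at e4 e5 e6 ⊢
    constructor <;> linarith [e4.1, e4.2, e5.1, e5.2, e6.1, e6.2]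
  have hBτ : B * τ ≤ B ^ 2 * τ := mul_le_mul_of_nonneg_right hBB hτ.le
  have hBe : B * e ≤ B ^ 2 * e := mul_le_mul_of_nonneg_right hBB he.le
  have hB2τ : 0 < B ^ 2 * τ := by positivity
  have hB2e : 0 < B ^ 2 * e := by positivity
  have hττ : τ ≤ B ^ 2 * τ := by
    have : 1 * τ ≤ B * τ := mul_le_mul_of_nonneg_right hB1 hτ.le
    linarith
  have hx : ‖x‖ ≤ rad := by
    have h3 := (abs_le.mp h2).2
    have h4 : ‖x‖ ^ 2 ≤ (‖z j‖ + 1) ^ 2 := by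
      have := norm_nonneg (z j)
      nlinarith
    have h5 := abs_le_of_sq_le_sq h4 (by positivity)
    exact ((abs_le.mp h5).2).trans (hrad j)
  refine ⟨hx, fun y hy hxy => ⟨fun i hi => ?_, ?_⟩⟩
  · have e1 : ⟪c i, y⟫ - ⟪z i, z j⟫ = (⟪c i, x⟫ - ⟪z i, z j⟫) - ⟪c i, x - y⟫ := by
      rw [inner_sub_right]
      ring
    rw [e1]
    have e2 : |⟪c i, x - y⟫| ≤ B * τ :=
      (abs_real_inner_le_norm _ _).trans
        (mul_le_mul ((hc i hi).trans hBr) hxy (norm_nonneg _) hB0.le)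
    have e3 := h1 i hi
    rw [abs_le] at e2 e3 ⊢
    constructor <;> linarith [e2.1, e2.2, e3.1, e3.2]
  · rw [real_inner_self_eq_norm_sq, real_inner_self_eq_norm_sq]
    have e1 : |‖y‖ ^ 2 - ‖x‖ ^ 2| ≤ 2 * B * τ := by
      have h3 : ‖y‖ ^ 2 - ‖x‖ ^ 2 = (‖y‖ - ‖x‖) * (‖y‖ + ‖x‖) := by ring
      rw [h3, abs_mul]
      have h4 : |‖y‖ + ‖x‖| ≤ 2 * B := by
        rw [abs_of_nonneg (by positivity)]
        linarith
      have h5 : |‖y‖ - ‖x‖| ≤ τ := by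
        have := abs_norm_sub_norm_le y x
        rw [norm_sub_rev] at this
        exact this.trans hxy
      calc |‖y‖ - ‖x‖| * |‖y‖ + ‖x‖| ≤ τ * (2 * B) :=
            mul_le_mul h5 h4 (abs_nonneg _) hτ.le
        _ = 2 * B * τ := by ring
    rw [abs_le] at e1 h2 ⊢
    constructor <;> linarith [e1.1, e1.2, h2.1, h2.2]

open Classical in
theorem en_bound {n m : ℕ} (z : Fin m → E n) (hz : 0 < gramS z Finset.univ)
    (rad : ℝ) (hrad0 : 0 < rad) (hrad : ∀ i, ‖z i‖ + 1 ≤ rad) (δ : ℝ) (hδ : 0 < δ) :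
    ∃ h0 : ℝ, 0 < h0 ∧ ∀ h : ℝ, 0 < h → h ≤ h0 → ∃ d0 : ℕ, ∀ d ≥ d0, ∀ C : Cells d rad h,
      (Real.sqrt (gramS z Finset.univ)) ^ d / 2 ^ m ≤
      ∑ q : Fin m → Fin C.N, (if (∀ i j, |⟪C.c (q i), C.c (q j)⟫ - ⟪z i, z j⟫| ≤ δ) then
        ∏ j, C.v (q j) else 0) := by
  obtain ⟨ρ, hρdef⟩ : ∃ ρ : Fin m → ℝ, ρ = fun j =>
    infDist (z j) (Submodule.span ℝ (z '' {i | i < j}) : Set (E n)) := ⟨_, rfl⟩
  have hρ0 : ∀ j, 0 ≤ ρ j := fun j => by
    rw [hρdef]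
    exact infDist_nonneg
  have hgram : gramS z Finset.univ = (∏ j, ρ j) ^ 2 := by
    rw [gramS_univ z ∅, gramS_empty, one_mul, ← Finset.prod_pow]
    refine Finset.prod_congr rfl fun j _ => ?_
    rw [hρdef, if_neg (Finset.notMem_empty j)]
    simp only [Finset.notMem_empty, false_or]
  have hsqrt : Real.sqrt (gramS z Finset.univ) = ∏ j, ρ j := by
    rw [hgram, Real.sqrt_sq (Finset.prod_nonneg fun j _ => hρ0 j)]
  have hρp : ∀ j, 0 < ρ j := by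
    intro j
    refine lt_of_le_of_ne (hρ0 j) fun h => ?_
    rw [hgram, Finset.prod_eq_zero (Finset.mem_univ j) h.symm] at hz
    norm_num at hz
  have hα : ∀ j, ∃ α : Fin m → ℝ, (∀ i, ¬ i < j → α i = 0) ∧
      (∀ i < j, ⟪z j - ∑ i, α i • z i, z i⟫ = 0) ∧ ‖z j - ∑ i, α i • z i‖ = ρ j := by
    intro j
    obtain ⟨α, h1, h2, h3⟩ := exists_coeff z {i | i < j} (z j)
    refine ⟨α, fun i hi => h1 i hi, fun i hi => h2 i hi, ?_⟩
    rw [h3, hρdef]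
  choose α hα1 hα2 hα3 using hα
  obtain ⟨B, hB⟩ : ∃ B : ℝ, B = 1 + rad + ∑ j, ρ j + ∑ j, ∑ i, |α j i| := ⟨_, rfl⟩
  have hs1 : 0 ≤ ∑ j, ρ j := Finset.sum_nonneg fun j _ => hρ0 j
  have hs2 : 0 ≤ ∑ j, ∑ i, |α j i| :=
    Finset.sum_nonneg fun j _ => Finset.sum_nonneg fun i _ => abs_nonneg _
  have hB1 : 1 ≤ B := by rw [hB]; linarith
  have hBr : rad ≤ B := by rw [hB]; linarith
  have hBρ : ∀ j, ρ j ≤ B := fun j => by
    have := Finset.single_le_sum (f := ρ) (fun i _ => hρ0 i) (Finset.mem_univ j)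
    rw [hB]
    linarith
  have hBα : ∀ j, ∑ i, |α j i| ≤ B := fun j => by
    have := Finset.single_le_sum (f := fun j => ∑ i, |α j i|)
      (fun i _ => Finset.sum_nonneg fun k _ => abs_nonneg _) (Finset.mem_univ j)
    rw [hB]
    linarith
  obtain ⟨D, hD⟩ : ∃ D : ℝ, D = 7 * B ^ 2 := ⟨_, rfl⟩
  have hD1 : 1 ≤ D := by
    rw [hD]
    nlinarith
  obtain ⟨ε, hε⟩ : ∃ ε : ℝ, ε = min δ 1 := ⟨_, rfl⟩
  have hε0 : 0 < ε := by rw [hε]; exact lt_min hδ one_pos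
  have hεδ : ε ≤ δ := by rw [hε]; exact min_le_left _ _
  have hε1 : ε ≤ 1 := by rw [hε]; exact min_le_right _ _
  obtain ⟨τ, hτ⟩ : ∃ τ : ℝ, τ = ε / (2 * D) ^ m := ⟨_, rfl⟩
  have h2D : 1 ≤ 2 * D := by linarith
  have hpm : 1 ≤ (2 * D) ^ m := one_le_pow₀ h2D
  have hτ0 : 0 < τ := by rw [hτ]; positivity
  obtain ⟨s, hs⟩ : ∃ s : ℕ → ℝ, s = fun k => (2 * D) ^ k * τ := ⟨_, rfl⟩
  have hsm : s m = ε := by
    rw [hs, hτ]
    field_simp
  have hsmono : Monotone s := by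
    refine monotone_nat_of_le_succ fun k => ?_
    rw [hs]
    simp only [pow_succ]
    have : 0 < (2 * D) ^ k * τ := by positivity
    nlinarith
  have hs0 : s 0 = τ := by rw [hs]; simp
  have hsp : ∀ k, 0 < s k := fun k => by
    have := hsmono (Nat.zero_le k)
    rw [hs0] at this
    linarith
  have hsstep : ∀ k, D * (s k + τ) ≤ s (k + 1) := by
    intro k
    have h1 : s (k + 1) = 2 * D * s k := by rw [hs]; simp only [pow_succ]; ring
    have h2 := hsmono (Nat.zero_le k)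
    rw [hs0] at h2
    rw [h1]
    nlinarith
  have hτ1 : τ ≤ 1 := by
    have := hsmono (Nat.zero_le m)
    rw [hs0, hsm] at this
    linarith
  refine ⟨τ, hτ0, fun h hh0 hhτ => ?_⟩
  choose d0 hd0 using fun j => ball_good m rad (ρ j) τ hrad0 (hρp j) hτ0
  refine ⟨∑ j, d0 j, fun d hd C => ?_⟩
  have hdj : ∀ j, d0 j ≤ d := fun j =>
    (Finset.single_le_sum (f := d0) (fun i _ => Nat.zero_le _) (Finset.mem_univ j)).trans hd
  have hne : Nonempty (Fin C.N) := by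
    have h0 : (0 : E d) ∈ closedBall (0 : E d) rad := mem_closedBall_self hrad0.le
    obtain ⟨i, -⟩ := mem_iUnion.mp (C.cover h0)
    exact ⟨i⟩
  obtain ⟨f, hf⟩ : ∃ f : Fin m → (Fin m → Fin C.N) → ℝ, f = fun j q =>
    if (∀ i ≤ j, |⟪C.c (q i), C.c (q j)⟫ - ⟪z i, z j⟫| ≤ s (j + 1)) then C.v (q j) else 0 := ⟨_, rfl⟩
  have hf0 : ∀ j q, 0 ≤ f j q := by
    intro j q
    rw [hf]
    dsimp only
    split_ifs
    · exact C.v_nonneg _
    · exact le_rfl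
  have hfpos : ∀ j q, 0 < f j q →
      ∀ i ≤ j, |⟪C.c (q i), C.c (q j)⟫ - ⟪z i, z j⟫| ≤ s (j + 1) := by
    intro j q hq
    by_contra hcon
    rw [hf] at hq
    dsimp only at hq
    rw [if_neg hcon] at hq
    exact lt_irrefl _ hq
  have hdep : ∀ j q q', (∀ i ≤ j, q i = q' i) → f j q = f j q' := by
    intro j q q' hqq
    rw [hf]
    dsimp only
    have e1 : (∀ i ≤ j, |⟪C.c (q i), C.c (q j)⟫ - ⟪z i, z j⟫| ≤ s (j + 1)) ↔
        (∀ i ≤ j, |⟪C.c (q' i), C.c (q' j)⟫ - ⟪z i, z j⟫| ≤ s (j + 1)) := by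
      refine forall_congr' fun i => imp_congr_right fun hi => ?_
      rw [hqq i hi, hqq j le_rfl]
    rw [hqq j le_rfl] at *
    by_cases hc : (∀ i ≤ j, |⟪C.c (q i), C.c (q' j)⟫ - ⟪z i, z j⟫| ≤ s (j + 1))
    · rw [if_pos hc, if_pos (e1.mp hc)]
    · rw [if_neg hc, if_neg fun hc' => hc (e1.mpr hc')]
  have hstep : ∀ j q, (∀ i < j, 0 < f i q) →
      ρ j ^ d / 2 ≤ ∑ a, f j (Function.update q j a) := by
    intro j q hq
    have hGr : ∀ i < j, ∀ k < j, |⟪C.c (q i), C.c (q k)⟫ - ⟪z i, z k⟫| ≤ s j := by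
      intro i hi k hk
      rcases le_total i k with hik | hik
      · exact (hfpos k q (hq k hk) i hik).trans (hsmono (Nat.succ_le_of_lt hk))
      · have h1 := (hfpos i q (hq i hi) k hik).trans (hsmono (Nat.succ_le_of_lt hi))
        rw [real_inner_comm, real_inner_comm (z i) (z k)] at h1
        exact h1
    obtain ⟨I, hI⟩ : ∃ I : Finset (Fin C.N), I = Finset.univ.filter fun b =>
      (∀ i < j, |⟪C.c (q i), C.c b⟫ - ⟪z i, z j⟫| ≤ s (j + 1)) ∧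
      |⟪C.c b, C.c b⟫ - ⟪z j, z j⟫| ≤ s (j + 1) := ⟨_, rfl⟩
    have hsum : ∑ a, f j (Function.update q j a) = ∑ a ∈ I, C.v a := by
      rw [hI, Finset.sum_filter]
      refine Finset.sum_congr rfl fun b _ => ?_
      rw [hf]
      dsimp only
      rw [Function.update_self]
      have e1 : (∀ i ≤ j, |⟪C.c (Function.update q j b i), C.c b⟫ - ⟪z i, z j⟫| ≤ s (j + 1)) ↔
          ((∀ i < j, |⟪C.c (q i), C.c b⟫ - ⟪z i, z j⟫| ≤ s (j + 1)) ∧
            |⟪C.c b, C.c b⟫ - ⟪z j, z j⟫| ≤ s (j + 1)) := by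
        constructor
        · intro h1
          refine ⟨fun i hi => ?_, ?_⟩
          · have h2 := h1 i hi.le
            rwa [Function.update_of_ne hi.ne] at h2
          · have h2 := h1 j le_rfl
            rwa [Function.update_self] at h2
        · rintro ⟨h1, h2⟩ i hi
          rcases hi.lt_or_eq with hi | hi
          · rw [Function.update_of_ne hi.ne]
            exact h1 i hi
          · subst hi
            rwa [Function.update_self]
      by_cases hc : (∀ i ≤ j, |⟪C.c (Function.update q j b i), C.c b⟫ - ⟪z i, z j⟫| ≤ s (j + 1))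
      · rw [if_pos hc, if_pos (e1.mp hc)]
      · rw [if_neg hc, if_neg fun hc' => hc (e1.mpr hc')]
    rw [hsum]
    obtain ⟨w, hw⟩ : ∃ w : Fin m → E d, w = fun i => if i < j then C.c (q i) else 0 := ⟨_, rfl⟩
    have hwi : ∀ i < j, w i = C.c (q i) := fun i hi => by rw [hw]; simp [hi]
    have hwR : ∀ i, ‖w i‖ ≤ rad := by
      intro i
      rw [hw]
      dsimp only
      split_ifs
      · exact C.cR _
      · rw [norm_zero]; exact hrad0.le
    obtain ⟨G, hG⟩ : ∃ G : Set (E d), G = {x : E d | (∀ i, |⟪w i, x - ∑ i, α j i • C.c (q i)⟫| ≤ τ) ∧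
      |‖x - ∑ i, α j i • C.c (q i)‖ - ρ j| ≤ τ} := ⟨_, rfl⟩
    have hvol := hd0 j d (hdj j) m le_rfl w hwR (∑ i, α j i • C.c (q i))
    rw [← hG] at hvol
    have hsmall : 7 * B ^ 2 * (s j + τ) ≤ s (j + 1) := by
      rw [← hD]
      exact hsstep j
    have hsj1 : s (j + 1) ≤ 1 := by
      have : s (j + 1) ≤ s m := hsmono (Nat.succ_le_of_lt j.2)
      rw [hsm] at this
      linarith
    have hgeom : ∀ x ∈ G, ‖x‖ ≤ rad ∧ ∀ y : E d, ‖y‖ ≤ rad → ‖x - y‖ ≤ τ →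
        (∀ i < j, |⟪C.c (q i), y⟫ - ⟪z i, z j⟫| ≤ 7 * B ^ 2 * (s j + τ)) ∧
        |⟪y, y⟫ - ⟪z j, z j⟫| ≤ 7 * B ^ 2 * (s j + τ) := by
      intro x hx
      rw [hG] at hx
      obtain ⟨hx1, hx2⟩ := hx
      refine en_geom z rad hrad j (α j) (hα1 j) (hα2 j) (ρ j) (hα3 j) B hB1 hBr (hBρ j) (hBα j)
        (s j) τ (hsp j) hτ0 hτ1 (hsmall.trans hsj1) (fun i => C.c (q i)) (fun i _ => C.cR _) hGr x
        (fun i hi => ?_) hx2
      have h1 := hx1 i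
      rwa [hwi i hi] at h1
    have hle := C.le_sum I G (fun x hx => by
        rw [mem_closedBall_zero_iff]
        exact (hgeom x hx).1) (fun x hx b hb => by
        have h1 := C.sub b hb
        rw [mem_closedBall, dist_eq_norm] at h1
        obtain ⟨h2, h3⟩ := (hgeom x hx).2 (C.c b) (C.cR b) (h1.trans hhτ)
        rw [hI, Finset.mem_filter]
        exact ⟨Finset.mem_univ _, fun i hi => (h2 i hi).trans hsmall, h3.trans hsmall⟩)
    refine le_trans ?_ hle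
    rw [le_div_iff₀ (kap_pos d)]
    linarith
  have hmain := le_seq_sum m f hf0 hdep (fun j => ρ j ^ d / 2)
    (fun j => by have := hρ0 j; positivity) hstep
  have hb : (Real.sqrt (gramS z Finset.univ)) ^ d / 2 ^ m = ∏ j, (ρ j ^ d / 2) := by
    rw [hsqrt, Finset.prod_div_distrib, Finset.prod_pow, Finset.prod_const, Finset.card_univ,
      Fintype.card_fin]
  rw [hb]
  refine hmain.trans (Finset.sum_le_sum fun q _ => ?_)
  by_cases hall : ∀ j, 0 < f j q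
  · have hcond : ∀ i j, |⟪C.c (q i), C.c (q j)⟫ - ⟪z i, z j⟫| ≤ δ := by
      have key : ∀ i j, i ≤ j → |⟪C.c (q i), C.c (q j)⟫ - ⟪z i, z j⟫| ≤ δ := fun i j hij => by
        have h1 := hfpos j q (hall j) i hij
        have h2 : s (j + 1) ≤ s m := hsmono (Nat.succ_le_of_lt j.2)
        rw [hsm] at h2
        linarith
      intro i j
      rcases le_total i j with hij | hij
      · exact key i j hij
      · have h1 := key j i hij
        rw [real_inner_comm (C.c (q i)), real_inner_comm (z i)] at h1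
        exact h1
    rw [if_pos hcond]
    refine le_of_eq (Finset.prod_congr rfl fun j _ => ?_)
    have h1 := hfpos j q (hall j)
    rw [hf]
    dsimp only
    rw [if_pos h1]
  · obtain ⟨j, hj⟩ := not_forall.mp hall
    rw [not_lt] at hj
    rw [Finset.prod_eq_zero (Finset.mem_univ j) (le_antisymm hj (hf0 j q))]
    split_ifs
    · exact Finset.prod_nonneg fun j _ => C.v_nonneg _
    · exact le_rfl


end H949.VW
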