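import Pool.Agent.H949.VW.Defs

set_option autoImplicit false

open MeasureTheory ProbabilityTheory Set Metric
open scoped RealInnerProductSpace ENNReal

namespace H949.VW

/-! ### Proofs

Let `p i = P (A i)`, `N = ∑_{q ∈ T} 1[∀ j, ω ∈ A (q j)]`, `e = E N = ∑_{q ∈ T} ∏_j p (q j)` (independence and
injectivity of `q`). `E N² = ∑_{q, q' ∈ T} P (all A i, i ∈ range q ∪ range q')`. For `q, q' ∈ T` let
`R = {j | q' j ∈ range q}`; then the probability is `∏_j p (q j) ∏_{j ∉ R} p (q' j)`. For fixed `q`:
`R = ∅` contributes at most `∏_j p (q j) * e`; for `R ≠ ∅`, each such `q'` satisfies `q' j = q (φ j)` for `j ∈ R` for some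
function `φ : R → Fin m` (at most `m ^ |R|` functions), so these `q'` contribute at most
`∏_j p (q j) * m ^ |R| * W R` by `hW` with `a j = q (φ j)`. So `E N² ≤ e² + e ∑_{R ≠ ∅} m ^ |R| W R`. Finally
`P (N = 0) ≤ Var N / e²` (`E (N - e)² ≥ e² P (N = 0)`).
-/

section second_lemmas



variable {Ω : Type*} [MeasurableSpace Ω] (P : Measure Ω)
  {ι : Type*} (A : ι → Set Ω)

/-- All events of the tuple occur. -/
def second_B {m : ℕ} (q : Fin m → ι) : Set Ω := {ω | ∀ j, ω ∈ A (q j)}

theorem second_B_meas (hA : ∀ i, MeasurableSet (A i)) {m : ℕ} (q : Fin m → ι) :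
    MeasurableSet (second_B A q) := by
  have h : second_B A q = ⋂ j, A (q j) := by
    ext ω
    simp [second_B]
  rw [h]
  exact MeasurableSet.iInter fun j => hA _

open Classical in
theorem second_inter (hind : iIndepSet A P) {m : ℕ} (q q' : Fin m → ι)
    (hq : Function.Injective q) (hq' : Function.Injective q') :
    (P (second_B A q ∩ second_B A q')).toReal =
      (∏ j, (P (A (q j))).toReal) *
        ∏ j, (if q' j ∈ Finset.univ.image q then 1 else (P (A (q' j))).toReal) := by
  have h : second_B A q ∩ second_B A q' = ⋂ i ∈ Finset.univ.image q ∪ Finset.univ.image q', A i := by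
    ext ω
    simp only [second_B, Set.mem_inter_iff, Set.mem_ofPred_eq, Set.mem_iInter, Finset.mem_union,
      Finset.mem_image, Finset.mem_univ, true_and]
    constructor
    · rintro ⟨h1, h2⟩ i (⟨j, rfl⟩ | ⟨j, rfl⟩)
      · exact h1 j
      · exact h2 j
    · intro h
      exact ⟨fun j => h _ (Or.inl ⟨j, rfl⟩), fun j => h _ (Or.inr ⟨j, rfl⟩)⟩
  rw [h, hind.meas_biInter, ENNReal.toReal_prod]
  have hun : Finset.univ.image q ∪ Finset.univ.image q' = Finset.univ.image q ∪ (Finset.univ.image q' \ Finset.univ.image q) :=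
    (Finset.union_sdiff_self_eq_union).symm
  rw [hun, Finset.prod_union Finset.disjoint_sdiff, Finset.prod_image (fun a _ b _ h => hq h)]
  congr 1
  have h2 : Finset.univ.image q' \ Finset.univ.image q = (Finset.univ.filter (fun j => q' j ∉ Finset.univ.image q)).image q' := by
    ext i
    simp only [Finset.mem_sdiff, Finset.mem_image, Finset.mem_univ, true_and, Finset.mem_filter]
    constructor
    · rintro ⟨⟨j, rfl⟩, h3⟩
      exact ⟨j, h3, rfl⟩
    · rintro ⟨j, h3, rfl⟩
      exact ⟨⟨j, rfl⟩, h3⟩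
  rw [h2, Finset.prod_image (fun a _ b _ h => hq' h), Finset.prod_filter]
  refine Finset.prod_congr rfl fun j _ => ?_
  by_cases h3 : q' j ∈ Finset.univ.image q
  · rw [if_pos h3, if_neg (not_not.mpr h3)]
  · rw [if_neg h3, if_pos h3]

open Classical in
theorem second_fixed {m : ℕ} (p : ι → ℝ) (hp : ∀ i, 0 ≤ p i) (T : Finset (Fin m → ι))
    (W : Finset (Fin m) → ℝ) (hW : ∀ (R : Finset (Fin m)) (a : Fin m → ι),
      ∑ q ∈ T.filter (fun q => ∀ j ∈ R, q j = a j), ∏ j, (if j ∈ R then 1 else p (q j)) ≤ W R)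
    (q : Fin m → ι) :
    ∑ q' ∈ T, ∏ j, (if q' j ∈ Finset.univ.image q then 1 else p (q' j)) ≤
      ∑ q' ∈ T, ∏ j, p (q' j) +
        ∑ R ∈ (Finset.univ : Finset (Finset (Fin m))).filter (fun R => R.Nonempty),
          (m : ℝ) ^ R.card * W R := by
  set F : Finset (Fin m) → (Fin m → ι) → ℝ := fun R q' => ∏ j, (if j ∈ R then 1 else p (q' j))
    with hF
  have hF0 : ∀ R q', 0 ≤ F R q' := by
    intro R q'
    refine Finset.prod_nonneg fun j _ => ?_
    split_ifs
    · exact zero_le_one
    · exact hp _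
  set Rf : (Fin m → ι) → Finset (Fin m) := fun q' => Finset.univ.filter (fun j => q' j ∈ Finset.univ.image q)
    with hRf
  have e1 : ∀ q' : Fin m → ι, ∏ j, (if q' j ∈ Finset.univ.image q then 1 else p (q' j)) = F (Rf q') q' := by
    intro q'
    refine Finset.prod_congr rfl fun j _ => ?_
    simp only [hRf, Finset.mem_filter, Finset.mem_univ, true_and]
  rw [Finset.sum_congr rfl fun q' _ => e1 q']
  have e2 : ∑ q' ∈ T, F (Rf q') q' = ∑ R : Finset (Fin m), ∑ q' ∈ T.filter (fun q' => Rf q' = R),
      F R q' := by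
    rw [← Finset.sum_fiberwise_of_maps_to (s := T) (t := Finset.univ) (g := Rf)
      (fun _ _ => Finset.mem_univ _)]
    refine Finset.sum_congr rfl fun R _ => Finset.sum_congr rfl fun q' hq' => ?_
    rw [(Finset.mem_filter.mp hq').2]
  rw [e2, ← Finset.sum_filter_add_sum_filter_not (Finset.univ : Finset (Finset (Fin m)))
    (fun R => ¬ R.Nonempty)]
  simp only [not_not]
  refine add_le_add ?_ ?_
  · have e3 : (Finset.univ : Finset (Finset (Fin m))).filter (fun R => ¬ R.Nonempty) = {∅} := by
      ext R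
      simp [Finset.not_nonempty_iff_eq_empty]
    rw [e3, Finset.sum_singleton]
    refine (Finset.sum_le_sum_of_subset_of_nonneg (Finset.filter_subset _ _)
      (fun q' _ _ => hF0 _ _)).trans (le_of_eq ?_)
    refine Finset.sum_congr rfl fun q' _ => ?_
    simp [hF]
  · refine Finset.sum_le_sum fun R _ => ?_
    have e4 : ∑ q' ∈ T.filter (fun q' => Rf q' = R), F R q' ≤
        ∑ φ : (R → Fin m), ∑ q' ∈ T.filter (fun q' => ∀ j ∈ R, q' j =
          (if h : j ∈ R then q (φ ⟨j, h⟩) else q' j)), F R q' := by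
      rw [Finset.sum_comm' (t' := T) (s' := fun q' : Fin m → ι =>
        (Finset.univ : Finset (R → Fin m)).filter
        (fun φ => ∀ j ∈ R, q' j = (if h : j ∈ R then q (φ ⟨j, h⟩) else q' j)))]
      · rw [Finset.sum_filter]
        refine Finset.sum_le_sum fun q' _ => ?_
        split_ifs with h
        · rw [Finset.sum_const, nsmul_eq_mul]
          have h1 : (1 : ℝ) ≤ (((Finset.univ : Finset (R → Fin m)).filter
              (fun φ => ∀ j ∈ R, q' j = (if h : j ∈ R then q (φ ⟨j, h⟩) else q' j))).card : ℝ) := by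
            rw [Nat.one_le_cast, Nat.one_le_iff_ne_zero, Finset.card_ne_zero]
            have h2 : ∀ j : R, ∃ k : Fin m, q k = q' j := by
              rintro ⟨j, hj⟩
              have h3 : j ∈ Rf q' := by rw [h]; exact hj
              simp only [hRf, Finset.mem_filter, Finset.mem_univ, true_and,
                Finset.mem_image] at h3
              exact h3
            choose φ hφ using h2
            refine ⟨φ, ?_⟩
            rw [Finset.mem_filter]
            refine ⟨Finset.mem_univ _, fun j hj => ?_⟩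
            rw [dif_pos hj, hφ]
          exact le_mul_of_one_le_left (hF0 _ _) h1
        · exact Finset.sum_nonneg fun _ _ => hF0 _ _
      · intro φ q'
        simp only [Finset.mem_univ, Finset.mem_filter, true_and]
        exact and_comm
    refine e4.trans ?_
    have e5 : ∀ φ : R → Fin m, ∑ q' ∈ T.filter (fun q' => ∀ j ∈ R, q' j =
        (if h : j ∈ R then q (φ ⟨j, h⟩) else q' j)), F R q' ≤ W R := by
      intro φ
      have h4 := hW R (fun j => if h : j ∈ R then q (φ ⟨j, h⟩) else q j)
      refine le_trans (le_of_eq ?_) h4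
      refine Finset.sum_congr ?_ fun q' _ => rfl
      refine Finset.filter_congr fun q' _ => ?_
      refine forall₂_congr fun j hj => ?_
      rw [dif_pos hj, dif_pos hj]
    refine (Finset.sum_le_sum fun φ _ => e5 φ).trans (le_of_eq ?_)
    rw [Finset.sum_const, Finset.card_univ, Fintype.card_fun, Fintype.card_fin,
      Fintype.card_coe, nsmul_eq_mul, Nat.cast_pow]

end second_lemmas

open Classical in
theorem second_moment {Ω : Type*} [MeasurableSpace Ω] (P : Measure Ω) [IsProbabilityMeasure P]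
    {ι : Type*} [Fintype ι] (A : ι → Set Ω) (hA : ∀ i, MeasurableSet (A i)) (hind : iIndepSet A P)
    (m : ℕ) (T : Finset (Fin m → ι)) (hT : ∀ q ∈ T, Function.Injective q)
    (W : Finset (Fin m) → ℝ) (hW : ∀ (R : Finset (Fin m)) (a : Fin m → ι),
      ∑ q ∈ T.filter (fun q => ∀ j ∈ R, q j = a j), ∏ j, (if j ∈ R then 1 else (P (A (q j))).toReal)
        ≤ W R)
    (hE : 0 < ∑ q ∈ T, ∏ j, (P (A (q j))).toReal) :
    (P {ω | ¬ ∃ q ∈ T, ∀ j, ω ∈ A (q j)}).toReal ≤
      (∑ R ∈ (Finset.univ : Finset (Finset (Fin m))).filter (fun R => R.Nonempty),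
        (m : ℝ) ^ R.card * W R) / ∑ q ∈ T, ∏ j, (P (A (q j))).toReal := by
  set e : ℝ := ∑ q ∈ T, ∏ j, (P (A (q j))).toReal with he
  set S : ℝ := ∑ R ∈ (Finset.univ : Finset (Finset (Fin m))).filter (fun R => R.Nonempty),
    (m : ℝ) ^ R.card * W R with hS
  have hBm : ∀ q : Fin m → ι, MeasurableSet (second_B A q) := second_B_meas A hA
  have hB : ∀ q ∈ T, (P (second_B A q)).toReal = ∏ j, (P (A (q j))).toReal := by
    intro q hq
    have h := second_inter P A hind q q (hT q hq) (hT q hq)
    rw [Set.inter_self] at h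
    rw [h]
    have h1 : ∏ j, (if q j ∈ Finset.univ.image q then 1 else (P (A (q j))).toReal) = 1 := by
      refine Finset.prod_eq_one fun j _ => ?_
      rw [if_pos (Finset.mem_image_of_mem _ (Finset.mem_univ _))]
    rw [h1, mul_one]
  set N : Ω → ℝ := fun ω => ∑ q ∈ T, (second_B A q).indicator (fun _ => (1 : ℝ)) ω with hN
  have hint : ∀ s : Set Ω, MeasurableSet s → Integrable (s.indicator (fun _ => (1 : ℝ))) P :=
    fun s hs => (integrable_const (1 : ℝ)).indicator hs
  have hintv : ∀ s : Set Ω, MeasurableSet s →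
      ∫ ω, s.indicator (fun _ => (1 : ℝ)) ω ∂P = (P s).toReal := by
    intro s hs
    rw [integral_indicator hs]
    simp [Measure.real]
  have hEN : ∫ ω, N ω ∂P = e := by
    simp only [hN]
    rw [integral_finsetSum _ fun q _ => hint _ (hBm q)]
    refine Finset.sum_congr rfl fun q hq => ?_
    rw [hintv _ (hBm q), hB q hq]
  have hNN : ∀ ω, N ω ^ 2 = ∑ q ∈ T, ∑ q' ∈ T,
      (second_B A q ∩ second_B A q').indicator (fun _ => (1 : ℝ)) ω := by
    intro ω
    simp only [hN]
    rw [sq, Finset.sum_mul_sum]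
    refine Finset.sum_congr rfl fun q _ => Finset.sum_congr rfl fun q' _ => ?_
    by_cases h1 : ω ∈ second_B A q <;> by_cases h2 : ω ∈ second_B A q' <;>
      simp [h1, h2]
  have hN2 : ∫ ω, N ω ^ 2 ∂P ≤ e ^ 2 + e * S := by
    have h1 : ∫ ω, N ω ^ 2 ∂P = ∑ q ∈ T, ∑ q' ∈ T,
        (P (second_B A q ∩ second_B A q')).toReal := by
      simp only [hNN]
      rw [integral_finsetSum _ fun q _ => integrable_finsetSum _ fun q' _ =>
        hint _ ((hBm q).inter (hBm q'))]
      refine Finset.sum_congr rfl fun q _ => ?_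
      rw [integral_finsetSum _ fun q' _ => hint _ ((hBm q).inter (hBm q'))]
      refine Finset.sum_congr rfl fun q' _ => ?_
      rw [hintv _ ((hBm q).inter (hBm q'))]
    rw [h1]
    have h2 : ∀ q ∈ T, ∑ q' ∈ T, (P (second_B A q ∩ second_B A q')).toReal ≤
        (∏ j, (P (A (q j))).toReal) * (e + S) := by
      intro q hq
      rw [Finset.sum_congr rfl fun q' hq' => second_inter P A hind q q' (hT q hq) (hT q' hq'),
        ← Finset.mul_sum]
      refine mul_le_mul_of_nonneg_left ?_ (Finset.prod_nonneg fun j _ => ENNReal.toReal_nonneg)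
      exact second_fixed (fun i => (P (A i)).toReal) (fun i => ENNReal.toReal_nonneg) T W hW q
    refine (Finset.sum_le_sum h2).trans (le_of_eq ?_)
    rw [← Finset.sum_mul, ← he]
    ring
  have hNi : Integrable N P := integrable_finsetSum _ fun q _ => hint _ (hBm q)
  have hN2i : Integrable (fun ω => N ω ^ 2) P := by
    have : (fun ω => N ω ^ 2) = fun ω => ∑ q ∈ T, ∑ q' ∈ T,
      (second_B A q ∩ second_B A q').indicator (fun _ => (1 : ℝ)) ω := funext hNN
    rw [this]
    exact integrable_finsetSum _ fun q _ => integrable_finsetSum _ fun q' _ =>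
        hint _ ((hBm q).inter (hBm q'))
  set Z : Set Ω := {ω | ¬ ∃ q ∈ T, ∀ j, ω ∈ A (q j)} with hZ
  have hZm : MeasurableSet Z := by
    have : Z = (⋃ q ∈ T, second_B A q)ᶜ := by
      ext ω
      simp [hZ, second_B]
    rw [this]
    exact (T.measurableSet_biUnion fun q _ => hBm q).compl
  have hZN : ∀ ω ∈ Z, N ω = 0 := by
    intro ω hω
    simp only [hN]
    refine Finset.sum_eq_zero fun q hq => ?_
    refine Set.indicator_of_notMem ?_ _
    intro h
    exact hω ⟨q, hq, h⟩
  have hkey : e ^ 2 * (P Z).toReal ≤ ∫ ω, (N ω - e) ^ 2 ∂P := by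
    rw [← hintv Z hZm, ← integral_const_mul]
    refine integral_mono ((hint Z hZm).const_mul _) ?_ fun ω => ?_
    · have : (fun ω => (N ω - e) ^ 2) = fun ω => N ω ^ 2 - 2 * e * N ω + e ^ 2 := by
        funext ω
        ring
      rw [this]
      exact (hN2i.sub (hNi.const_mul _)).add (integrable_const _)
    · by_cases h : ω ∈ Z
      · simp only [Set.indicator_of_mem h, hZN ω h]
        nlinarith
      · simp only [Set.indicator_of_notMem h, mul_zero]
        exact sq_nonneg _
  have hvar : ∫ ω, (N ω - e) ^ 2 ∂P = ∫ ω, N ω ^ 2 ∂P - e ^ 2 := by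
    have h1 : (fun ω => (N ω - e) ^ 2) = fun ω => (N ω ^ 2 - 2 * e * N ω) + e ^ 2 := by
      funext ω
      ring
    have hi1 : Integrable (fun ω => 2 * e * N ω) P := hNi.const_mul _
    have hi2 : Integrable (fun ω => N ω ^ 2 - 2 * e * N ω) P := hN2i.sub hi1
    rw [h1, integral_add hi2 (integrable_const _), integral_sub hN2i hi1, integral_const_mul, hEN]
    simp
    ring
  rw [hvar] at hkey
  rw [le_div_iff₀ hE]
  have h3 : e * ((P Z).toReal * e) ≤ e * S := by nlinarith
  exact le_of_mul_le_mul_left h3 hE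


end H949.VW
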