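import Pool.Agent.H949.VW.Defs
import Pool.Agent.H949.VW.Cells
import Pool.Agent.H949.VW.Gram
import Pool.Agent.H949.VW.Seq

set_option autoImplicit false

open MeasureTheory ProbabilityTheory Set Metric
open scoped RealInnerProductSpace ENNReal

namespace H949.VW

/-! ### Proofs

For `j ∉ R` let `S_j = {i | i ∈ R ∨ i < j}`, `ρ_j = infDist (z j) (span (z '' S_j))`. By `gramS_univ`,
`gramS z univ = gramS z R ∏_{j ∉ R} ρ_j²`, so `∏_{j ∉ R} ρ_j = √(gramS z univ / gramS z R)` (all are positive). By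
`exists_coeff` there are `α^j` supported in `S_j` with `‖z j - ∑ α^j_i z i‖ = ρ_j`. If `q` satisfies the Gram condition with
`δ`, then by `norm_comb` (with `β = e_j - α^j`) `‖c (q j) - ∑_i α^j_i c (q i)‖² ≤ ρ_j² + A δ`, `A = (1 + ∑ |α^j_i|)²`, and for
`i ∈ R` we have `q i = a i`. Use `seq_sum_le` with `f j q = 1[q j = a j]` for `j ∈ R` (bound `1`), and for `j ∉ R`
`f j q = 1[‖c (q j) - ∑_{i ∈ R} α^j_i c (a i) - ∑_{i < j, i ∉ R} α^j_i c (q i)‖ ≤ √(ρ_j² + A δ)] C.v (q j)`, whose sum over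
`q j` is at most `vol (closedBall (…) (√(ρ_j² + A δ) + h)) / kap d = (√(ρ_j² + A δ) + h) ^ d` (`sum_le`, `sub`, `vol_closedBall`).
So the sum is at most `(∏_{j ∉ R} (√(ρ_j² + A δ) + h))^d ≤ (∏ ρ_j + γ)^d` for small `δ, h` (continuity).
-/

open Classical in
theorem wr_bound {n m : ℕ} (z : Fin m → E n) (hz : 0 < gramS z Finset.univ) (R : Finset (Fin m))
    (γ : ℝ) (hγ : 0 < γ) :
    ∃ δ h0 : ℝ, 0 < δ ∧ 0 < h0 ∧ ∀ h : ℝ, 0 < h → h ≤ h0 → ∀ (rad : ℝ) (d : ℕ) (C : Cells d rad h)
      (a : Fin m → Fin C.N),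
      ∑ q : Fin m → Fin C.N, (if (∀ i j, |⟪C.c (q i), C.c (q j)⟫ - ⟪z i, z j⟫| ≤ δ) ∧
        (∀ j ∈ R, q j = a j) then ∏ j, (if j ∈ R then 1 else C.v (q j)) else 0) ≤
        (Real.sqrt (gramS z Finset.univ / gramS z R) + γ) ^ d := by


  classical
  -- the sets `S j` and the distances
  have hex : ∀ j : Fin m, ∃ α : Fin m → ℝ, (∀ i, i ∉ {i : Fin m | i ∈ R ∨ i < j} → α i = 0) ∧
      (∀ i ∈ {i : Fin m | i ∈ R ∨ i < j}, ⟪z j - ∑ i, α i • z i, z i⟫ = 0) ∧
      ‖z j - ∑ i, α i • z i‖ =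
        infDist (z j) (Submodule.span ℝ (z '' {i : Fin m | i ∈ R ∨ i < j}) : Set (E n)) :=
    fun j => exists_coeff z _ (z j)
  choose α hα1 _ hα3 using hex
  obtain ⟨ρ, hρ⟩ : ∃ ρ : Fin m → ℝ, ∀ j, ρ j =
      infDist (z j) (Submodule.span ℝ (z '' {i : Fin m | i ∈ R ∨ i < j}) : Set (E n)) :=
    ⟨_, fun j => rfl⟩
  have hρ0 : ∀ j, 0 ≤ ρ j := fun j => by rw [hρ]; exact infDist_nonneg
  have hρn : ∀ j, ‖z j - ∑ i, α j i • z i‖ = ρ j := fun j => by rw [hρ]; exact hα3 j
  obtain ⟨β, hβ⟩ : ∃ β : Fin m → Fin m → ℝ, ∀ j i, β j i = (if i = j then 1 else 0) - α j i :=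
    ⟨_, fun j i => rfl⟩
  have hcomb : ∀ {F' : Type} [NormedAddCommGroup F'] [InnerProductSpace ℝ F'] (c : Fin m → F')
      (j : Fin m), ∑ i, β j i • c i = c j - ∑ i, α j i • c i := by
    intro F' _ _ c j
    have e : ∀ i, β j i • c i = (if i = j then c i else 0) - α j i • c i := by
      intro i
      rw [hβ, sub_smul]
      by_cases h : i = j
      · rw [if_pos h, if_pos h, one_smul]
      · rw [if_neg h, if_neg h, zero_smul]
    rw [Finset.sum_congr rfl (fun i _ => e i), Finset.sum_sub_distrib, Finset.sum_ite_eq']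
    rw [if_pos (Finset.mem_univ j)]
  obtain ⟨A, hA⟩ : ∃ A : Fin m → ℝ, ∀ j, A j = (∑ i, |β j i|) ^ 2 := ⟨_, fun j => rfl⟩
  have hA0 : ∀ j, 0 ≤ A j := fun j => by rw [hA]; exact sq_nonneg _
  -- the limit
  have hprod : Real.sqrt (gramS z Finset.univ / gramS z R) =
      ∏ j : Fin m, (if j ∈ R then 1 else ρ j) := by
    have h1 := gramS_univ z R
    have h2 : ∏ j : Fin m, (if j ∈ R then (1 : ℝ) else
        (infDist (z j) (Submodule.span ℝ (z '' {i | i ∈ R ∨ i < j}) : Set (E n))) ^ 2) =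
        (∏ j : Fin m, (if j ∈ R then 1 else ρ j)) ^ 2 := by
      rw [← Finset.prod_pow]
      refine Finset.prod_congr rfl fun j _ => ?_
      by_cases hj : j ∈ R
      · rw [if_pos hj, if_pos hj, one_pow]
      · rw [if_neg hj, if_neg hj, hρ]
    rw [h2] at h1
    have h3 : gramS z R ≠ 0 := by
      intro h
      rw [h, zero_mul] at h1
      linarith
    have h4 : gramS z Finset.univ / gramS z R =
        (∏ j : Fin m, (if j ∈ R then 1 else ρ j)) ^ 2 := by
      rw [h1]
      field_simp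
    rw [h4, Real.sqrt_sq]
    refine Finset.prod_nonneg fun j _ => ?_
    by_cases hj : j ∈ R
    · rw [if_pos hj]
      exact zero_le_one
    · rw [if_neg hj]
      exact hρ0 j
  have hcont : Continuous (fun t : ℝ => ∏ j : Fin m,
      (if j ∈ R then (1 : ℝ) else Real.sqrt (ρ j ^ 2 + A j * t) + t)) := by
    refine continuous_finsetProd _ fun j _ => ?_
    by_cases hj : j ∈ R
    · simp only [if_pos hj]
      exact continuous_const
    · simp only [if_neg hj]
      fun_prop
  have hF0 : ∏ j : Fin m, (if j ∈ R then (1 : ℝ) else Real.sqrt (ρ j ^ 2 + A j * 0) + 0) =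
      Real.sqrt (gramS z Finset.univ / gramS z R) := by
    rw [hprod]
    refine Finset.prod_congr rfl fun j _ => ?_
    by_cases hj : j ∈ R
    · rw [if_pos hj, if_pos hj]
    · rw [if_neg hj, if_neg hj, mul_zero, add_zero, add_zero, Real.sqrt_sq (hρ0 j)]
  have hev := (hcont.tendsto 0).eventually_lt_const (u := Real.sqrt (gramS z Finset.univ /
    gramS z R) + γ) (lt_of_eq_of_lt hF0 (by linarith))
  obtain ⟨t0, ht0, ht⟩ := Metric.eventually_nhds_iff.mp hev
  have htt := ht (y := t0 / 2) (by rw [Real.dist_eq, sub_zero, abs_of_pos (by linarith)]; linarith)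
  refine ⟨t0 / 2, t0 / 2, by linarith, by linarith, ?_⟩
  intro h hh0 hh rad d C a
  obtain ⟨δ, hδ⟩ : ∃ δ : ℝ, δ = t0 / 2 := ⟨_, rfl⟩
  rw [← hδ] at htt hh ⊢
  have hδ0 : 0 < δ := by rw [hδ]; linarith
  obtain ⟨r, hr⟩ : ∃ r : Fin m → ℝ, ∀ j, r j = Real.sqrt (ρ j ^ 2 + A j * δ) := ⟨_, fun j => rfl⟩
  have hr0 : ∀ j, 0 ≤ r j := fun j => by rw [hr]; exact Real.sqrt_nonneg _
  obtain ⟨ctr, hctr⟩ : ∃ ctr : Fin m → (Fin m → Fin C.N) → E d, ∀ j q, ctr j q =
      ∑ i, α j i • C.c (if i ∈ R then a i else q i) := ⟨_, fun j q => rfl⟩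
  obtain ⟨f, hf⟩ : ∃ f : Fin m → (Fin m → Fin C.N) → ℝ, ∀ j q, f j q =
      if j ∈ R then (if q j = a j then 1 else 0)
      else (if ‖C.c (q j) - ctr j q‖ ≤ r j then C.v (q j) else 0) := ⟨_, fun j q => rfl⟩
  have hf0 : ∀ j q, 0 ≤ f j q := by
    intro j q
    rw [hf]
    split_ifs
    · exact zero_le_one
    · exact le_rfl
    · exact C.v_nonneg _
    · exact le_rfl
  -- the centre depends only on the coordinates before `j`
  have hctr_dep : ∀ j q q', j ∉ R → (∀ i < j, q i = q' i) → ctr j q = ctr j q' := by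
    intro j q q' hj hq
    rw [hctr, hctr]
    refine Finset.sum_congr rfl fun i _ => ?_
    by_cases hi : i ∈ R
    · rw [if_pos hi, if_pos hi]
    · by_cases hij : i < j
      · rw [if_neg hi, if_neg hi, hq i hij]
      · rw [hα1 j i (by simp only [Set.mem_ofPred_eq, not_or]; exact ⟨hi, hij⟩), zero_smul,
          zero_smul]
  have hdep : ∀ j q q', (∀ i ≤ j, q i = q' i) → f j q = f j q' := by
    intro j q q' hq
    rw [hf, hf, hq j le_rfl]
    by_cases hj : j ∈ R
    · rw [if_pos hj, if_pos hj]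
    · rw [if_neg hj, if_neg hj, hctr_dep j q q' hj (fun i hi => hq i hi.le)]
  obtain ⟨B, hB⟩ : ∃ B : Fin m → ℝ, ∀ j, B j = if j ∈ R then 1 else (r j + h) ^ d :=
    ⟨_, fun j => rfl⟩
  have hB0 : ∀ j, 0 ≤ B j := by
    intro j
    rw [hB]
    split_ifs
    · exact zero_le_one
    · exact pow_nonneg (by linarith [hr0 j]) d
  have hsum : ∀ j q, ∑ b, f j (Function.update q j b) ≤ B j := by
    intro j q
    by_cases hj : j ∈ R
    · rw [hB, if_pos hj]
      have e : ∀ b, f j (Function.update q j b) = if b = a j then 1 else 0 := by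
        intro b
        rw [hf, if_pos hj, Function.update_self]
      rw [Finset.sum_congr rfl (fun b _ => e b), Finset.sum_ite_eq', if_pos (Finset.mem_univ _)]
    · rw [hB, if_neg hj]
      have e : ∀ b, f j (Function.update q j b) =
          if ‖C.c b - ctr j q‖ ≤ r j then C.v b else 0 := by
        intro b
        rw [hf, if_neg hj, Function.update_self,
          hctr_dep j (Function.update q j b) q hj (fun i hi => Function.update_of_ne hi.ne b q)]
      rw [Finset.sum_congr rfl (fun b _ => e b), ← Finset.sum_filter]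
      have hvol : volume (closedBall (ctr j q) (r j + h)) ≠ ⊤ :=
        (measure_closedBall_lt_top).ne
      have h1 := C.sum_le (Finset.univ.filter fun b => ‖C.c b - ctr j q‖ ≤ r j)
        (closedBall (ctr j q) (r j + h)) hvol (by
          intro b hb
          rw [Finset.mem_filter] at hb
          refine (C.sub b).trans (closedBall_subset_closedBall' ?_)
          rw [dist_eq_norm]
          linarith [hb.2])
      refine h1.trans (le_of_eq ?_)
      rw [vol_closedBall _ _ (by linarith [hr0 j])]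
      have := kap_pos d
      field_simp
  have hseq := seq_sum_le m f hf0 hdep B hB0 hsum
  have hterm : ∀ q : Fin m → Fin C.N, (if (∀ i j, |⟪C.c (q i), C.c (q j)⟫ - ⟪z i, z j⟫| ≤ δ) ∧
        (∀ j ∈ R, q j = a j) then ∏ j, (if j ∈ R then 1 else C.v (q j)) else 0) ≤
      ∏ j, f j q := by
    intro q
    split_ifs with hq
    · refine le_of_eq (Finset.prod_congr rfl fun j _ => ?_)
      rw [hf]
      by_cases hj : j ∈ R
      · rw [if_pos hj, if_pos hj, if_pos (hq.2 j hj)]
      · rw [if_neg hj, if_neg hj, if_pos]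
        have h1 := norm_comb z (fun i => C.c (q i)) (β j) δ (fun i k _ _ => hq.1 i k)
        have e1 := hcomb z j
        have e2 := hcomb (fun i => C.c (q i)) j
        rw [e1, e2, hρn, ← hA] at h1
        have e3 : ∑ i, α j i • C.c (q i) = ctr j q := by
          rw [hctr]
          refine Finset.sum_congr rfl fun i _ => ?_
          by_cases hi : i ∈ R
          · rw [if_pos hi, hq.2 i hi]
          · rw [if_neg hi]
        rw [e3] at h1
        rw [hr]
        apply Real.le_sqrt_of_sq_le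
        have := (abs_le.mp h1).2
        linarith
    · exact Finset.prod_nonneg fun j _ => hf0 j q
  have hfin : ∏ j, B j ≤ (Real.sqrt (gramS z Finset.univ / gramS z R) + γ) ^ d := by
    have e : ∏ j, B j = (∏ j, (if j ∈ R then 1 else r j + h)) ^ d := by
      rw [← Finset.prod_pow]
      refine Finset.prod_congr rfl fun j _ => ?_
      rw [hB]
      by_cases hj : j ∈ R
      · rw [if_pos hj, if_pos hj, one_pow]
      · rw [if_neg hj, if_neg hj]
    rw [e]
    refine pow_le_pow_left₀ (Finset.prod_nonneg fun j _ => ?_) ?_ d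
    · by_cases hj : j ∈ R
      · rw [if_pos hj]
        exact zero_le_one
      · rw [if_neg hj]
        linarith [hr0 j]
    · refine le_trans (Finset.prod_le_prod (fun j _ => ?_) (fun j _ => ?_)) htt.le
      · by_cases hj : j ∈ R
        · rw [if_pos hj]
          exact zero_le_one
        · rw [if_neg hj]
          linarith [hr0 j]
      · by_cases hj : j ∈ R
        · rw [if_pos hj, if_pos hj]
        · rw [if_neg hj, if_neg hj, hr]
          linarith
  exact (Finset.sum_le_sum fun q _ => hterm q).trans (hseq.trans hfin)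

end H949.VW
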