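import Pool.Agent.H949.VW.Defs
import Pool.Agent.H949.VW.Cells
import Pool.Agent.H949.VW.En
import Pool.Agent.H949.VW.Gram
import Pool.Agent.H949.VW.Pois
import Pool.Agent.H949.VW.Second
import Pool.Agent.H949.VW.Wr

set_option autoImplicit false

open MeasureTheory ProbabilityTheory Set Metric
open scoped RealInnerProductSpace ENNReal

namespace H949.VW

/-! ### Proofs

`m = 0` is trivial; let `m ≥ 1`. `D := gramS z univ > 1`. For nonempty `R`, `gramS z R > 1`, so `√(D / gramS z R) < √D`; choose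
`γ > 0` and `θ < 1` with `√(D / gramS z R) + γ ≤ θ √D` for all nonempty `R` (finitely many). Choose `δ' ≤ δ / 2` smaller than all
the `δ` of `wr_bound z R γ` and smaller than `‖z i - z j‖² / 5` for `i ≠ j` (`z i ≠ z j` because the Gram determinant of `{i, j}`
is nonzero). Choose `rad` with `‖z i‖ + 1 ≤ rad` and `h ≤ 1` smaller than the `h0` of `wr_bound` and of `en_bound` (with `δ'`),
and `2 rad h + h² ≤ δ / 2`. Let `C : Cells d rad h` (`exists_cells`), `A i = {ω | (Z ω ∩ C.Q i).Nonempty}`,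
`T = {q | ∀ i j, |⟪c (q i), c (q j)⟫ - ⟪z i, z j⟫| ≤ δ'}`. The elements of `T` are injective: `q i = q j` gives
`‖z i - z j‖² ≤ 4 δ'`. `second_moment` with `W R = (√(D / gramS z R) + γ) ^ d` (for `R` nonempty; for `R = ∅` any bound, e.g.
the sum itself, `W ∅ := ∑ …` — it does not enter): `P (A i) ≤ C.v i` and `wr_bound`. And
`∑_{q ∈ T} ∏ P (A (q j)) ≥ 2^{-m} ∑_{q ∈ T} ∏ C.v (q j) ≥ 4^{-m} (√D)^d`. So
`P (no q ∈ T has all cells occupied) ≤ 4^m ∑_R m^{|R|} θ^d ≤ ε` for large `d`. If all cells of `q ∈ T` are occupied choose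
`ζ j ∈ Z ω ∩ C.Q (q j)`; `‖ζ j - c (q j)‖ ≤ h`, `‖c‖ ≤ rad`, so `|⟪ζ i, ζ j⟫ - ⟪c (q i), c (q j)⟫| ≤ 2 rad h + h² ≤ δ / 2`.
(Convert between `P` and `toReal` with `ENNReal.le_ofReal_iff_toReal_le` or similar.)
-/

theorem find_minpos {ι : Type*} [Finite ι] (f : ι → ℝ) (hf : ∀ i, 0 < f i) :
    ∃ δ : ℝ, 0 < δ ∧ ∀ i, δ ≤ f i := by
  rcases isEmpty_or_nonempty ι with h | h
  · exact ⟨1, one_pos, fun i => (h.false i).elim⟩
  · obtain ⟨i0, hi0⟩ := Finite.exists_min f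
    exact ⟨f i0, hf i0, hi0⟩

theorem find_ne {n m : ℕ} (z : Fin m → E n)
    (hA : ∀ S : Finset (Fin m), S.Nonempty → 1 < gramS z S) {i j : Fin m} (hij : i ≠ j) :
    z i ≠ z j := by
  intro h
  have h1 := hA {i, j} ⟨i, Finset.mem_insert_self _ _⟩
  have h2 : gramS z {i, j} = 0 := by
    unfold gramS
    refine Matrix.det_zero_of_row_eq (i := ⟨i, Finset.mem_insert_self _ _⟩)
      (j := ⟨j, Finset.mem_insert_of_mem (Finset.mem_singleton_self _)⟩) ?_ ?_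
    · intro h3
      exact hij (congrArg Subtype.val h3)
    · funext k
      simp only [Matrix.of_apply]
      rw [h]
  rw [h2] at h1
  linarith

theorem find_inner {n : ℕ} {x y a b : E n} {rad h : ℝ} (hx : ‖x - a‖ ≤ h) (hy : ‖y - b‖ ≤ h)
    (ha : ‖a‖ ≤ rad) (hb : ‖b‖ ≤ rad) (hh : 0 ≤ h) (hr : 0 ≤ rad) :
    |⟪x, y⟫ - ⟪a, b⟫| ≤ 2 * rad * h + h ^ 2 := by
  have e : ⟪x, y⟫ - ⟪a, b⟫ = ⟪x - a, y - b⟫ + ⟪x - a, b⟫ + ⟪a, y - b⟫ := by
    simp only [inner_sub_left, inner_sub_right]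
    ring
  rw [e]
  have h1 : |⟪x - a, y - b⟫| ≤ h * h :=
    (abs_real_inner_le_norm _ _).trans (mul_le_mul hx hy (norm_nonneg _) hh)
  have h2 : |⟪x - a, b⟫| ≤ h * rad :=
    (abs_real_inner_le_norm _ _).trans (mul_le_mul hx hb (norm_nonneg _) hh)
  have h3 : |⟪a, y - b⟫| ≤ rad * h :=
    (abs_real_inner_le_norm _ _).trans (mul_le_mul ha hy (norm_nonneg _) hr)
  have h4 := abs_add_le (⟪x - a, y - b⟫ + ⟪x - a, b⟫) ⟪a, y - b⟫
  have h5 := abs_add_le ⟪x - a, y - b⟫ ⟪x - a, b⟫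
  nlinarith

theorem find_inj {n m d : ℕ} (z : Fin m → E n) {δ : ℝ} (hδ : 0 < δ)
    (hz : ∀ i j, i ≠ j → δ ≤ ‖z i - z j‖ ^ 2 / 5) {N : ℕ} (c : Fin N → E d) (q : Fin m → Fin N)
    (hq : ∀ i j, |⟪c (q i), c (q j)⟫ - ⟪z i, z j⟫| ≤ δ) : Function.Injective q := by
  intro i j hij
  by_contra hne
  have h1 := hz i j hne
  have h2 := abs_le.1 (hq i i)
  have h3 := abs_le.1 (hq i j)
  have h4 := abs_le.1 (hq j j)
  rw [← hij] at h3 h4
  have h5 : ‖z i - z j‖ ^ 2 = ⟪z i, z i⟫ - 2 * ⟪z i, z j⟫ + ⟪z j, z j⟫ := by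
    rw [← real_inner_self_eq_norm_sq]
    simp only [inner_sub_left, inner_sub_right]
    rw [real_inner_comm (z i) (z j)]
    ring
  rw [h5] at h1
  linarith [h2.1, h2.2, h3.1, h3.2, h4.1, h4.2]

/-- the main estimate for one dimension -/
theorem find_est {n m : ℕ} (z : Fin m → E n) (hA : ∀ S : Finset (Fin m), S.Nonempty → 1 < gramS z S)
    (hm : 0 < m) (δ : ℝ) (hδ : 0 < δ) : ∃ K θ : ℝ, 0 ≤ K ∧ 0 ≤ θ ∧ θ < 1 ∧
    ∃ d0 : ℕ, ∀ d ≥ d0, ∀ {Ω : Type*} [MeasurableSpace Ω] (P : Measure Ω) [IsProbabilityMeasure P]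
      (Z : Ω → Set (E d)), IsPoisson P Z (1 / kap d) →
      (P {ω | ¬ ∃ ζ : Fin m → E d, (∀ i, ζ i ∈ Z ω) ∧ ∀ i j, |⟪ζ i, ζ j⟫ - ⟪z i, z j⟫| ≤ δ}).toReal ≤
        K * θ ^ d := by
  classical
  have hne : (Finset.univ : Finset (Fin m)).Nonempty := ⟨⟨0, hm⟩, Finset.mem_univ _⟩
  obtain ⟨D, hD⟩ : ∃ D, D = gramS z Finset.univ := ⟨_, rfl⟩
  have hD1 : 1 < D := by rw [hD]; exact hA _ hne
  have hD0 : 0 < D := by linarith
  have hz : 0 < gramS z Finset.univ := by rw [← hD]; exact hD0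
  obtain ⟨s, hs⟩ : ∃ s, s = Real.sqrt D := ⟨_, rfl⟩
  have hs0 : 0 < s := by rw [hs]; exact Real.sqrt_pos.2 hD0
  obtain ⟨NE, hNE⟩ : ∃ NE : Finset (Finset (Fin m)),
      NE = (Finset.univ : Finset (Finset (Fin m))).filter (fun R => R.Nonempty) := ⟨_, rfl⟩
  have hNEn : NE.Nonempty := by
    rw [hNE]
    exact ⟨Finset.univ, Finset.mem_filter.2 ⟨Finset.mem_univ _, hne⟩⟩
  obtain ⟨R0, hR0, hmax⟩ := Finset.exists_max_image NE (fun R => Real.sqrt (D / gramS z R)) hNEn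
  obtain ⟨M, hM⟩ : ∃ M, M = Real.sqrt (D / gramS z R0) := ⟨_, rfl⟩
  have hM0 : 0 ≤ M := by rw [hM]; exact Real.sqrt_nonneg _
  have hMs : M < s := by
    rw [hM, hs]
    have h1 : 1 < gramS z R0 := hA R0 (by rw [hNE] at hR0; exact (Finset.mem_filter.1 hR0).2)
    refine Real.sqrt_lt_sqrt (by positivity) ?_
    exact div_lt_self hD0 h1
  obtain ⟨γ, hγ⟩ : ∃ γ, γ = (s - M) / 2 := ⟨_, rfl⟩
  have hγ0 : 0 < γ := by rw [hγ]; linarith
  obtain ⟨θ, hθ⟩ : ∃ θ, θ = (M + γ) / s := ⟨_, rfl⟩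
  have hθ0 : 0 ≤ θ := by rw [hθ]; positivity
  have hθ1 : θ < 1 := by
    rw [hθ, div_lt_one hs0, hγ]
    linarith
  have hθs : M + γ = θ * s := by
    rw [hθ]
    field_simp
  choose δw hw hδw hhw hwb using fun R => wr_bound z hz R γ hγ0
  obtain ⟨δ1, hδ10, hδ1⟩ := find_minpos δw hδw
  obtain ⟨δ2, hδ20, hδ2⟩ := find_minpos
    (fun p : Fin m × Fin m => if p.1 = p.2 then (1 : ℝ) else ‖z p.1 - z p.2‖ ^ 2 / 5) (by
      intro p
      split_ifs with h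
      · exact one_pos
      · have h1 : 0 < ‖z p.1 - z p.2‖ := norm_pos_iff.2 (sub_ne_zero.2 (find_ne z hA h))
        positivity)
  obtain ⟨h1, hh10, hh1⟩ := find_minpos hw hhw
  obtain ⟨δ', hδ'⟩ : ∃ δ', δ' = min (δ / 2) (min δ1 δ2) := ⟨_, rfl⟩
  have hδ'0 : 0 < δ' := by
    rw [hδ']
    exact lt_min (by positivity) (lt_min hδ10 hδ20)
  have hδ'a : δ' ≤ δ / 2 := by rw [hδ']; exact min_le_left _ _
  have hδ'b : ∀ R, δ' ≤ δw R := fun R => by
    rw [hδ']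
    exact ((min_le_right _ _).trans (min_le_left _ _)).trans (hδ1 R)
  have hδ'c : ∀ i j, i ≠ j → δ' ≤ ‖z i - z j‖ ^ 2 / 5 := fun i j hij => by
    have h2 : δ2 ≤ if i = j then (1 : ℝ) else ‖z i - z j‖ ^ 2 / 5 := hδ2 (i, j)
    rw [if_neg hij] at h2
    rw [hδ']
    exact ((min_le_right _ _).trans (min_le_right _ _)).trans h2
  obtain ⟨rad, hrad⟩ : ∃ rad, rad = ∑ i, ‖z i‖ + 1 := ⟨_, rfl⟩
  have hrad0 : 0 < rad := by
    rw [hrad]
    have : 0 ≤ ∑ i, ‖z i‖ := Finset.sum_nonneg fun i _ => norm_nonneg _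
    linarith
  have hradz : ∀ i, ‖z i‖ + 1 ≤ rad := fun i => by
    rw [hrad]
    have : ‖z i‖ ≤ ∑ i, ‖z i‖ :=
      Finset.single_le_sum (f := fun i => ‖z i‖) (fun i _ => norm_nonneg _) (Finset.mem_univ i)
    linarith
  obtain ⟨h2, hh20, hen⟩ := en_bound z hz rad hrad0 hradz δ' hδ'0
  obtain ⟨h, hhd⟩ : ∃ h, h = min (min 1 (δ / (2 * (2 * rad + 1)))) (min h1 h2) := ⟨_, rfl⟩
  have hh0 : 0 < h := by
    rw [hhd]
    exact lt_min (lt_min one_pos (by positivity)) (lt_min hh10 hh20)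
  have hha : h ≤ 1 := by rw [hhd]; exact (min_le_left _ _).trans (min_le_left _ _)
  have hhb : h ≤ δ / (2 * (2 * rad + 1)) := by
    rw [hhd]; exact (min_le_left _ _).trans (min_le_right _ _)
  have hhc : ∀ R, h ≤ hw R := fun R => by
    rw [hhd]; exact ((min_le_right _ _).trans (min_le_left _ _)).trans (hh1 R)
  have hhe : h ≤ h2 := by rw [hhd]; exact (min_le_right _ _).trans (min_le_right _ _)
  have hhδ : 2 * rad * h + h ^ 2 ≤ δ / 2 := by
    rw [le_div_iff₀ (by positivity)] at hhb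
    nlinarith
  obtain ⟨d0, hd0⟩ := hen h hh0 hhe
  obtain ⟨SS, hSS⟩ : ∃ SS, SS = ∑ R ∈ NE, (m : ℝ) ^ R.card := ⟨_, rfl⟩
  have hSS0 : 0 ≤ SS := by
    rw [hSS]
    exact Finset.sum_nonneg fun R _ => pow_nonneg (Nat.cast_nonneg m) _
  have h40 : (0 : ℝ) < 4 ^ m := pow_pos (by norm_num) m
  refine ⟨4 ^ m * SS, θ, mul_nonneg h40.le hSS0, hθ0, hθ1, d0, ?_⟩
  intro d hd Ω _ P _ Z hZ
  obtain ⟨C⟩ := exists_cells d rad h hrad0.le hh0
  obtain ⟨A, hAd⟩ : ∃ A : Fin C.N → Set Ω, A = fun i => {ω | (Z ω ∩ C.Q i).Nonempty} := ⟨_, rfl⟩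
  have hAm : ∀ i, MeasurableSet (A i) := fun i => by
    rw [hAd]
    exact occ_meas P Z hZ (C.Q i) (C.meas i)
  have hAi : iIndepSet A P := by
    rw [hAd]
    exact cells_indep P Z hZ C
  have hAo : ∀ i, C.v i / 2 ≤ (P (A i)).toReal ∧ (P (A i)).toReal ≤ C.v i := fun i => by
    rw [hAd]
    exact cells_occ P Z hZ hh0 hha C i
  obtain ⟨T, hT⟩ : ∃ T : Finset (Fin m → Fin C.N), T = Finset.univ.filter
      (fun q => ∀ i j, |⟪C.c (q i), C.c (q j)⟫ - ⟪z i, z j⟫| ≤ δ') := ⟨_, rfl⟩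
  have hTi : ∀ q ∈ T, Function.Injective q := by
    intro q hq
    rw [hT] at hq
    exact find_inj z hδ'0 hδ'c C.c q (Finset.mem_filter.1 hq).2
  have hv0 : ∀ i, 0 ≤ C.v i := fun i => C.v_nonneg i
  -- the upper bounds
  have hW : ∀ (R : Finset (Fin m)) (a : Fin m → Fin C.N),
      ∑ q ∈ T.filter (fun q => ∀ j ∈ R, q j = a j),
        ∏ j, (if j ∈ R then 1 else (P (A (q j))).toReal) ≤
        (Real.sqrt (D / gramS z R) + γ) ^ d := by
    intro R a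
    have h3 := hwb R h hh0 (hhc R) rad d C a
    rw [← hD] at h3
    refine le_trans ?_ h3
    rw [hT, Finset.filter_filter, Finset.sum_filter]
    refine Finset.sum_le_sum fun q _ => ?_
    by_cases hc : (∀ i j, |⟪C.c (q i), C.c (q j)⟫ - ⟪z i, z j⟫| ≤ δ') ∧ ∀ j ∈ R, q j = a j
    · rw [if_pos hc, if_pos ⟨fun i j => (hc.1 i j).trans (hδ'b R), hc.2⟩]
      refine Finset.prod_le_prod (fun j _ => ?_) fun j _ => ?_
      · split_ifs
        · exact zero_le_one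
        · exact ENNReal.toReal_nonneg
      · split_ifs
        · exact le_refl _
        · exact (hAo (q j)).2
    · rw [if_neg hc]
      split_ifs
      · refine Finset.prod_nonneg fun j _ => ?_
        split_ifs
        · exact zero_le_one
        · exact hv0 _
      · exact le_refl _
  -- the lower bound
  have hE : s ^ d / 4 ^ m ≤ ∑ q ∈ T, ∏ j, (P (A (q j))).toReal := by
    have h3 := hd0 d hd C
    rw [← hD, ← hs, ← Finset.sum_filter] at h3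
    have h4 : ∑ q ∈ T, (∏ j, C.v (q j)) / 2 ^ m ≤ ∑ q ∈ T, ∏ j, (P (A (q j))).toReal := by
      refine Finset.sum_le_sum fun q _ => ?_
      have h5 : (∏ j, C.v (q j)) / 2 ^ m = ∏ j, (C.v (q j) / 2) := by
        rw [Finset.prod_div_distrib, Finset.prod_const, Finset.card_univ, Fintype.card_fin]
      rw [h5]
      exact Finset.prod_le_prod (fun j _ => by have := hv0 (q j); positivity)
        fun j _ => (hAo (q j)).1
    refine le_trans ?_ h4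
    rw [← Finset.sum_div, hT]
    have h6 : s ^ d / 4 ^ m = s ^ d / 2 ^ m / 2 ^ m := by
      rw [div_div, ← mul_pow]
      norm_num
    rw [h6]
    refine div_le_div_of_nonneg_right ?_ (by positivity)
    refine h3.trans (le_of_eq ?_)
    refine Finset.sum_congr ?_ fun q _ => rfl
    ext q
    simp only [Finset.mem_filter, Finset.mem_univ, true_and]
  have hsd : 0 < s ^ d / 4 ^ m := by positivity
  have hEpos : 0 < ∑ q ∈ T, ∏ j, (P (A (q j))).toReal := hsd.trans_le hE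
  have h7 := second_moment P A hAm hAi m T hTi (fun R => (Real.sqrt (D / gramS z R) + γ) ^ d) (by
    intro R a
    refine le_trans (le_of_eq ?_) (hW R a)
    refine Finset.sum_congr ?_ fun q _ => Finset.prod_congr rfl fun j _ => by split_ifs <;> rfl
    ext q
    simp only [Finset.mem_filter]) hEpos
  have h8 : (P {ω | ¬ ∃ ζ : Fin m → E d, (∀ i, ζ i ∈ Z ω) ∧
      ∀ i j, |⟪ζ i, ζ j⟫ - ⟪z i, z j⟫| ≤ δ}).toReal ≤
      (P {ω | ¬ ∃ q ∈ T, ∀ j, ω ∈ A (q j)}).toReal := by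
    refine ENNReal.toReal_mono (measure_ne_top P _) (measure_mono ?_)
    intro ω hω hq
    apply hω
    obtain ⟨q, hq, hqA⟩ := hq
    have h9 : ∀ j, ∃ x, x ∈ Z ω ∧ x ∈ C.Q (q j) := fun j => by
      have h10 := hqA j
      rw [hAd] at h10
      obtain ⟨x, hx⟩ := h10
      exact ⟨x, hx.1, hx.2⟩
    choose ζ hζ1 hζ2 using h9
    refine ⟨ζ, hζ1, fun i j => ?_⟩
    have h11 : ∀ i, ‖ζ i - C.c (q i)‖ ≤ h := fun i => by
      have := C.sub (q i) (hζ2 i)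
      rwa [mem_closedBall, dist_eq_norm] at this
    have h12 := find_inner (h11 i) (h11 j) (C.cR (q i)) (C.cR (q j)) hh0.le hrad0.le
    rw [hT] at hq
    have h13 := (Finset.mem_filter.1 hq).2 i j
    have h14 := abs_sub_le ⟪ζ i, ζ j⟫ ⟪C.c (q i), C.c (q j)⟫ ⟪z i, z j⟫
    linarith
  refine h8.trans (h7.trans ?_)
  rw [div_le_iff₀ hEpos]
  have h15 : ∑ R ∈ NE, (m : ℝ) ^ R.card * (Real.sqrt (D / gramS z R) + γ) ^ d ≤
      (∑ R ∈ NE, (m : ℝ) ^ R.card) * (θ * s) ^ d := by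
    rw [Finset.sum_mul]
    refine Finset.sum_le_sum fun R hR => ?_
    refine mul_le_mul_of_nonneg_left ?_ (pow_nonneg (Nat.cast_nonneg m) _)
    refine pow_le_pow_left₀ (add_nonneg (Real.sqrt_nonneg _) hγ0.le) ?_ d
    have h16 : Real.sqrt (D / gramS z R) ≤ M := by
      rw [hM]
      exact hmax R hR
    linarith
  have h17 : SS * (θ * s) ^ d = (4 ^ m * SS) * θ ^ d * (s ^ d / 4 ^ m) := by
    rw [mul_pow]
    field_simp
  have h18 : (4 ^ m * SS) * θ ^ d * (s ^ d / 4 ^ m) ≤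
      (4 ^ m * SS) * θ ^ d * ∑ q ∈ T, ∏ j, (P (A (q j))).toReal :=
    mul_le_mul_of_nonneg_left hE (mul_nonneg (mul_nonneg h40.le hSS0) (pow_nonneg hθ0 d))
  rw [← hSS] at h15
  rw [← hNE]
  exact (h15.trans (le_of_eq h17)).trans h18

theorem find_tuple {n m : ℕ} (z : Fin m → E n)
    (hA : ∀ S : Finset (Fin m), S.Nonempty → 1 < gramS z S) (δ ε : ℝ) (hδ : 0 < δ) (hε : 0 < ε) :
    ∃ d0 : ℕ, ∀ d ≥ d0, ∀ {Ω : Type*} [MeasurableSpace Ω] (P : Measure Ω) [IsProbabilityMeasure P]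
      (Z : Ω → Set (E d)), IsPoisson P Z (1 / kap d) →
      P {ω | ¬ ∃ ζ : Fin m → E d, (∀ i, ζ i ∈ Z ω) ∧ ∀ i j, |⟪ζ i, ζ j⟫ - ⟪z i, z j⟫| ≤ δ} ≤
        ENNReal.ofReal ε := by
  rcases Nat.eq_zero_or_pos m with hm | hm
  · subst hm
    refine ⟨0, fun d _ Ω _ P _ Z _ => ?_⟩
    have h1 : {ω | ¬ ∃ ζ : Fin 0 → E d, (∀ i, ζ i ∈ Z ω) ∧
        ∀ i j, |⟪ζ i, ζ j⟫ - ⟪z i, z j⟫| ≤ δ} = ∅ := by
      rw [Set.eq_empty_iff_forall_notMem]
      intro ω hω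
      exact hω ⟨fun i => i.elim0, fun i => i.elim0, fun i => i.elim0⟩
    rw [h1, measure_empty]
    exact zero_le
  · obtain ⟨K, θ, hK, hθ0, hθ1, d0, hd0⟩ := find_est z hA hm δ hδ
    have ht : Filter.Tendsto (fun d : ℕ => K * θ ^ d) Filter.atTop (nhds (K * 0)) :=
      (tendsto_pow_atTop_nhds_zero_of_lt_one hθ0 hθ1).const_mul K
    rw [mul_zero] at ht
    obtain ⟨d1, hd1⟩ := Filter.eventually_atTop.1 (ht.eventually (gt_mem_nhds hε))
    refine ⟨max d0 d1, fun d hd Ω _ P _ Z hZ => ?_⟩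
    have h1 := hd0 d ((le_max_left _ _).trans hd) P Z hZ
    have h2 := hd1 d ((le_max_right _ _).trans hd)
    rw [← ENNReal.ofReal_toReal (measure_ne_top P _)]
    exact ENNReal.ofReal_le_ofReal (h1.trans h2.le)


end H949.VW
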