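import Pool.Agent.H949.VW.Defs
import Pool.Agent.H949.VW.Cst
import Pool.Agent.H949.VW.Wid

set_option autoImplicit false

open MeasureTheory ProbabilityTheory Set Metric
open scoped RealInnerProductSpace ENNReal

namespace H949.VW

/-! ### Proofs

Let `V = cell Z`; `x ∈ V` iff `2 ⟪x, y⟫ ≤ ‖y‖²` for all `y ∈ Z`. Let `K' = KZ z ∩ L`.
1. `(1 - η) • K' ⊆ V`: let `x = (1 - η) • x'`, `x' ∈ K'`, and `y ∈ Z`. If `y = z i`:
   `2 ⟪x, y⟫ ≤ (1 - η) ‖y‖² ≤ ‖y‖²`. If `‖y‖ ≥ 2`: `2 ⟪x, y⟫ ≤ 2 ‖y‖ ≤ ‖y‖²`. Otherwise write `y = a + b` with `a ∈ L`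
   the orthogonal projection, `b ⊥ L`, `‖b‖ = infDist y L ≥ 1 - η ≥ ‖x‖`, and
   `2 ⟪x, y⟫ = 2 ⟪x, a⟫ ≤ ‖x‖² + ‖a‖² ≤ ‖b‖² + ‖a‖² = ‖y‖²`.
2. for `x ∈ KZ z` the projection `P_L x` lies in `K'` and `⟪u, P_L x⟫ = ⟪u, x⟫` (`u, z i ∈ L`), so by
   `wid_le_of_map_smul`, `(1 - η) wid u (KZ z) ≤ wid u V` (use it with `s = 1 / (1 - η)`: every `x ∈ KZ z` has
   `y = (1 - η) • P_L x ∈ V` with `⟪u, x⟫ = s ⟪u, y⟫`).
3. `cst_le`.
-/

theorem gl_norm_add_sq {d : ℕ} (L : Submodule ℝ (E d)) (a b : E d) (ha : a ∈ L) (hb : b ∈ Lᗮ) :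
    ‖a + b‖ ^ 2 = ‖a‖ ^ 2 + ‖b‖ ^ 2 := by
  rw [norm_add_sq_real, Submodule.inner_right_of_mem_orthogonal ha hb]
  ring

theorem gl_mem_cell {d : ℕ} (Z : Set (E d)) (x : E d)
    (h : ∀ w ∈ Z, 2 * ⟪x, w⟫ ≤ ‖w‖ ^ 2) : x ∈ cell Z := by
  intro w hw
  have h1 := h w hw
  have h2 := norm_sub_sq_real x w
  have h3 : ‖x‖ ^ 2 ≤ ‖x - w‖ ^ 2 := by rw [h2]; linarith
  exact (sq_le_sq₀ (norm_nonneg _) (norm_nonneg _)).1 h3

theorem gl_mem {d k : ℕ} (η : ℝ) (h0 : 0 < η) (h1 : η < 1) (Z : Set (E d)) (z : Fin k → E d)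
    (L : Submodule ℝ (E d))
    (hfar : ∀ x ∈ Z, x ∉ Set.range z → ‖x‖ < 2 → 1 - η ≤ infDist x (L : Set (E d)))
    (p : E d) (hpL : p ∈ L) (hp : ‖p‖ ≤ 1) (hpz : ∀ i, ⟪p, z i⟫ ≤ ‖z i‖ ^ 2 / 2) :
    (1 - η) • p ∈ cell Z := by
  have hη : 0 < 1 - η := by linarith
  have hn : ‖(1 - η) • p‖ ≤ 1 - η := by
    rw [norm_smul, Real.norm_of_nonneg hη.le]
    nlinarith [norm_nonneg p]
  apply gl_mem_cell
  intro w hw
  by_cases hwz : w ∈ Set.range z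
  · obtain ⟨i, rfl⟩ := hwz
    rw [real_inner_smul_left]
    have := hpz i
    have hs : 0 ≤ ‖z i‖ ^ 2 := sq_nonneg _
    nlinarith
  · by_cases hw2 : ‖w‖ < 2
    · have hf := hfar w hw hwz hw2
      obtain ⟨a, ha, b, hb, hab⟩ := L.exists_add_mem_mem_orthogonal w
      have hd : infDist w (L : Set (E d)) ≤ ‖b‖ := by
        have := infDist_le_dist_of_mem (x := w) (y := a) (s := (L : Set (E d))) ha
        rw [dist_eq_norm] at this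
        have e : w - a = b := by rw [hab]; abel
        rwa [e] at this
      have hb1 : ‖(1 - η) • p‖ ≤ ‖b‖ := hn.trans (hf.trans hd)
      have e1 : ⟪(1 - η) • p, w⟫ = ⟪(1 - η) • p, a⟫ := by
        rw [hab, inner_add_right,
          Submodule.inner_right_of_mem_orthogonal (L.smul_mem _ hpL) hb, add_zero]
      have e2 : ‖w‖ ^ 2 = ‖a‖ ^ 2 + ‖b‖ ^ 2 := by
        rw [hab, gl_norm_add_sq L a b ha hb]
      have e3 : 2 * ⟪(1 - η) • p, a⟫ ≤ ‖(1 - η) • p‖ ^ 2 + ‖a‖ ^ 2 := by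
        have := norm_sub_sq_real ((1 - η) • p) a
        have h2 : 0 ≤ ‖(1 - η) • p - a‖ ^ 2 := sq_nonneg _
        linarith
      have e4 : ‖(1 - η) • p‖ ^ 2 ≤ ‖b‖ ^ 2 :=
        pow_le_pow_left₀ (norm_nonneg _) hb1 2
      rw [e1, e2]
      linarith
    · rw [not_lt] at hw2
      have h2 := real_inner_le_norm ((1 - η) • p) w
      have h3 : ‖(1 - η) • p‖ * ‖w‖ ≤ 1 * ‖w‖ :=
        mul_le_mul_of_nonneg_right (hn.trans (by linarith)) (norm_nonneg _)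
      nlinarith

theorem gl {d k : ℕ} (η : ℝ) (h0 : 0 < η) (h1 : η < 1) (Z : Set (E d)) (z : Fin k → E d)
    (L : Submodule ℝ (E d)) (hzL : ∀ i, z i ∈ L) (u : E d) (hu : ‖u‖ = 1) (huL : u ∈ L)
    (hg : ∀ S : Finset (Fin k), 1 - η ≤ gramS z S)
    (hfar : ∀ x ∈ Z, x ∉ Set.range z → ‖x‖ < 2 → 1 - η ≤ infDist x (L : Set (E d)))
    (R : ℝ) (hR : cell Z ⊆ closedBall 0 R) : (1 - η) ^ 2 * cst ≤ wid u (cell Z) := by
  have hη : 0 < 1 - η := by linarith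
  have hne : (KZ z).Nonempty := by
    refine ⟨0, ?_, fun i => ?_⟩
    · rw [norm_zero]; norm_num
    · rw [inner_zero_left]; positivity
  have hw : wid u (KZ z) ≤ (1 - η)⁻¹ * wid u (cell Z) := by
    apply wid_le_of_map_smul u u (KZ z) (cell Z) hne R (1 - η)⁻¹ (inv_nonneg.2 hη.le) hR
    rintro x ⟨hx1, hx2⟩
    obtain ⟨p, hp, r, hr, hpr⟩ := L.exists_add_mem_mem_orthogonal x
    have hnp : ‖p‖ ≤ 1 := by
      have h2 := gl_norm_add_sq L p r hp hr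
      rw [← hpr] at h2
      have h3 : ‖p‖ ^ 2 ≤ ‖x‖ ^ 2 := by
        rw [h2]
        have := sq_nonneg ‖r‖
        linarith
      exact ((sq_le_sq₀ (norm_nonneg _) (norm_nonneg _)).1 h3).trans hx1
    have hin : ∀ y ∈ L, ⟪y, x⟫ = ⟪y, p⟫ := by
      intro y hy
      rw [hpr, inner_add_right, Submodule.inner_right_of_mem_orthogonal hy hr, add_zero]
    refine ⟨(1 - η) • p, gl_mem η h0 h1 Z z L hfar p hp hnp (fun i => ?_), ?_⟩
    · rw [real_inner_comm, ← hin (z i) (hzL i), real_inner_comm]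
      exact hx2 i
    · rw [real_inner_smul_right, ← mul_assoc, inv_mul_cancel₀ hη.ne', one_mul, hin u huL]
  have hc := cst_le z u hu η h0 h1 hg
  have h3 : (1 - η) * ((1 - η) * cst) ≤ (1 - η) * wid u (KZ z) :=
    mul_le_mul_of_nonneg_left hc hη.le
  have h4 : (1 - η) * wid u (KZ z) ≤ (1 - η) * ((1 - η)⁻¹ * wid u (cell Z)) :=
    mul_le_mul_of_nonneg_left hw hη.le
  rw [← mul_assoc, mul_inv_cancel₀ hη.ne', one_mul] at h4
  calc (1 - η) ^ 2 * cst = (1 - η) * ((1 - η) * cst) := by ring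
    _ ≤ _ := h3.trans h4


end H949.VW
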