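import Pool.Agent.H949.VW.Defs
import Pool.Agent.H949.VW.Cst
import Pool.Agent.H949.VW.Gl
import Pool.Agent.H949.VW.Gram
import Pool.Agent.H949.VW.Wid

set_option autoImplicit false

open MeasureTheory ProbabilityTheory Set Metric
open scoped RealInnerProductSpace ENNReal

namespace H949.VW

/-! ### Auxiliary lemmas -/

theorem greedy_iter {d : ℕ} (Q : ∀ k, (Fin k → E d) → Prop) (k0 : ℕ) (z0 : Fin k0 → E d)
    (h0 : Q k0 z0) (N : ℕ) (hN : k0 ≤ N) :
    (∃ z : Fin N → E d, Q N z) ∨ ∃ n, k0 ≤ n ∧ n < N ∧ ∃ z : Fin n → E d, Q n z ∧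
      ∀ x, ¬ Q (n + 1) (Fin.snoc z x) := by
  induction N, hN using Nat.le_induction with
  | base => exact Or.inl ⟨z0, h0⟩
  | succ N hN ih =>
    rcases ih with ⟨z, hz⟩ | ⟨n, h1, h2, h3⟩
    · by_cases h : ∃ x, Q (N + 1) (Fin.snoc z x)
      · obtain ⟨x, hx⟩ := h
        exact Or.inl ⟨_, hx⟩
      · push Not at h
        exact Or.inr ⟨N, hN, Nat.lt_succ_self N, z, hz, h⟩
    · exact Or.inr ⟨n, h1, h2.trans (Nat.lt_succ_self N), h3⟩

theorem greedy_image_cast {d n : ℕ} (z : Fin n → E d) (x : E d) (j : Fin n) :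
    (Fin.snoc z x : Fin (n + 1) → E d) '' {i | i < j.castSucc} = z '' {i | i < j} := by
  ext v
  constructor
  · rintro ⟨i, hi, rfl⟩
    have hi' : i < j.castSucc := hi
    obtain ⟨i', rfl⟩ : ∃ i' : Fin n, i = i'.castSucc :=
      ⟨⟨i.val, lt_trans hi' j.isLt⟩, Fin.ext rfl⟩
    exact ⟨i', by simpa using hi', by simp⟩
  · rintro ⟨i, hi, rfl⟩
    exact ⟨i.castSucc, by simpa using hi, by simp⟩

theorem greedy_image_last {d n : ℕ} (z : Fin n → E d) (x : E d) :
    (Fin.snoc z x : Fin (n + 1) → E d) '' {i | i < Fin.last n} = Set.range z := by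
  ext v
  constructor
  · rintro ⟨i, hi, rfl⟩
    have hi' : i < Fin.last n := hi
    obtain ⟨i', rfl⟩ : ∃ i' : Fin n, i = i'.castSucc := ⟨⟨i.val, hi'⟩, Fin.ext rfl⟩
    exact ⟨i', by simp⟩
  · rintro ⟨i, rfl⟩
    exact ⟨i.castSucc, Fin.castSucc_lt_last i, by simp⟩

/-- an injective family in `Z ∩ ball 0 2` -/
def greedy_B {d : ℕ} (Z : Set (E d)) {k : ℕ} (z : Fin k → E d) : Prop :=
  Function.Injective z ∧ ∀ i, z i ∈ Z ∧ ‖z i‖ < 2

theorem greedy_B_snoc {d : ℕ} {Z : Set (E d)} {k : ℕ} {z : Fin k → E d} (hz : greedy_B Z z)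
    {x : E d} (h1 : x ∈ Z) (h2 : x ∉ Set.range z) (h3 : ‖x‖ < 2) :
    greedy_B Z (Fin.snoc z x : Fin (k + 1) → E d) := by
  refine ⟨Fin.snoc_injective_of_injective hz.1 h2, ?_⟩
  intro i
  induction i using Fin.lastCases with
  | last => simpa using ⟨h1, h3⟩
  | cast i => simpa using hz.2 i

/-- the chains -/
def greedy_C {d : ℕ} (Z : Set (E d)) (A : Set (E d)) (k0 : ℕ) (r : ℝ) (k : ℕ) (z : Fin k → E d) :
    Prop :=
  greedy_B Z z ∧ ∀ j : Fin k, k0 ≤ j.val →
    infDist (z j) (Submodule.span ℝ (A ∪ z '' {i | i < j}) : Set (E d)) ≤ r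

theorem greedy_C_snoc {d : ℕ} {Z A : Set (E d)} {k0 : ℕ} {r : ℝ} {k : ℕ} {z : Fin k → E d}
    (hz : greedy_C Z A k0 r k z) {x : E d} (h1 : x ∈ Z) (h2 : x ∉ Set.range z) (h3 : ‖x‖ < 2)
    (h4 : infDist x (Submodule.span ℝ (A ∪ Set.range z) : Set (E d)) ≤ r) :
    greedy_C Z A k0 r (k + 1) (Fin.snoc z x) := by
  refine ⟨greedy_B_snoc hz.1 h1 h2 h3, ?_⟩
  intro j
  induction j using Fin.lastCases with
  | last =>
    intro _
    rw [greedy_image_last, Fin.snoc_last]
    exact h4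
  | cast j =>
    intro hj
    rw [greedy_image_cast, Fin.snoc_castSucc]
    exact hz.2 j hj

theorem greedy_gram {d : ℕ} {Z : Set (E d)} {M : ℕ} {r : ℝ}
    (H : ∀ k ≤ M, ∀ z : Fin k → E d, Function.Injective z → (∀ i, z i ∈ Z ∧ ‖z i‖ < 2) →
      r ≤ gramS z Finset.univ) {k : ℕ} (hk : k ≤ M) {z : Fin k → E d} (hz : greedy_B Z z)
    (S : Finset (Fin k)) : r ≤ gramS z S := by
  have h1 := H S.card ((Finset.card_le_univ S).trans (by rw [Fintype.card_fin]; exact hk))
    (fun i => z (S.orderEmbOfFin rfl i)) (hz.1.comp (S.orderEmbOfFin rfl).injective)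
    (fun i => hz.2 _)
  have h2 := gramS_comp z (S.orderEmbOfFin rfl).toEmbedding Finset.univ
  rw [Finset.map_orderEmbOfFin_univ] at h2
  rw [← h2]
  exact h1

/-- the conclusion at a maximal chain -/
theorem greedy_stop {d : ℕ} {Z A : Set (E d)} {M k0 : ℕ} {η : ℝ} (h0 : 0 < η) (h1 : η < 1)
    (H : ∀ k ≤ M, ∀ z : Fin k → E d, Function.Injective z → (∀ i, z i ∈ Z ∧ ‖z i‖ < 2) →
      1 - η ≤ gramS z Finset.univ) (hR : cell Z ⊆ closedBall 0 2) {k : ℕ} (hk : k ≤ M)
    {z : Fin k → E d} (hz : greedy_C Z A k0 (1 - η) k z)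
    (hmax : ∀ x, ¬ greedy_C Z A k0 (1 - η) (k + 1) (Fin.snoc z x)) (u : E d) (hu : ‖u‖ = 1)
    (hu2 : u ∈ Submodule.span ℝ (A ∪ Set.range z)) : (1 - η) ^ 2 * cst ≤ wid u (cell Z) := by
  refine gl η h0 h1 Z z (Submodule.span ℝ (A ∪ Set.range z)) ?_ u hu hu2 ?_ ?_ 2 hR
  · intro i
    exact Submodule.subset_span (Or.inr ⟨i, rfl⟩)
  · exact greedy_gram H hk hz.1
  · intro x hx hx2 hx3
    by_contra h
    push Not at h
    exact hmax x (greedy_C_snoc hz hx hx2 hx3 h.le)

theorem greedy_infDist_le {d : ℕ} (L : Submodule ℝ (E d)) (x : E d) :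
    infDist x (L : Set (E d)) ≤ ‖x‖ := by
  have := infDist_le_dist_of_mem (x := x) (s := (L : Set (E d))) L.zero_mem
  rwa [dist_zero_right] at this

/-- the first phase: the vector `u` is near the span of a full chain -/
theorem greedy_one {d k : ℕ} {Z : Set (E d)} {r : ℝ} (hr : 0 ≤ r) {z : Fin k → E d} {u : E d}
    (hu : ‖u‖ = 1) (hz : greedy_C Z {u} 0 r k z) (hg : r ≤ gramS z Finset.univ) :
    r * (infDist u (Submodule.span ℝ (Set.range z) : Set (E d))) ^ 2 ≤ (r ^ k) ^ 2 := by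
  set y : Fin (k + 1) → E d := Fin.snoc z u with hy
  have e0 : Finset.univ = insert (Fin.last k) (Finset.univ.map Fin.castSuccEmb) := by
    ext i
    induction i using Fin.lastCases with
    | last => simp
    | cast i => simp
  have e1 : gramS y Finset.univ = gramS z Finset.univ *
      (infDist u (Submodule.span ℝ (Set.range z) : Set (E d))) ^ 2 := by
    rw [e0, gramS_insert y _ _ (by simp)]
    have h1 := gramS_comp y Fin.castSuccEmb Finset.univ
    rw [← h1]
    have h2 : (fun i => y (Fin.castSuccEmb i)) = z := by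
      funext i
      simp [hy]
    rw [h2]
    have h3 : y (Fin.last k) = u := by simp [hy]
    have h4 : y '' ((Finset.univ.map Fin.castSuccEmb : Finset (Fin (k + 1))) : Set (Fin (k + 1))) =
        Set.range z := by
      rw [← greedy_image_last z u]
      congr 1
      ext i
      induction i using Fin.lastCases with
      | last => simp
      | cast i => simp
    rw [h3, h4]
  have e2 : gramS y {Fin.last k} = 1 := by
    have h1 := gramS_insert y ∅ (Fin.last k) (by simp)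
    rw [gramS_empty, one_mul] at h1
    have h3 : y (Fin.last k) = u := by simp [hy]
    rw [h3] at h1
    have h4 : (insert (Fin.last k) (∅ : Finset (Fin (k + 1)))) = {Fin.last k} := by simp
    rw [h4] at h1
    rw [h1]
    simp [hu]
  have e3 := gramS_univ y {Fin.last k}
  rw [e2, one_mul, Fin.prod_univ_castSucc] at e3
  have e4 : ∀ j : Fin k, (if j.castSucc ∈ ({Fin.last k} : Finset (Fin (k + 1))) then (1 : ℝ) else
      (infDist (y j.castSucc) (Submodule.span ℝ (y '' {i | i ∈ ({Fin.last k} : Finset (Fin (k + 1)))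
        ∨ i < j.castSucc}) : Set (E d))) ^ 2) ≤ r ^ 2 := by
    intro j
    rw [if_neg (by simp)]
    have h1 : y '' {i | i ∈ ({Fin.last k} : Finset (Fin (k + 1))) ∨ i < j.castSucc} =
        {u} ∪ z '' {i | i < j} := by
      rw [← greedy_image_cast z u j, ← hy]
      ext v
      constructor
      · rintro ⟨i, hi, rfl⟩
        rcases hi with hi | hi
        · left
          rw [Finset.mem_singleton] at hi
          rw [hi]
          simp [hy]
        · right
          exact ⟨i, hi, rfl⟩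
      · rintro (hv | ⟨i, hi, rfl⟩)
        · rw [Set.mem_singleton_iff] at hv
          refine ⟨Fin.last k, Or.inl (by simp), ?_⟩
          rw [hv]
          simp [hy]
        · exact ⟨i, Or.inr hi, rfl⟩
    have h2 : y j.castSucc = z j := by simp [hy]
    rw [h1, h2]
    exact pow_le_pow_left₀ infDist_nonneg (hz.2 j (Nat.zero_le _)) 2
  have e5 : gramS y Finset.univ ≤ (r ^ k) ^ 2 := by
    rw [e3, if_pos (by simp), mul_one]
    calc _ ≤ ∏ j : Fin k, r ^ 2 := by
          refine Finset.prod_le_prod (fun j _ => ?_) (fun j _ => e4 j)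
          split_ifs <;> positivity
      _ = (r ^ k) ^ 2 := by
          rw [Finset.prod_const, Finset.card_univ, Fintype.card_fin, ← pow_mul, ← pow_mul, mul_comm]
  calc _ ≤ gramS z Finset.univ * (infDist u (Submodule.span ℝ (Set.range z) : Set (E d))) ^ 2 :=
        mul_le_mul_of_nonneg_right hg (by positivity)
    _ ≤ _ := by
        rw [← e1]
        exact e5

/-- the second phase: the chains are short -/
theorem greedy_two {d k0 J : ℕ} {Z A : Set (E d)} {r : ℝ} (hr : 0 ≤ r) {z : Fin (k0 + J) → E d}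
    (hz : greedy_C Z A k0 r (k0 + J) z) (hA : A = ∅) :
    gramS z Finset.univ ≤ 4 ^ k0 * (r ^ 2) ^ J := by
  have e3 := gramS_univ z ∅
  rw [gramS_empty, one_mul, Fin.prod_univ_add] at e3
  rw [e3]
  have e4 : ∀ j : Fin (k0 + J), (if j ∈ (∅ : Finset (Fin (k0 + J))) then (1 : ℝ) else
      (infDist (z j) (Submodule.span ℝ (z '' {i | i ∈ (∅ : Finset (Fin (k0 + J)))
        ∨ i < j}) : Set (E d))) ^ 2) =
      (infDist (z j) (Submodule.span ℝ (A ∪ z '' {i | i < j}) : Set (E d))) ^ 2 := by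
    intro j
    rw [if_neg (by simp)]
    have h1 : {i | i ∈ (∅ : Finset (Fin (k0 + J))) ∨ i < j} = {i | i < j} := by
      ext i
      simp
    rw [h1, hA, Set.empty_union]
  simp only [e4]
  refine mul_le_mul ?_ ?_ (Finset.prod_nonneg fun j _ => by positivity) (by positivity)
  · calc _ ≤ ∏ j : Fin k0, (4 : ℝ) := by
          refine Finset.prod_le_prod (fun j _ => by positivity) (fun j _ => ?_)
          have h1 := (greedy_infDist_le (Submodule.span ℝ (A ∪ z '' {i | i < Fin.castAdd J j}))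
            (z (Fin.castAdd J j))).trans (hz.1.2 _).2.le
          calc _ ≤ (2 : ℝ) ^ 2 := pow_le_pow_left₀ infDist_nonneg h1 2
            _ = 4 := by norm_num
      _ = 4 ^ k0 := by
          rw [Finset.prod_const, Finset.card_univ, Fintype.card_fin]
  · calc _ ≤ ∏ j : Fin J, r ^ 2 := by
          refine Finset.prod_le_prod (fun j _ => by positivity) (fun j _ => ?_)
          exact pow_le_pow_left₀ infDist_nonneg (hz.2 _ (by simp)) 2
      _ = (r ^ 2) ^ J := by
          rw [Finset.prod_const, Finset.card_univ, Fintype.card_fin]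

/-- a unit vector of `L` near `u` -/
theorem greedy_unit {d : ℕ} (L : Submodule ℝ (E d)) (u : E d) (hu : ‖u‖ = 1) {t : ℝ}
    (ht : t ≤ 1 / 2) (h : infDist u (L : Set (E d)) ≤ t) :
    ∃ v ∈ L, ‖v‖ = 1 ∧ ‖v - u‖ ≤ 2 * t := by
  obtain ⟨p, hp, hd⟩ := (Submodule.closed_of_finiteDimensional L).exists_infDist_eq_dist
    ⟨0, L.zero_mem⟩ u
  rw [hd, dist_eq_norm] at h
  have h1 : 1 - t ≤ ‖p‖ := by
    have := norm_sub_norm_le u p
    linarith
  have h1' : ‖p‖ ≤ 1 + t := by
    have := norm_sub_norm_le p u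
    rw [norm_sub_rev] at this
    linarith
  have h2 : 0 < ‖p‖ := by linarith
  refine ⟨‖p‖⁻¹ • p, L.smul_mem _ hp, ?_, ?_⟩
  · rw [norm_smul, norm_inv, norm_norm, inv_mul_cancel₀ h2.ne']
  · have h3 : ‖p‖⁻¹ • p - p = (‖p‖⁻¹ - 1) • p := by rw [sub_smul, one_smul]
    have h4 : ‖‖p‖⁻¹ • p - p‖ ≤ t := by
      rw [h3, norm_smul, Real.norm_eq_abs]
      have h5 : |‖p‖⁻¹ - 1| * ‖p‖ = |1 - ‖p‖| := by
        rw [← abs_of_pos h2, ← abs_mul, abs_of_pos h2, sub_mul, inv_mul_cancel₀ h2.ne', one_mul]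
      rw [h5, abs_le]
      constructor <;> linarith
    calc ‖‖p‖⁻¹ • p - u‖ = ‖(‖p‖⁻¹ • p - p) + (p - u)‖ := by rw [sub_add_sub_cancel]
      _ ≤ ‖‖p‖⁻¹ • p - p‖ + ‖p - u‖ := norm_add_le _ _
      _ ≤ t + t := add_le_add h4 (by rw [norm_sub_rev]; exact h)
      _ = 2 * t := by ring

/-! ### Proofs

Let `V = cell Z`, `r := 1 - η` and `D (z) = gramS z univ`. Choose `η` with `2 η cst ≤ 4 η ≤ ε / 2`; `k0` with
`16 r ^ k0 ≤ ε / 2 * √r` (and `r ^ k0 ≤ √r / 2`), `J` with `4 ^ k0 * r ^ (2 J) < r`, `M = k0 + J`. Note that the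
hypothesis gives `gramS z S ≥ r` for all finsets `S` (by `gramS_comp` and an enumeration of `S`) for every injective
`z : Fin k → E d`, `k ≤ M`, with values in `Z ∩ ball 0 2`.
Let `‖u‖ = 1`. *Phase 1.* Call an injective `z : Fin k → E d` with values in `Z ∩ ball 0 2` a chain if
`infDist (z j) (span (u, z i (i < j))) ≤ r` for all `j < k`. Take a chain with `k ≤ k0` maximal. If `k < k0`, then by
maximality every `x ∈ Z`, `‖x‖ < 2`, not among the `z i`, has distance `> r` from `L = span (u, z)`, and `gl` gives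
`wid u V ≥ r² cst ≥ cst - 2 η cst ≥ cst - ε`.
If `k = k0`: apply `gramS_univ` to the family `y = Fin.snoc z u : Fin (k0 + 1) → E d`. With `R = {last}`:
`D y = ‖u‖² ∏_j infDist (z j) (span (u, z i (i < j)))² ≤ r ^ (2 k0)`. With `R = univ \ {last}` (or `gramS_insert`):
`D y = D z * infDist u (span z)² ≥ r * infDist u (span z)²`. So `infDist u (span z) ≤ r ^ k0 / √r =: t ≤ 1/2`. Let `p` be the
orthogonal projection of `u` onto `span z`, `‖u - p‖ ≤ t`, `u' = p / ‖p‖`, `‖u - u'‖ ≤ 2 t`.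
*Phase 2.* Among the injective `w : Fin k → E d`, `k0 ≤ k ≤ M`, values in `Z ∩ ball 0 2`, which extend `z` and satisfy
`infDist (w j) (span (w i (i < j))) ≤ r` for `k0 ≤ j < k`, take one with `k` maximal. By `gramS_univ` with `R = ∅`,
`r ≤ D w = ∏_j infDist (w j) (span (w i, i < j))² ≤ 4 ^ k0 * r ^ (2 (k - k0))` (each distance is at most `‖w j‖ ≤ 2`), so
`k < M`; by maximality all other `x ∈ Z ∩ ball 0 2` have distance `> r` from `L = span w ∋ u'`. `gl` gives
`wid u' V ≥ r² cst`, and by `wid_lip` with `R = 2`: `wid u V ≥ wid u' V - 4 ‖u - u'‖ ≥ r² cst - 8 t ≥ cst - ε`.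
(`0 ∈ V`, so `V` is nonempty.) It may be convenient to work with `List`s or with functions `ℕ → E d` and to phrase
maximality as an induction (either stops or continues).
-/

theorem greedy (ε : ℝ) (hε : 0 < ε) : ∃ (M : ℕ) (η : ℝ), 0 < η ∧ η < 1 ∧ ∀ (d : ℕ) (Z : Set (E d)),
    (∀ k ≤ M, ∀ z : Fin k → E d, Function.Injective z → (∀ i, z i ∈ Z ∧ ‖z i‖ < 2) →
      1 - η ≤ gramS z Finset.univ) →
    cell Z ⊆ closedBall 0 2 → ∀ u : E d, ‖u‖ = 1 → cst - ε ≤ wid u (cell Z) := by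
  obtain ⟨η, hη0, hη1, hη2⟩ : ∃ η : ℝ, 0 < η ∧ η ≤ 1 / 2 ∧ η ≤ ε / 8 :=
    ⟨min (1 / 2) (ε / 8), by positivity, min_le_left _ _, min_le_right _ _⟩
  set r : ℝ := 1 - η with hr
  have hr0 : 1 / 2 ≤ r := by linarith
  have hr1 : r < 1 := by linarith
  have hrp : 0 < r := by linarith
  obtain ⟨k0, hk0⟩ := exists_pow_lt_of_lt_one (show 0 < min (1 / 4 : ℝ) (ε / 32) by positivity) hr1
  have hk1 : r ^ k0 ≤ 1 / 4 := hk0.le.trans (min_le_left _ _)
  have hk2 : r ^ k0 ≤ ε / 32 := hk0.le.trans (min_le_right _ _)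
  obtain ⟨J, hJ⟩ := exists_pow_lt_of_lt_one (show 0 < r / 4 ^ k0 by positivity)
    (show r ^ 2 < 1 by nlinarith)
  have hJ2 : 4 ^ k0 * (r ^ 2) ^ J < r := by
    rwa [lt_div_iff₀ (by positivity), mul_comm] at hJ
  have hc0 := cst_nonneg
  have hc2 := cst_le_two
  have hcst : cst - ε / 2 ≤ r ^ 2 * cst := by
    have h1 : 1 - 2 * η ≤ r ^ 2 := by rw [hr]; nlinarith
    nlinarith
  refine ⟨k0 + J, η, hη0, by linarith, ?_⟩
  intro d Z H hR u hu
  have hne : (cell Z).Nonempty := ⟨0, fun z _ => by simp⟩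
  -- first phase
  rcases greedy_iter (greedy_C Z {u} 0 r) 0 (fun i => i.elim0)
    ⟨⟨fun i => i.elim0, fun i => i.elim0⟩, fun i => i.elim0⟩ k0 (Nat.zero_le _) with
    ⟨z, hz⟩ | ⟨n, -, hn, z, hz, hmax⟩
  · have hg := greedy_gram H (Nat.le_add_right k0 J) hz.1 Finset.univ
    have h1 := greedy_one hrp.le hu hz hg
    set δ := infDist u (Submodule.span ℝ (Set.range z) : Set (E d)) with hδ
    have hδ0 : 0 ≤ δ := infDist_nonneg
    have h2 : δ ≤ 2 * r ^ k0 := by
      have h3 : δ ^ 2 ≤ (2 * r ^ k0) ^ 2 := by nlinarith [sq_nonneg δ, sq_nonneg (r ^ k0)]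
      exact (pow_le_pow_iff_left₀ hδ0 (by positivity) two_ne_zero).1 h3
    obtain ⟨v, hv, hv1, hv2⟩ := greedy_unit (Submodule.span ℝ (Set.range z)) u hu
      (t := 2 * r ^ k0) (by linarith) h2
    -- second phase
    have hlip := wid_lip v u (cell Z) hne 2 hR
    have key : r ^ 2 * cst ≤ wid v (cell Z) := by
      rcases greedy_iter (fun k w => greedy_C Z ∅ k0 r k w ∧
          v ∈ Submodule.span ℝ (∅ ∪ Set.range w)) k0 z
        ⟨⟨hz.1, fun j hj => absurd j.isLt (by omega)⟩, by rw [Set.empty_union]; exact hv⟩ (k0 + J)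
        (Nat.le_add_right _ _) with ⟨w, hw, -⟩ | ⟨n, -, hn, w, ⟨hw, hvw⟩, hmax⟩
      · exfalso
        have h4 := greedy_gram H le_rfl hw.1 Finset.univ
        have h5 := greedy_two hrp.le hw rfl
        linarith
      · refine greedy_stop hη0 (by linarith) H hR hn.le hw ?_ v hv1 hvw
        intro x hx
        refine hmax x ⟨hx, ?_⟩
        refine Submodule.span_mono ?_ hvw
        refine Set.union_subset_union_right _ ?_
        rintro _ ⟨i, rfl⟩
        exact ⟨i.castSucc, by simp⟩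
    nlinarith
  · have key := greedy_stop hη0 (by linarith) H hR (hn.le.trans (Nat.le_add_right k0 J)) hz hmax u hu
      (Submodule.subset_span (Or.inl rfl))
    have h3 : (1 - η) ^ 2 * cst = r ^ 2 * cst := by rw [hr]
    linarith

end H949.VW
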