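import Pool.Agent.H949.VW.Defs
import Pool.Agent.H949.VW.Bad
import Pool.Agent.H949.VW.Cells
import Pool.Agent.H949.VW.Gram
import Pool.Agent.H949.VW.Pois

set_option autoImplicit false

open MeasureTheory ProbabilityTheory Set Metric
open scoped RealInnerProductSpace ENNReal

namespace H949.VW

/-! ### Proofs

Let `θ = 1 - η / 2`. Take `h ≤ h0` from `bad_sum k θ`, `h ≤ 1/4`, and `4 h + h² ≤ δ` with the `δ` of
`gramS_close k 2 (η / 2)`. Let `C : Cells d 2 h`. Let `ω` be in the event, with tuple `z`. Either some cell contains two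
different points of `Z ω` (probability `≤ (2 h)^d ≤ 2^{-d}` by `cells_two`), or the points `z i` (in `closedBall 0 2`, hence in cells
`q i`, `C.cover`) lie in different cells, i.e. `q` is injective; `‖z i - c (q i)‖ ≤ h`, so by `gramS_close`,
`gramS (c ∘ q) univ ≤ 1 - η + η / 2 = θ`, and all cells `q i` are occupied. For injective `q` the probability that all cells
`q i` are occupied is `∏ P (A (q i)) ≤ ∏ C.v (q i)` (`cells_indep`, `cells_occ`). Union bound: at most `bad_sum ≤ ε / 2` for large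
`d`, plus `2^{-d} ≤ ε / 2`.
-/

open Classical in
theorem nobad_inner {d : ℕ} (z z' c c' : E d) {h : ℝ} (hz' : ‖z'‖ ≤ 2) (hc : ‖c‖ ≤ 2)
    (h1 : ‖z - c‖ ≤ h) (h2 : ‖z' - c'‖ ≤ h) :
    |⟪z, z'⟫ - ⟪c, c'⟫| ≤ 4 * h := by
  have hh : 0 ≤ h := (norm_nonneg _).trans h1
  have e : ⟪z, z'⟫ - ⟪c, c'⟫ = ⟪z - c, z'⟫ + ⟪c, z' - c'⟫ := by
    rw [inner_sub_left, inner_sub_right]; ring
  rw [e]
  have a1 : |⟪z - c, z'⟫| ≤ h * 2 :=
    (abs_real_inner_le_norm _ _).trans (mul_le_mul h1 hz' (norm_nonneg _) hh)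
  have a2 : |⟪c, z' - c'⟫| ≤ 2 * h :=
    (abs_real_inner_le_norm _ _).trans (mul_le_mul hc h2 (norm_nonneg _) (by norm_num))
  calc |⟪z - c, z'⟫ + ⟪c, z' - c'⟫| ≤ |⟪z - c, z'⟫| + |⟪c, z' - c'⟫| := abs_add_le _ _
    _ ≤ 4 * h := by linarith

theorem nobad_prob {Ω : Type*} [MeasurableSpace Ω] (P : Measure Ω) [IsProbabilityMeasure P] {d k : ℕ}
    (Z : Ω → Set (E d)) (hZ : IsPoisson P Z (1 / kap d)) {R h : ℝ} (hh : 0 < h) (hh1 : h ≤ 1)
    (C : Cells d R h) (q : Fin k → Fin C.N) (hq : Function.Injective q) :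
    P (⋂ j, {ω | (Z ω ∩ C.Q (q j)).Nonempty}) ≤ ENNReal.ofReal (∏ j, C.v (q j)) := by
  classical
  have h1 : (⋂ j, {ω | (Z ω ∩ C.Q (q j)).Nonempty}) =
      ⋂ i ∈ Finset.univ.image q, {ω | (Z ω ∩ C.Q i).Nonempty} := by
    ext ω
    simp
  rw [h1, (cells_indep P Z hZ C).meas_biInter, Finset.prod_image (fun a _ b _ hab => hq hab),
    ENNReal.ofReal_prod_of_nonneg (fun i _ => C.v_nonneg _)]
  refine Finset.prod_le_prod' fun j _ => ?_
  rw [← ENNReal.ofReal_toReal (measure_ne_top P {ω | (Z ω ∩ C.Q (q j)).Nonempty})]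
  exact ENNReal.ofReal_le_ofReal (cells_occ P Z hZ hh hh1 C (q j)).2

open Classical in
theorem nobad_union {Ω : Type*} [MeasurableSpace Ω] (P : Measure Ω) [IsProbabilityMeasure P] {d k : ℕ}
    (Z : Ω → Set (E d)) (hZ : IsPoisson P Z (1 / kap d)) {R h : ℝ} (hh : 0 < h) (hh1 : h ≤ 1)
    (C : Cells d R h) (p : (Fin k → Fin C.N) → Prop) :
    P {ω | ∃ q : Fin k → Fin C.N, Function.Injective q ∧ p q ∧
        ∀ j, (Z ω ∩ C.Q (q j)).Nonempty} ≤
      ENNReal.ofReal (∑ q : Fin k → Fin C.N, if p q then ∏ j, C.v (q j) else 0) := by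
  have hsub : {ω | ∃ q : Fin k → Fin C.N, Function.Injective q ∧ p q ∧
        ∀ j, (Z ω ∩ C.Q (q j)).Nonempty} ⊆
      ⋃ q ∈ (Finset.univ : Finset (Fin k → Fin C.N)),
        (if Function.Injective q ∧ p q then ⋂ j, {ω | (Z ω ∩ C.Q (q j)).Nonempty} else ∅) := by
    rintro ω ⟨q, hq, hp, ho⟩
    refine mem_iUnion₂.2 ⟨q, Finset.mem_univ _, ?_⟩
    rw [if_pos ⟨hq, hp⟩]
    exact mem_iInter.2 ho
  refine (measure_mono hsub).trans ((measure_biUnion_finset_le _ _).trans ?_)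
  rw [ENNReal.ofReal_sum_of_nonneg]
  · refine Finset.sum_le_sum fun q _ => ?_
    by_cases hq : Function.Injective q ∧ p q
    · rw [if_pos hq, if_pos hq.2]
      exact nobad_prob P Z hZ hh hh1 C q hq.1
    · rw [if_neg hq, measure_empty]
      exact bot_le
  · intro q _
    split_ifs
    · exact Finset.prod_nonneg fun j _ => C.v_nonneg _
    · exact le_rfl

theorem nobad_sub {Ω : Type*} {d k : ℕ} (Z : Ω → Set (E d)) {h η δ : ℝ} (h4 : 4 * h ≤ δ)
    (hδ : ∀ (z y : Fin k → E d), (∀ i, ‖z i‖ ≤ 2) →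
      (∀ i j, |⟪z i, z j⟫ - ⟪y i, y j⟫| ≤ δ) →
      |gramS z Finset.univ - gramS y Finset.univ| ≤ η / 2) (C : Cells d 2 h) :
    {ω | ∃ z : Fin k → E d, Function.Injective z ∧ (∀ i, z i ∈ Z ω ∧ ‖z i‖ < 2) ∧
        gramS z Finset.univ < 1 - η} ⊆
      {ω | ∃ i, ∃ x ∈ Z ω ∩ C.Q i, ∃ y ∈ Z ω ∩ C.Q i, x ≠ y} ∪
      {ω | ∃ q : Fin k → Fin C.N, Function.Injective q ∧
        (gramS (fun j => C.c (q j)) Finset.univ ≤ 1 - η / 2) ∧
        ∀ j, (Z ω ∩ C.Q (q j)).Nonempty} := by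
  rintro ω ⟨z, hz, hzZ, hg⟩
  by_cases hT : ∃ i, ∃ x ∈ Z ω ∩ C.Q i, ∃ y ∈ Z ω ∩ C.Q i, x ≠ y
  · exact Or.inl hT
  refine Or.inr ?_
  have hc : ∀ j, ∃ i, z j ∈ C.Q i := by
    intro j
    have := C.cover (show z j ∈ closedBall (0 : E d) 2 by
      rw [mem_closedBall_zero_iff]; exact (hzZ j).2.le)
    exact mem_iUnion.1 this
  choose q hq using hc
  refine ⟨q, ?_, ?_, fun j => ⟨z j, (hzZ j).1, hq j⟩⟩
  · intro a b hab
    by_contra hne
    exact hT ⟨q a, z a, ⟨(hzZ a).1, hq a⟩, z b, ⟨(hzZ b).1, hab ▸ hq b⟩, fun h => hne (hz h)⟩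
  · have hn : ∀ j, ‖z j - C.c (q j)‖ ≤ h := by
      intro j
      have := C.sub (q j) (hq j)
      rwa [mem_closedBall, dist_eq_norm] at this
    have := hδ z (fun j => C.c (q j)) (fun i => (hzZ i).2.le) (fun i j =>
      (nobad_inner _ _ _ _ (hzZ j).2.le (C.cR _) (hn i) (hn j)).trans h4)
    have := (abs_le.1 this).1
    linarith

theorem no_bad_tuple (k : ℕ) (η ε : ℝ) (hη : 0 < η) (hη1 : η < 1) (hε : 0 < ε) :
    ∃ d0 : ℕ, ∀ d ≥ d0, ∀ {Ω : Type*} [MeasurableSpace Ω] (P : Measure Ω) [IsProbabilityMeasure P]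
      (Z : Ω → Set (E d)), IsPoisson P Z (1 / kap d) →
      P {ω | ∃ z : Fin k → E d, Function.Injective z ∧ (∀ i, z i ∈ Z ω ∧ ‖z i‖ < 2) ∧
        gramS z Finset.univ < 1 - η} ≤ ENNReal.ofReal ε := by
  classical
  obtain ⟨h0, hh0, hbad⟩ := bad_sum k (1 - η / 2) (by linarith) (by linarith)
  obtain ⟨δ, hδ0, hδ⟩ := gramS_close k 2 (η / 2) (by linarith)
  set h : ℝ := min h0 (min (1 / 4) (δ / 4)) with hh_def
  have hh : 0 < h := lt_min hh0 (lt_min (by norm_num) (by linarith))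
  have hhh0 : h ≤ h0 := min_le_left _ _
  have hh4 : h ≤ 1 / 4 := (min_le_right _ _).trans (min_le_left _ _)
  have hhδ : h ≤ δ / 4 := (min_le_right _ _).trans (min_le_right _ _)
  obtain ⟨d1, hd1⟩ := hbad h hh hhh0 (ε / 2) (by linarith)
  obtain ⟨d2, hd2⟩ := exists_pow_lt_of_lt_one (show (0 : ℝ) < ε / 2 by linarith)
    (show (1 / 2 : ℝ) < 1 by norm_num)
  refine ⟨max d1 d2, fun d hd Ω _ P _ Z hZ => ?_⟩
  obtain ⟨C⟩ := exists_cells d 2 h (by norm_num) hh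
  have e1 := cells_two P Z hZ (by norm_num) hh C
  have e2 := nobad_union P Z hZ hh (by linarith) C
    (fun q : Fin k → Fin C.N => gramS (fun j => C.c (q j)) Finset.univ ≤ 1 - η / 2)
  have e3 := hd1 d ((le_max_left _ _).trans hd) C
  have e4 : (h * 2) ^ d ≤ ε / 2 := by
    have a1 : (h * 2) ^ d ≤ (1 / 2 : ℝ) ^ d :=
      pow_le_pow_left₀ (by positivity) (by linarith) d
    have a2 : (1 / 2 : ℝ) ^ d ≤ (1 / 2 : ℝ) ^ d2 :=
      pow_le_pow_of_le_one (by norm_num) (by norm_num) ((le_max_right _ _).trans hd)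
    linarith
  have hs := nobad_sub (η := η) (δ := δ) (k := k) Z (by linarith)
    (fun z y h1 h2 => hδ z y h1 h2) C
  calc P {ω | ∃ z : Fin k → E d, Function.Injective z ∧ (∀ i, z i ∈ Z ω ∧ ‖z i‖ < 2) ∧
        gramS z Finset.univ < 1 - η}
      ≤ P _ + P _ := (measure_mono hs).trans (measure_union_le _ _)
    _ ≤ ENNReal.ofReal (ε / 2) + ENNReal.ofReal (ε / 2) :=
        add_le_add (e1.trans (ENNReal.ofReal_le_ofReal e4)) (e2.trans (ENNReal.ofReal_le_ofReal e3))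
    _ = ENNReal.ofReal ε := by
        rw [← ENNReal.ofReal_add (by linarith) (by linarith)]; congr 1; ring


end H949.VW
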