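import Pool.Agent.H949.VW.Defs

set_option autoImplicit false

open MeasureTheory ProbabilityTheory Set Metric
open scoped RealInnerProductSpace ENNReal

namespace H949.VW

/-! ### Proofs

* `IsPoisson.scale`: `((R • Z) ∩ A).encard = (Z ∩ R⁻¹ • A).encard` (the map `x ↦ R • x` is injective), and
  `volume ((fun x => R • x) ⁻¹' A) = R^{-d} volume A` (`Measure.addHaar_preimage_smul`); preimages of disjoint measurable sets are
  disjoint and measurable.
* `width_cell_scale`: `cell (R • Z) = R • cell Z` (`‖R x‖ ≤ ‖R x - R z‖` iff `‖x‖ ≤ ‖x - z‖`), `wid u (R • K) = R wid u K`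
  (`Real.sSup_smul_of_nonneg`, `Real.sInf_smul_of_nonneg` or by hand), and `⨅ R * f = R * ⨅ f` (`Real.mul_iInf_of_nonneg`).
-/

theorem scale_encard {d : ℕ} (Z A : Set (E d)) (R : ℝ) (hR : 0 < R) :
    ((fun x => R • x) '' Z ∩ A).encard = (Z ∩ (fun x => R • x) ⁻¹' A).encard := by
  have hinj : Function.Injective (fun x : E d => R • x) := fun x y h =>
    smul_right_injective _ hR.ne' h
  rw [← image_inter_preimage, hinj.encard_image]

theorem scale_meas {d : ℕ} {A : Set (E d)} (hA : MeasurableSet A) (R : ℝ) :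
    MeasurableSet ((fun x : E d => R • x) ⁻¹' A) :=
  (measurable_const_smul R) hA

theorem scale_volume {d : ℕ} (A : Set (E d)) (R : ℝ) (hR : 0 < R) :
    volume ((fun x : E d => R • x) ⁻¹' A) = ENNReal.ofReal ((R ^ d)⁻¹) * volume A := by
  have h := Measure.addHaar_preimage_smul (volume : Measure (E d)) hR.ne' A
  rw [finrank_euclideanSpace, Fintype.card_fin,
    abs_of_nonneg (inv_nonneg.2 (pow_nonneg hR.le d))] at h
  exact h

theorem IsPoisson.scale {Ω : Type*} [MeasurableSpace Ω] {P : Measure Ω} {d : ℕ} {Z : Ω → Set (E d)}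
    {lam : ℝ} (hZ : IsPoisson P Z lam) (R : ℝ) (hR : 0 < R) :
    IsPoisson P (fun ω => (fun x => R • x) '' Z ω) (lam / R ^ d) := by
  refine ⟨?_, ?_, ?_⟩
  · intro A hA
    simp only [scale_encard _ _ R hR]
    exact hZ.meas _ (scale_meas hA R)
  · intro A hA hfin k
    simp only [scale_encard _ _ R hR]
    have h1 : volume ((fun x : E d => R • x) ⁻¹' A) ≠ ⊤ := by
      rw [scale_volume A R hR]
      exact ENNReal.mul_ne_top ENNReal.ofReal_ne_top hfin
    have h2 : lam * (volume ((fun x : E d => R • x) ⁻¹' A)).toReal =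
        lam / R ^ d * (volume A).toReal := by
      rw [scale_volume A R hR, ENNReal.toReal_mul,
        ENNReal.toReal_ofReal (inv_nonneg.2 (pow_nonneg hR.le d))]
      ring
    rw [hZ.law _ (scale_meas hA R) h1 k, h2]
  · intro n A hA hdisj
    simp only [scale_encard _ _ R hR]
    exact hZ.indep n (fun i => (fun x : E d => R • x) ⁻¹' A i) (fun i => scale_meas (hA i) R)
      (fun i j hij => (hdisj hij).preimage _)

theorem scale_cell {d : ℕ} (Z : Set (E d)) (R : ℝ) (hR : 0 < R) :
    cell ((fun x => R • x) '' Z) = (fun x => R • x) '' cell Z := by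
  ext x
  constructor
  · intro hx
    refine ⟨R⁻¹ • x, ?_, smul_inv_smul₀ hR.ne' x⟩
    intro z hz
    have h1 := hx (R • z) ⟨z, hz, rfl⟩
    have h2 : x = R • (R⁻¹ • x) := (smul_inv_smul₀ hR.ne' x).symm
    rw [h2, ← smul_sub, norm_smul, norm_smul R] at h1
    exact le_of_mul_le_mul_left h1 (norm_pos_iff.2 hR.ne')
  · rintro ⟨y, hy, rfl⟩ _ ⟨z, hz, rfl⟩
    show ‖R • y‖ ≤ ‖R • y - R • z‖
    rw [← smul_sub, norm_smul, norm_smul]
    exact mul_le_mul_of_nonneg_left (hy z hz) (norm_nonneg R)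

open scoped Pointwise in
theorem scale_wid {d : ℕ} (u : E d) (K : Set (E d)) (R : ℝ) (hR : 0 < R) :
    wid u ((fun x => R • x) '' K) = R * wid u K := by
  unfold wid
  have h1 : (fun x => ⟪u, x⟫) '' ((fun x => R • x) '' K) = R • ((fun x => ⟪u, x⟫) '' K) := by
    rw [image_image, ← image_smul, image_image]
    refine image_congr fun x _ => ?_
    rw [real_inner_smul_right, smul_eq_mul]
  rw [h1, Real.sSup_smul_of_nonneg hR.le, Real.sInf_smul_of_nonneg hR.le, smul_eq_mul,
    smul_eq_mul]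
  ring

theorem width_cell_scale {d : ℕ} (Z : Set (E d)) (R : ℝ) (hR : 0 < R) :
    width (cell ((fun x => R • x) '' Z)) = R * width (cell Z) := by
  rw [scale_cell Z R hR]
  unfold width
  rw [Real.mul_iInf_of_nonneg hR.le]
  exact iInf_congr fun u => scale_wid u.1 _ R hR

end H949.VW
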