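import Pool.Agent.H949.VW.Defs
import Pool.Agent.H949.VW.Gram

set_option autoImplicit false

open MeasureTheory ProbabilityTheory Set Metric
open scoped RealInnerProductSpace ENNReal

namespace H949.VW

/-! ### Proofs

`gramS z univ ≠ 0` means that the `z i` are linearly independent (if `∑ a i z i = 0` then the Gram matrix kills `a`).
Let `S = span z ⊆ E n`, with basis `z`, and let `β i : E n → ℝ` be the (bounded linear) coordinates of the orthogonal
projection onto `S`; `∑ |β i x| ≤ B ‖x‖`, `C := B² + 1`. Let `d ≥ n + m` and `ζ` be given, `T = span ζ ⊆ E d`,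
`finrank T ≤ m`, so `finrank Tᗮ ≥ d - m ≥ n ≥ finrank Sᗮ` and there is a linear isometry `ι : Sᗮ → Tᗮ` (orthonormal
bases). Put `J x = ∑ β i x • ζ i + ι (P_{Sᗮ} x)`. Then `J (z i) = ζ i`, and by Pythagoras
`‖J x‖² = ‖∑ β i ζ i‖² + ‖P_{Sᗮ} x‖²`, `‖x‖² = ‖∑ β i z i‖² + ‖P_{Sᗮ} x‖²`; the difference is at most
`δ (∑ |β i|)² ≤ B² δ ‖x‖²` by `norm_comb`.
-/

/-- nonzero Gram determinant implies linear independence -/
theorem lin_indep {F : Type*} [NormedAddCommGroup F] [InnerProductSpace ℝ F] {m : ℕ} (z : Fin m → F)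
    (hz : gramS z Finset.univ ≠ 0) : LinearIndependent ℝ z := by
  rw [Fintype.linearIndependent_iff]
  intro g hg i
  have h1 : (Matrix.of fun i j : (Finset.univ : Finset (Fin m)) => ⟪z i, z j⟫).mulVec
      (fun j => g j) = 0 := by
    funext i
    simp only [Matrix.mulVec, dotProduct, Matrix.of_apply, Pi.zero_apply]
    rw [Finset.sum_coe_sort Finset.univ (fun j => ⟪z i, z j⟫ * g j)]
    have h2 : ⟪z i, ∑ j, g j • z j⟫ = 0 := by rw [hg, inner_zero_right]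
    rw [inner_sum] at h2
    rw [← h2]
    refine Finset.sum_congr rfl fun j _ => ?_
    rw [real_inner_smul_right, mul_comm]
  have h2 := Matrix.eq_zero_of_mulVec_eq_zero hz h1
  exact congrFun h2 ⟨i, Finset.mem_univ i⟩

/-- a linear isometry between spaces of the right dimensions -/
theorem lin_iso {F F' : Type*} [NormedAddCommGroup F] [InnerProductSpace ℝ F] [FiniteDimensional ℝ F]
    [NormedAddCommGroup F'] [InnerProductSpace ℝ F'] [FiniteDimensional ℝ F']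
    (h : Module.finrank ℝ F ≤ Module.finrank ℝ F') : Nonempty (F →ₗᵢ[ℝ] F') := by
  let e := stdOrthonormalBasis ℝ F
  let f := stdOrthonormalBasis ℝ F'
  let L : F →ₗ[ℝ] F' := e.toBasis.constr ℝ (fun i => f (Fin.castLE h i))
  refine ⟨L.isometryOfOrthonormal (v := e.toBasis) ?_ ?_⟩
  · rw [OrthonormalBasis.coe_toBasis]
    exact e.orthonormal
  · have h1 : (L ∘ e.toBasis) = fun i => f (Fin.castLE h i) := by
      funext i
      exact e.toBasis.constr_basis ℝ _ i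
    rw [h1]
    exact f.orthonormal.comp _ (Fin.castLE_injective h)

theorem exists_linear {n m : ℕ} (z : Fin m → E n) (hz : gramS z Finset.univ ≠ 0) :
    ∃ C : ℝ, 0 < C ∧ ∀ (d : ℕ), n + m ≤ d → ∀ (ζ : Fin m → E d) (δ : ℝ), 0 ≤ δ →
      (∀ i j, |⟪ζ i, ζ j⟫ - ⟪z i, z j⟫| ≤ δ) →
      ∃ J : E n →ₗ[ℝ] E d, (∀ i, J (z i) = ζ i) ∧ ∀ x, |‖J x‖ ^ 2 - ‖x‖ ^ 2| ≤ C * δ * ‖x‖ ^ 2 := by
  have hli := lin_indep z hz
  obtain ⟨S, hS⟩ : ∃ S : Submodule ℝ (E n), S = Submodule.span ℝ (Set.range z) := ⟨_, rfl⟩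
  -- the basis of `S`
  let b : Module.Basis (Fin m) ℝ S := (Module.Basis.span hli).map (LinearEquiv.ofEq _ _ hS.symm)
  have hb : ∀ i, ((b i : S) : E n) = z i := by
    intro i
    simp [b, Module.Basis.span_apply]
  -- the coordinates of the projection
  let β : E n →ₗ[ℝ] (Fin m → ℝ) :=
    b.equivFun.toLinearMap ∘ₗ S.orthogonalProjectionOnto.toLinearMap
  have hβ : ∀ x, ∑ i, β x i • z i = (S.orthogonalProjectionOnto x : E n) := by
    intro x
    have h1 := b.sum_equivFun (S.orthogonalProjectionOnto x)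
    have h2 := congrArg (Subtype.val) h1
    rw [← h2]
    rw [Submodule.coe_sum]
    refine Finset.sum_congr rfl fun i _ => ?_
    rw [Submodule.coe_smul, hb]
    rfl
  have hβz : ∀ i, β (z i) = Pi.single i 1 := by
    intro i
    have h1 : S.orthogonalProjectionOnto (z i) = b i := by
      rw [← hb i]
      exact Submodule.orthogonalProjectionOnto_mem_subspace_eq_self (b i)
    change b.equivFun (S.orthogonalProjectionOnto (z i)) = _
    rw [h1]
    funext j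
    rw [Module.Basis.equivFun_self, Pi.single_apply]
    by_cases h : i = j
    · subst h; simp
    · rw [if_neg h, if_neg (fun h' => h h'.symm)]
  -- boundedness
  let βc := β.toContinuousLinearMap
  have hB : ∀ x, ∑ i, |β x i| ≤ (m * ‖βc‖) * ‖x‖ := by
    intro x
    have h1 : ‖β x‖ ≤ ‖βc‖ * ‖x‖ := βc.le_opNorm x
    calc ∑ i, |β x i| ≤ ∑ _i : Fin m, ‖β x‖ := Finset.sum_le_sum fun i _ => norm_le_pi_norm (β x) i
      _ = m * ‖β x‖ := by simp
      _ ≤ m * (‖βc‖ * ‖x‖) := mul_le_mul_of_nonneg_left h1 (Nat.cast_nonneg m)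
      _ = (m * ‖βc‖) * ‖x‖ := by ring
  refine ⟨(m * ‖βc‖) ^ 2 + 1, by positivity, ?_⟩
  intro d hd ζ δ hδ hζ
  obtain ⟨T, hT⟩ : ∃ T : Submodule ℝ (E d), T = Submodule.span ℝ (Set.range ζ) := ⟨_, rfl⟩
  have hTm : Module.finrank ℝ T ≤ m := by
    rw [hT]
    have := finrank_range_le_card (R := ℝ) ζ
    simpa [Set.finrank] using this
  have hTd : Module.finrank ℝ T + Module.finrank ℝ Tᗮ = d := by
    have := Submodule.finrank_add_finrank_orthogonal T
    simpa using this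
  have hSn : Module.finrank ℝ Sᗮ ≤ n := by
    have := Submodule.finrank_le Sᗮ
    simpa using this
  obtain ⟨ι⟩ := lin_iso (F := Sᗮ) (F' := Tᗮ) (by omega)
  let J : E n →ₗ[ℝ] E d :=
    (Fintype.linearCombination ℝ ζ) ∘ₗ β +
      Tᗮ.subtype ∘ₗ ι.toLinearMap ∘ₗ Sᗮ.orthogonalProjectionOnto.toLinearMap
  have hJ : ∀ x, J x = ∑ i, β x i • ζ i + (ι (Sᗮ.orthogonalProjectionOnto x) : E d) := by
    intro x
    simp only [J, LinearMap.add_apply, LinearMap.comp_apply, Fintype.linearCombination_apply]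
    rfl
  refine ⟨J, fun i => ?_, fun x => ?_⟩
  · rw [hJ, hβz]
    have h1 : Sᗮ.orthogonalProjectionOnto (z i) = 0 := by
      rw [Submodule.orthogonalProjectionOnto_eq_zero_iff]
      have h2 : z i ∈ S := by rw [hS]; exact Submodule.subset_span ⟨i, rfl⟩
      exact Submodule.le_orthogonal_orthogonal S h2
    rw [h1, map_zero, ZeroMemClass.coe_zero, add_zero]
    rw [Finset.sum_eq_single i]
    · simp
    · intro j _ hj
      simp [hj]
    · simp
  · have hin : ⟪∑ i, β x i • ζ i, (ι (Sᗮ.orthogonalProjectionOnto x) : E d)⟫ = 0 := by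
      have h1 : ∑ i, β x i • ζ i ∈ T := by
        rw [hT]
        exact Submodule.sum_mem _ fun i _ =>
          Submodule.smul_mem _ _ (Submodule.subset_span ⟨i, rfl⟩)
      exact (Submodule.mem_orthogonal _ _).mp (ι (Sᗮ.orthogonalProjectionOnto x)).2 _ h1
    have h1 : ‖J x‖ ^ 2 = ‖∑ i, β x i • ζ i‖ ^ 2 + ‖Sᗮ.orthogonalProjectionOnto x‖ ^ 2 := by
      have h0 : ‖(ι (Sᗮ.orthogonalProjectionOnto x) : E d)‖ = ‖Sᗮ.orthogonalProjectionOnto x‖ :=
        ι.norm_map _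
      rw [hJ, norm_add_sq_real, hin, mul_zero, add_zero, h0]
    have h2 : ‖x‖ ^ 2 = ‖∑ i, β x i • z i‖ ^ 2 + ‖Sᗮ.orthogonalProjectionOnto x‖ ^ 2 := by
      rw [hβ, Submodule.coe_norm]
      exact Submodule.norm_sq_eq_add_norm_sq_projection x S
    have h3 := norm_comb z ζ (β x) δ (fun i j _ _ => hζ i j)
    have h4 : |‖J x‖ ^ 2 - ‖x‖ ^ 2| ≤ δ * (∑ i, |β x i|) ^ 2 := by
      rw [h1, h2]
      have e : ‖∑ i, β x i • ζ i‖ ^ 2 + ‖Sᗮ.orthogonalProjectionOnto x‖ ^ 2 -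
          (‖∑ i, β x i • z i‖ ^ 2 + ‖Sᗮ.orthogonalProjectionOnto x‖ ^ 2) =
          ‖∑ i, β x i • ζ i‖ ^ 2 - ‖∑ i, β x i • z i‖ ^ 2 := by ring
      rw [e]
      exact h3
    refine h4.trans ?_
    have h5 : (∑ i, |β x i|) ^ 2 ≤ ((m * ‖βc‖) * ‖x‖) ^ 2 :=
      pow_le_pow_left₀ (Finset.sum_nonneg fun i _ => abs_nonneg _) (hB x) 2
    have h6 : δ * (∑ i, |β x i|) ^ 2 ≤ δ * ((m * ‖βc‖) * ‖x‖) ^ 2 :=
      mul_le_mul_of_nonneg_left h5 hδ
    have h7 : 0 ≤ δ * ‖x‖ ^ 2 := by positivity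
    calc δ * (∑ i, |β x i|) ^ 2 ≤ δ * ((m * ‖βc‖) * ‖x‖) ^ 2 := h6
      _ = (m * ‖βc‖) ^ 2 * (δ * ‖x‖ ^ 2) := by ring
      _ ≤ ((m * ‖βc‖) ^ 2 + 1) * (δ * ‖x‖ ^ 2) := by linarith
      _ = ((m * ‖βc‖) ^ 2 + 1) * δ * ‖x‖ ^ 2 := by ring

end H949.VW
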