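import Pool.Agent.H949.VW.Defs
import Pool.Agent.H949.VW.Lin
import Pool.Agent.H949.VW.Wid

set_option autoImplicit false

open MeasureTheory ProbabilityTheory Set Metric
open scoped RealInnerProductSpace ENNReal

namespace H949.VW

/-! ### Proofs

Take `C` from `exists_linear` (`gramS z univ ≥ 1 > 0`, use `hA univ` or `m = 0`, where it is `1`). For small `δ` (to be
chosen, depending on `C` and `ε` only) let `J` be the map, `J†` its adjoint (`LinearMap.adjoint`), `‖J† x‖ ≤ ‖J‖ ‖x‖ ≤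
(1 + C δ) ‖x‖`. Let `V = cell Z`, `x ∈ V`: `‖x‖ ≤ 1 + δ` and `2 ⟪x, ζ i⟫ ≤ ‖ζ i‖²`. Put `y = J† x`. Then
`‖y‖ ≤ (1 + C δ) (1 + δ)`, and `⟪y, z i⟫ = ⟪x, ζ i⟫ ≤ ‖ζ i‖² / 2 ≤ (‖z i‖² + δ) / 2 ≤ (1 + δ) ‖z i‖² / 2`, because
`‖z i‖² = gramS z {i} > 1`. So with `s = (1 + C δ) (1 + δ)` we have `s⁻¹ • y ∈ KZ z`, and `⟪J u, x⟫ = ⟪u, y⟫ = s ⟪u, s⁻¹ • y⟫`.
By `wid_le_of_map_smul`, `wid (J u) V ≤ s * wid u (KZ z)`. Let `û = J u / ‖J u‖`, `‖J u‖² ≥ 1 - C δ`. Then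
`width V ≤ wid û V ≤ (s / ‖J u‖) wid u (KZ z) ≤ wid u (KZ z) + ε` for small `δ`, as `wid u (KZ z) ≤ 2`
(`0 ∈ V`, `0 ∈ KZ z ⊆ closedBall 0 1`).
-/

theorem transfer_zero_mem {d : ℕ} (Z : Set (E d)) : (0 : E d) ∈ cell Z := by
  intro z _
  rw [norm_zero]
  exact norm_nonneg _

theorem transfer_KZ_ne {n m : ℕ} (z : Fin m → E n) : (KZ z).Nonempty := by
  refine ⟨0, ?_, fun i => ?_⟩
  · rw [norm_zero]; exact zero_le_one
  · rw [inner_zero_left]; positivity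

theorem transfer_KZ_sub {n m : ℕ} (z : Fin m → E n) : KZ z ⊆ closedBall 0 1 := by
  intro x hx
  rw [mem_closedBall_zero_iff]
  exact hx.1

theorem transfer_inner_le {d : ℕ} {Z : Set (E d)} {x ζ : E d} (hx : x ∈ cell Z) (hζ : ζ ∈ Z) :
    2 * ⟪x, ζ⟫ ≤ ‖ζ‖ ^ 2 := by
  have h := hx ζ hζ
  have h1 : ‖x‖ ^ 2 ≤ ‖x - ζ‖ ^ 2 := pow_le_pow_left₀ (norm_nonneg _) h 2
  rw [norm_sub_sq_real] at h1
  linarith

theorem transfer_gram_one {n m : ℕ} (z : Fin m → E n) (i : Fin m) : gramS z {i} = ‖z i‖ ^ 2 := by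
  have hs : Subsingleton ({i} : Finset (Fin m)) := by
    constructor
    rintro ⟨a, ha⟩ ⟨b, hb⟩
    rw [Finset.mem_singleton] at ha hb
    subst ha
    subst hb
    rfl
  unfold gramS
  rw [Matrix.det_eq_elem_of_subsingleton _ (⟨i, Finset.mem_singleton_self i⟩ : ({i} : Finset (Fin m))),
    Matrix.of_apply, real_inner_self_eq_norm_sq]

theorem transfer_gram_univ {n m : ℕ} (z : Fin m → E n)
    (hA : ∀ S : Finset (Fin m), S.Nonempty → 1 < gramS z S) : gramS z Finset.univ ≠ 0 := by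
  rcases Finset.eq_empty_or_nonempty (Finset.univ : Finset (Fin m)) with h | h
  · rw [h]
    unfold gramS
    rw [Matrix.det_isEmpty]
    exact one_ne_zero
  · exact (zero_lt_one.trans (hA _ h)).ne'

theorem transfer_adj {n d : ℕ} (J : E n →ₗ[ℝ] E d) (a : ℝ) (ha : 0 ≤ a)
    (hJ : ∀ x, |‖J x‖ ^ 2 - ‖x‖ ^ 2| ≤ a * ‖x‖ ^ 2) (x : E d) :
    ‖LinearMap.adjoint J x‖ ≤ (1 + a) * ‖x‖ := by
  have h1 : ‖J (LinearMap.adjoint J x)‖ ≤ (1 + a) * ‖LinearMap.adjoint J x‖ := by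
    refine abs_le_of_sq_le_sq' ?_ (by positivity) |>.2
    have h2 := (abs_le.1 (hJ (LinearMap.adjoint J x))).2
    have h3 : 0 ≤ ‖LinearMap.adjoint J x‖ ^ 2 := sq_nonneg _
    have h4 : 0 ≤ a * (1 + a) * ‖LinearMap.adjoint J x‖ ^ 2 := by positivity
    nlinarith
  have h5 : ‖LinearMap.adjoint J x‖ ^ 2 ≤ (1 + a) * ‖LinearMap.adjoint J x‖ * ‖x‖ := by
    calc ‖LinearMap.adjoint J x‖ ^ 2 = ⟪LinearMap.adjoint J x, LinearMap.adjoint J x⟫ :=
          (real_inner_self_eq_norm_sq _).symm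
      _ = ⟪J (LinearMap.adjoint J x), x⟫ := LinearMap.adjoint_inner_right _ _ _
      _ ≤ ‖J (LinearMap.adjoint J x)‖ * ‖x‖ := real_inner_le_norm _ _
      _ ≤ (1 + a) * ‖LinearMap.adjoint J x‖ * ‖x‖ :=
          mul_le_mul_of_nonneg_right h1 (norm_nonneg _)
  rcases (norm_nonneg (LinearMap.adjoint J x)).eq_or_lt with h | h
  · rw [← h]
    positivity
  · have h6 : ‖LinearMap.adjoint J x‖ * ‖LinearMap.adjoint J x‖ ≤
        ((1 + a) * ‖x‖) * ‖LinearMap.adjoint J x‖ := by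
      rw [← sq]
      linarith
    exact le_of_mul_le_mul_right h6 h

theorem transfer {n m : ℕ} (z : Fin m → E n) (u : E n) (hu : ‖u‖ = 1)
    (hA : ∀ S : Finset (Fin m), S.Nonempty → 1 < gramS z S) (ε : ℝ) (hε : 0 < ε) :
    ∃ δ : ℝ, 0 < δ ∧ ∀ (d : ℕ), n + m ≤ d → ∀ (Z : Set (E d)) (ζ : Fin m → E d), (∀ i, ζ i ∈ Z) →
      (∀ i j, |⟪ζ i, ζ j⟫ - ⟪z i, z j⟫| ≤ δ) → cell Z ⊆ closedBall 0 (1 + δ) →
      width (cell Z) ≤ wid u (KZ z) + ε := by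
  obtain ⟨C, hC, hlin⟩ := exists_linear z (transfer_gram_univ z hA)
  obtain ⟨e, he⟩ : ∃ e : ℝ, e = min 1 ε := ⟨_, rfl⟩
  have he0 : 0 < e := he ▸ lt_min one_pos hε
  have he1 : e ≤ 1 := he ▸ min_le_left _ _
  have heε : e ≤ ε := he ▸ min_le_right _ _
  obtain ⟨δ, hδ⟩ : ∃ δ : ℝ, δ = e / (8 * (C + 1)) := ⟨_, rfl⟩
  have hδ0 : 0 < δ := by rw [hδ]; positivity
  have hδC : (C + 1) * δ = e / 8 := by
    rw [hδ]
    field_simp
  refine ⟨δ, hδ0, fun d hd Z ζ hζ hin hcell => ?_⟩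
  obtain ⟨J, hJz, hJ⟩ := hlin d hd ζ δ hδ0.le hin
  have ha0 : 0 ≤ C * δ := by positivity
  have ha8 : C * δ ≤ 1 / 8 := by nlinarith
  have hd8 : δ ≤ 1 / 8 := by nlinarith
  obtain ⟨s, hs⟩ : ∃ s : ℝ, s = (1 + C * δ) * (1 + δ) := ⟨_, rfl⟩
  have hs0 : 0 < s := by rw [hs]; positivity
  have hs1 : 1 + δ ≤ s := by
    rw [hs]
    nlinarith
  have hJu2 : 1 - C * δ ≤ ‖J u‖ ^ 2 := by
    have h1 := (abs_le.1 (hJ u)).1
    rw [hu] at h1
    linarith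
  have hJu : 1 - C * δ ≤ ‖J u‖ := by
    refine abs_le_of_sq_le_sq' ?_ (norm_nonneg _) |>.2
    refine le_trans ?_ hJu2
    nlinarith
  have hJu0 : 0 < ‖J u‖ := by linarith
  -- the bounds for the width of the body
  have hW2 := wid_le_two_mul u hu (KZ z) (transfer_KZ_ne z) 1 (transfer_KZ_sub z)
  have hW0 := wid_nonneg u (KZ z) (transfer_KZ_ne z) 1 (transfer_KZ_sub z)
  have hne : (cell Z).Nonempty := ⟨0, transfer_zero_mem Z⟩
  have hv : ‖(‖J u‖⁻¹ : ℝ) • J u‖ = 1 := by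
    rw [norm_smul, norm_inv, norm_norm, inv_mul_cancel₀ hJu0.ne']
  have h1 := width_le ((‖J u‖⁻¹ : ℝ) • J u) hv (cell Z) hne (1 + δ) hcell
  have h2 : wid ((‖J u‖⁻¹ : ℝ) • J u) (cell Z) ≤ s / ‖J u‖ * wid u (KZ z) := by
    refine wid_le_of_map_smul _ u (cell Z) (KZ z) hne 1 _ (by positivity) (transfer_KZ_sub z) ?_
    intro x hx
    have hx1 : ‖x‖ ≤ 1 + δ := by
      have := hcell hx
      rwa [mem_closedBall_zero_iff] at this
    refine ⟨s⁻¹ • LinearMap.adjoint J x, ⟨?_, fun i => ?_⟩, ?_⟩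
    · rw [norm_smul, norm_inv, Real.norm_of_nonneg hs0.le, inv_mul_le_iff₀ hs0, mul_one]
      refine (transfer_adj J (C * δ) ha0 hJ x).trans ?_
      rw [hs]
      gcongr
    · rw [real_inner_smul_left, LinearMap.adjoint_inner_left, hJz i, inv_mul_le_iff₀ hs0]
      have h3 := transfer_inner_le hx (hζ i)
      have h4 := (abs_le.1 (hin i i)).2
      rw [real_inner_self_eq_norm_sq, real_inner_self_eq_norm_sq] at h4
      have h5 : 1 < ‖z i‖ ^ 2 := by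
        rw [← transfer_gram_one]
        exact hA _ (Finset.singleton_nonempty i)
      have h6 : ⟪x, ζ i⟫ ≤ (1 + δ) * (‖z i‖ ^ 2 / 2) := by nlinarith
      refine h6.trans ?_
      exact mul_le_mul_of_nonneg_right hs1 (by positivity)
    · rw [real_inner_smul_left, real_inner_smul_right, LinearMap.adjoint_inner_right]
      field_simp
  have h3 : s / ‖J u‖ ≤ 1 + e / 2 := by
    rw [div_le_iff₀ hJu0]
    have h4 : s ≤ (1 + e / 2) * (1 - C * δ) := by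
      have h5 : δ = e / 8 - C * δ := by linarith
      have h6 : C * δ ≤ e / 8 := by linarith
      rw [hs]
      nlinarith
    refine h4.trans ?_
    exact mul_le_mul_of_nonneg_left hJu (by positivity)
  have h4 : s / ‖J u‖ * wid u (KZ z) ≤ (1 + e / 2) * wid u (KZ z) :=
    mul_le_mul_of_nonneg_right h3 hW0
  have h5 : e / 2 * wid u (KZ z) ≤ e := by nlinarith
  linarith

end H949.VW
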