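import Pool.Agent.H949.VW.Cells
import Pool.Agent.H949.VW.Cst
import Pool.Agent.H949.VW.Transfer
import Pool.Agent.H949.VW.Find
import Pool.Agent.H949.VW.Ball
import Pool.Agent.H949.VW.Greedy
import Pool.Agent.H949.VW.NoBad
import Pool.Agent.H949.VW.Scale

/-!
# The normalised width of the typical Poisson-Voronoi cell converges in probability
-/

set_option autoImplicit false

open MeasureTheory ProbabilityTheory Set Metric Filter
open scoped RealInnerProductSpace ENNReal Topology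

namespace H949.VW

universe w

theorem upper_bound (ε κ : ℝ) (hε : 0 < ε) (hκ : 0 < κ) : ∃ d0 : ℕ, ∀ d ≥ d0, ∀ {Ω : Type w}
    [MeasurableSpace Ω] (P : Measure Ω) [IsProbabilityMeasure P] (Z : Ω → Set (E d)),
    IsPoisson P Z (1 / kap d) →
    P {ω | cst + ε < width (cell (Z ω))} ≤ ENNReal.ofReal κ := by
  obtain ⟨n, m, z, u, hu, hz, hw⟩ := exists_adm (ε / 2) (by positivity)
  obtain ⟨δ, hδ, hT⟩ := transfer z u hu hz (ε / 2) (by positivity)
  obtain ⟨d1, h1⟩ := find_tuple.{w} z hz δ (κ / 2) hδ (by positivity)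
  obtain ⟨d2, h2⟩ := cell_in_ball.{w} δ (κ / 2) hδ (by positivity)
  refine ⟨max (max d1 d2) (n + m), fun d hd Ω _ P _ Z hZ => ?_⟩
  have hd1 : d1 ≤ d := le_trans (le_trans (le_max_left _ _) (le_max_left _ _)) hd
  have hd2 : d2 ≤ d := le_trans (le_trans (le_max_right _ _) (le_max_left _ _)) hd
  have hd3 : n + m ≤ d := le_trans (le_max_right _ _) hd
  have hsub : {ω | cst + ε < width (cell (Z ω))} ⊆
      {ω | ¬ ∃ ζ : Fin m → E d, (∀ i, ζ i ∈ Z ω) ∧ ∀ i j, |⟪ζ i, ζ j⟫ - ⟪z i, z j⟫| ≤ δ} ∪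
      {ω | ¬ cell (Z ω) ⊆ closedBall 0 (1 + δ)} := by
    intro ω hω
    by_contra hcon
    simp only [mem_union, mem_setOf_eq, not_or, not_not] at hcon
    obtain ⟨⟨ζ, hζ1, hζ2⟩, hb⟩ := hcon
    have h3 := hT d hd3 (Z ω) ζ hζ1 hζ2 hb
    have h4 : cst + ε < width (cell (Z ω)) := hω
    linarith
  calc P {ω | cst + ε < width (cell (Z ω))} ≤ _ := measure_mono hsub
    _ ≤ _ := measure_union_le _ _
    _ ≤ ENNReal.ofReal (κ / 2) + ENNReal.ofReal (κ / 2) :=
        add_le_add (h1 d hd1 P Z hZ) (h2 d hd2 P Z hZ)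
    _ = ENNReal.ofReal κ := by
        rw [← ENNReal.ofReal_add (by positivity) (by positivity)]; congr 1; ring

theorem lower_bound (ε κ : ℝ) (hε : 0 < ε) (hκ : 0 < κ) : ∃ d0 : ℕ, ∀ d ≥ d0, ∀ {Ω : Type w}
    [MeasurableSpace Ω] (P : Measure Ω) [IsProbabilityMeasure P] (Z : Ω → Set (E d)),
    IsPoisson P Z (1 / kap d) →
    P {ω | width (cell (Z ω)) < cst - ε} ≤ ENNReal.ofReal κ := by
  obtain ⟨M, η, hη0, hη1, hG⟩ := greedy ε hε
  have hpos : (0 : ℝ) < κ / (2 * (M + 1)) := by positivity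
  choose dk hdk using fun k : ℕ => no_bad_tuple.{w} k η (κ / (2 * (M + 1))) hη0 hη1 hpos
  obtain ⟨d2, h2⟩ := cell_in_ball.{w} 1 (κ / 2) one_pos (by positivity)
  refine ⟨max (max ((Finset.range (M + 1)).sup dk) d2) 1, fun d hd Ω _ P _ Z hZ => ?_⟩
  have hd1 : ∀ k ∈ Finset.range (M + 1), dk k ≤ d := fun k hk =>
    le_trans (le_trans (Finset.le_sup (f := dk) hk) (le_trans (le_max_left _ _) (le_max_left _ _))) hd
  have hd2 : d2 ≤ d := le_trans (le_trans (le_max_right _ _) (le_max_left _ _)) hd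
  have hd3 : 1 ≤ d := le_trans (le_max_right _ _) hd
  have hsub : {ω | width (cell (Z ω)) < cst - ε} ⊆
      (⋃ k ∈ Finset.range (M + 1), {ω | ∃ z : Fin k → E d, Function.Injective z ∧
        (∀ i, z i ∈ Z ω ∧ ‖z i‖ < 2) ∧ gramS z Finset.univ < 1 - η}) ∪
      {ω | ¬ cell (Z ω) ⊆ closedBall 0 (1 + 1)} := by
    intro ω hω
    by_contra hcon
    simp only [mem_union, mem_iUnion, mem_setOf_eq, not_or, not_not, exists_prop, not_exists,
      not_and, not_lt] at hcon
    obtain ⟨hb, hc⟩ := hcon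
    have h3 := hG d (Z ω) (fun k hk z hz1 hz2 =>
      hb k (Finset.mem_range.mpr (by omega)) z hz1 hz2) (by norm_num at hc; exact hc)
    have h4 : width (cell (Z ω)) < cst - ε := hω
    have hne : Nonempty (sphere (0 : E d) 1) := by
      have : Nontrivial (E d) := by
        haveI : Nonempty (Fin d) := ⟨⟨0, hd3⟩⟩
        infer_instance
      obtain ⟨x, hx⟩ := exists_norm_eq (E d) (zero_le_one' ℝ)
      exact ⟨⟨x, by simpa using hx⟩⟩
    have h5 : cst - ε ≤ width (cell (Z ω)) := le_ciInf fun u =>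
      h3 (u : E d) (by simpa using u.2)
    linarith
  calc P {ω | width (cell (Z ω)) < cst - ε} ≤ _ := measure_mono hsub
    _ ≤ _ := measure_union_le _ _
    _ ≤ (∑ k ∈ Finset.range (M + 1), ENNReal.ofReal (κ / (2 * (M + 1)))) +
          ENNReal.ofReal (κ / 2) := by
        refine add_le_add ((measure_biUnion_finset_le _ _).trans (Finset.sum_le_sum fun k hk => ?_))
          (h2 d hd2 P Z hZ)
        exact hdk k d (hd1 k hk) P Z hZ
    _ = ENNReal.ofReal κ := by
        rw [Finset.sum_const, Finset.card_range, nsmul_eq_mul]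
        rw [← ENNReal.ofReal_natCast, ← ENNReal.ofReal_mul (by positivity),
          ← ENNReal.ofReal_add (by positivity) (by positivity)]
        congr 1
        push_cast
        field_simp
        norm_num

theorem main (lam : ℕ → ℝ) (hlam : ∀ d, 0 < lam d) (Ω : ℕ → Type w)
    [∀ d, MeasurableSpace (Ω d)] (P : ∀ d, Measure (Ω d)) [∀ d, IsProbabilityMeasure (P d)]
    (Z : ∀ d, Ω d → Set (E d)) (hZ : ∀ d, 1 ≤ d → IsPoisson (P d) (Z d) (lam d))
    (ε : ℝ) (hε : 0 < ε) :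
    Tendsto (fun d : ℕ => P d {ω | ε < |(lam d * kap d) ^ (1 / (d : ℝ)) *
      width (cell (Z d ω)) - cst|}) atTop (𝓝 0) := by
  rw [ENNReal.tendsto_nhds_zero]
  intro κ hκ
  obtain ⟨κ', hκ'0, hκ'⟩ : ∃ κ' : ℝ, 0 < κ' ∧ ENNReal.ofReal κ' + ENNReal.ofReal κ' ≤ κ := by
    obtain ⟨r, hr0, hr⟩ := ENNReal.lt_iff_exists_real_btwn.mp hκ |>.imp fun r h => h
    have hr1 : 0 < r := by
      by_contra hneg
      rw [ENNReal.ofReal_of_nonpos (not_lt.mp hneg)] at hr
      exact lt_irrefl _ hr.1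
    refine ⟨r / 2, by positivity, ?_⟩
    rw [← ENNReal.ofReal_add (by positivity) (by positivity)]
    have : r / 2 + r / 2 = r := by ring
    rw [this]
    exact hr.2.le
  obtain ⟨d1, h1⟩ := upper_bound.{w} (ε / 2) κ' (by positivity) hκ'0
  obtain ⟨d2, h2⟩ := lower_bound.{w} (ε / 2) κ' (by positivity) hκ'0
  refine eventually_atTop.mpr ⟨max (max d1 d2) 1, fun d hd => ?_⟩
  have hd1 : d1 ≤ d := le_trans (le_trans (le_max_left _ _) (le_max_left _ _)) hd
  have hd2 : d2 ≤ d := le_trans (le_trans (le_max_right _ _) (le_max_left _ _)) hd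
  have hd3 : 1 ≤ d := le_trans (le_max_right _ _) hd
  have hk := kap_pos d
  set R : ℝ := (lam d * kap d) ^ (1 / (d : ℝ)) with hR
  have hlk : 0 < lam d * kap d := mul_pos (hlam d) hk
  have hR0 : 0 < R := Real.rpow_pos_of_pos hlk _
  have hRd : R ^ d = lam d * kap d := by
    rw [hR, ← Real.rpow_natCast, ← Real.rpow_mul hlk.le]
    have : (1 / (d : ℝ)) * d = 1 := by
      have : (d : ℝ) ≠ 0 := by positivity
      field_simp
    rw [this, Real.rpow_one]
  have hZ' := (hZ d hd3).scale R hR0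
  rw [hRd] at hZ'
  have hl : lam d / (lam d * kap d) = 1 / kap d := by
    have := (hlam d).ne'
    field_simp
  rw [hl] at hZ'
  have hsub : {ω | ε < |R * width (cell (Z d ω)) - cst|} ⊆
      {ω | cst + ε / 2 < width (cell ((fun x => R • x) '' Z d ω))} ∪
      {ω | width (cell ((fun x => R • x) '' Z d ω)) < cst - ε / 2} := by
    intro ω hω
    simp only [mem_union, mem_setOf_eq, width_cell_scale (Z d ω) R hR0] at hω ⊢
    rcases lt_abs.mp hω with h | h
    · left; linarith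
    · right; linarith
  calc P d {ω | ε < |R * width (cell (Z d ω)) - cst|} ≤ _ := measure_mono hsub
    _ ≤ _ := measure_union_le _ _
    _ ≤ ENNReal.ofReal κ' + ENNReal.ofReal κ' :=
        add_le_add (h1 d hd1 (P d) _ hZ') (h2 d hd2 (P d) _ hZ')
    _ ≤ κ := hκ'

end H949.VW
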